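import Pool.Agent.H829.CE.Crit

/-!
# Permanence of coarse embeddability
-/

set_option autoImplicit false

namespace Pool.Agent.H829.CE

open Pool.Agent.H829.EG Pool.Agent.H818.CS Pool.Agent.N313.EX Finsupp
open Pool.Agent.N506.EX (CoarselyEmbeds IsExact)

universe u v w

/-- Two homomorphisms that are jointly injective. -/
theorem ce_of_two {P A B : Type u} [Group P] [Group A] [Group B] (p : P →* A) (q : P →* B)
    (hpq : ∀ x, p x = 1 → q x = 1 → x = 1) (hA : CoarselyEmbeds A) (hB : CoarselyEmbeds B) :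
    CoarselyEmbeds P := by
  obtain ⟨H, i1, i2, i3, f, f1, f2⟩ := hA
  obtain ⟨H', j1, j2, j3, f', f1', f2'⟩ := hB
  refine ⟨WithLp 2 (H × H'), inferInstance, inferInstance, inferInstance,
    fun g => WithLp.toLp 2 (f (p g), f' (q g)), fun s => ?_, fun C => ?_⟩
  · obtain ⟨C, hC⟩ := f1 (p s)
    obtain ⟨C', hC'⟩ := f1' (q s)
    refine ⟨Real.sqrt (C ^ 2 + C' ^ 2), fun g => ?_⟩
    apply Real.le_sqrt_of_sq_le
    rw [WithLp.prod_norm_sq_eq_of_L2]
    have h1 := hC (p g)
    have h2 := hC' (q g)
    rw [← map_mul] at h1 h2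
    exact add_le_add (pow_le_pow_left₀ (norm_nonneg _) h1 2) (pow_le_pow_left₀ (norm_nonneg _) h2 2)
  · have hfin := (f2 C).prod (f2' C)
    refine Set.Finite.subset (hfin.preimage (f := fun s => (p s, q s)) ?_) ?_
    · rintro x - y - hxy
      have h1 := congrArg Prod.fst hxy
      have h2 := congrArg Prod.snd hxy
      simp only at h1 h2
      have h3 := hpq (x⁻¹ * y) (by rw [map_mul, map_inv, h1, inv_mul_cancel])
        (by rw [map_mul, map_inv, h2, inv_mul_cancel])
      exact inv_mul_eq_one.mp h3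
    · rintro s ⟨g, hg⟩
      have h1 : ‖f (p (g * s)) - f (p g)‖ ^ 2 + ‖f' (q (g * s)) - f' (q g)‖ ^ 2 ≤ C ^ 2 := by
        have h2 := pow_le_pow_left₀ (norm_nonneg _) hg 2
        rw [WithLp.prod_norm_sq_eq_of_L2] at h2
        exact h2
      have hC : 0 ≤ C := (norm_nonneg _).trans hg
      refine ⟨⟨p g, ?_⟩, ⟨q g, ?_⟩⟩
      · rw [← map_mul]
        refine abs_le_of_sq_le_sq' ?_ hC |>.2
        nlinarith [sq_nonneg ‖f' (q (g * s)) - f' (q g)‖]
      · rw [← map_mul]
        refine abs_le_of_sq_le_sq' ?_ hC |>.2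
        nlinarith [sq_nonneg ‖f (p (g * s)) - f (p g)‖]

/-- Extensions with exact quotients (Dadarlat and Guentner). -/
theorem ce_of_hom {P : Type u} {Q : Type v} [Group P] [Countable P] [Group Q] (q : P →* Q)
    (hQ : IsExact Q) (hker : CoarselyEmbeds q.ker) : CoarselyEmbeds P := by
  classical
  letI : MulAction P Q := MulAction.compHom Q q
  have key : ∀ (g : P) (x : Q), g • x = q g * x := fun g x => rfl
  refine ce_fibration (Z := Q) (fun _ => True) ?_ ?_
  · intro z _
    refine CoarselyEmbeds.of_injective hker (Subgroup.inclusion (fun g hg => ?_))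
      (Subgroup.inclusion_injective _)
    rw [MulAction.mem_stabilizer_iff, key] at hg
    exact mul_eq_right.mp hg
  · intro F ε hε
    obtain ⟨E, μ, h0, h1, h2, h3⟩ := hQ (F.image q) ε hε
    refine ⟨E, fun g => μ (q g), fun _ _ => trivial, fun g => ⟨h0 _, h1 _⟩, ?_, ?_⟩
    · intro g z hz
      rw [key, map_inv]
      exact h2 _ _ (Finsupp.mem_support_iff.mp hz)
    · intro g s hs
      beta_reduce
      rw [map_mul]
      exact h3 _ _ (Finset.mem_image_of_mem _ hs)

theorem ce_of_subsingleton {P : Type u} [Group P] [Finite P] : CoarselyEmbeds P := by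
  refine ⟨PUnit.{u + 1}, inferInstance, inferInstance, inferInstance, fun _ => 0, fun s => ⟨0, ?_⟩,
    fun C => Set.toFinite _⟩
  intro g
  simp

/-- Finitely many homomorphisms that are jointly injective. -/
theorem ce_of_many {ι : Type w} (S : Finset ι) : ∀ {P A B : Type u} [Group P] [Group A] [Group B]
    (p : P →* A) (q : ι → P →* B) (_ : ∀ x, p x = 1 → (∀ i ∈ S, q i x = 1) → x = 1)
    (_ : CoarselyEmbeds A) (_ : CoarselyEmbeds B), CoarselyEmbeds P := by
  classical
  induction S using Finset.induction_on with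
  | empty =>
    intro P A B _ _ _ p q h hA hB
    refine CoarselyEmbeds.of_injective hA p ?_
    rw [injective_iff_map_eq_one]
    exact fun x hx => h x hx (by simp)
  | insert a S ha ih =>
    intro P A B _ _ _ p q h hA hB
    have h1 : CoarselyEmbeds (A × B) :=
      ce_of_two (MonoidHom.fst A B) (MonoidHom.snd A B) (fun x h1 h2 => Prod.ext h1 h2) hA hB
    refine ih (p.prod (q a)) q ?_ h1 hB
    intro x hx hx'
    have h2 : p x = 1 := congrArg Prod.fst hx
    have h3 : q a x = 1 := congrArg Prod.snd hx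
    refine h x h2 fun i hi => ?_
    rcases Finset.mem_insert.mp hi with rfl | hi
    · exact h3
    · exact hx' i hi

end Pool.Agent.H829.CE
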