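import Pool.Agent.H829.CE.WrDefs
import Pool.Agent.H829.CE.Perm
import Pool.Agent.H829.EG.PathMain

/-!
# Coarse embeddability of permutational wreath products
-/

set_option autoImplicit false

namespace Pool.Agent.H829.CE

open Pool.Agent.H829.EG Pool.Agent.H818.CS Pool.Agent.N313.EX Finsupp
open Pool.Agent.N506.EX (CoarselyEmbeds IsExact Ex.of_finite Ex.isExact)

universe u v w

section

variable (L : Type u) (G : Type v) (X : Type w) [Group L] [Group G] [MulAction G X]

/-- The arrows at which the function part is trivial. -/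
def wrGpd : CofiniteSubgroupoid (Wreath L G X) X where
  Mem a x := a.fn (a.pt • x) = 1
  one x := rfl
  inv a x h := by
    rw [Wreath.inv_fn, Wreath.inv_pt, Wreath.smul_def, smul_inv_smul, h, inv_one]
  mul a b x hb ha := by
    rw [Wreath.mul_fn, Wreath.mul_pt, mul_smul, inv_smul_smul, hb, mul_one]
    exact ha
  cofinite a := a.fin_comp a.pt

instance [Countable L] [Countable G] [Countable X] : Countable (Wreath L G X) := by
  classical
  refine Function.Injective.countable (β := G × Σ S : Finset X, (S → L))
    (f := fun a => (a.pt, ⟨a.fin.toFinset, fun x => a.fn x⟩)) ?_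
  intro a b hab
  simp only [Prod.mk.injEq, Sigma.mk.injEq] at hab
  obtain ⟨h1, h2, h3⟩ := hab
  refine Wreath.ext (funext fun x => ?_) h1
  by_cases hx : x ∈ a.fin.toFinset
  · have hx' : x ∈ b.fin.toFinset := h2 ▸ hx
    have key : ∀ (S S' : Finset X) (f : S → L) (f' : S' → L), S = S' → HEq f f' →
        ∀ (x : X) (hx : x ∈ S) (hx' : x ∈ S'), f ⟨x, hx⟩ = f' ⟨x, hx'⟩ := by
      rintro S S' f f' rfl h x hx hx'
      rw [eq_of_heq h]
    exact key _ _ _ _ h2 h3 x hx hx'
  · have hx' : x ∉ b.fin.toFinset := h2 ▸ hx
    simp only [Set.Finite.mem_toFinset, Set.mem_ofPred_eq, not_not] at hx hx'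
    rw [hx, hx']

end

section

variable {L G X : Type u} [Group L] [Group G] [MulAction G X]

theorem off_wr [Countable L] [Countable G] [Countable X] (hL : CoarselyEmbeds L)
    (hG : CoarselyEmbeds G) (E : Finset X) : CoarselyEmbeds ((wrGpd L G X).offSubgroup E) := by
  classical
  set P := (wrGpd L G X).offSubgroup E with hP
  have hPE : ∀ g : P, ∀ x, (g : Wreath L G X) • x ∈ E ↔ x ∈ E := fun g x => g.2.1 x
  let q : P →* Equiv.Perm E :=
    { toFun := fun g =>
        { toFun := fun x => ⟨(g : Wreath L G X) • x.1, (hPE g x.1).mpr x.2⟩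
          invFun := fun x => ⟨(g : Wreath L G X)⁻¹ • x.1, by
            rw [← hPE g, smul_inv_smul]
            exact x.2⟩
          left_inv := fun x => Subtype.ext (inv_smul_smul _ _)
          right_inv := fun x => Subtype.ext (smul_inv_smul _ _) }
      map_one' := by
        ext x : 2
        exact one_smul (Wreath L G X) x.1
      map_mul' := fun g h => by
        ext x : 2
        exact mul_smul (g : Wreath L G X) (h : Wreath L G X) x.1 }
  refine ce_of_hom q (Ex.isExact Ex.of_finite) ?_
  have hfix : ∀ g : q.ker, ∀ x ∈ E, ((g : P) : Wreath L G X).pt • x = x := by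
    intro g x hx
    have h2 : q g = 1 := g.2
    exact congrArg (fun e : Equiv.Perm E => (e ⟨x, hx⟩ : X)) h2
  let p : q.ker →* G :=
    { toFun := fun g => ((g : P) : Wreath L G X).pt
      map_one' := rfl
      map_mul' := fun _ _ => rfl }
  let r : E → q.ker →* L := fun x =>
    { toFun := fun g => ((g : P) : Wreath L G X).fn x.1
      map_one' := rfl
      map_mul' := fun g h => by
        have h1 : ((g : P) : Wreath L G X).pt⁻¹ • x.1 = x.1 := by
          rw [inv_smul_eq_iff]
          exact (hfix g x.1 x.2).symm
        show ((g : P) : Wreath L G X).fn x.1 *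
          ((h : P) : Wreath L G X).fn (((g : P) : Wreath L G X).pt⁻¹ • x.1) = _
        rw [h1] }
  refine ce_of_many (Finset.univ : Finset E) p r ?_ hG hL
  intro g h1 h2
  apply Subtype.ext
  apply Subtype.ext
  refine Wreath.ext (funext fun x => ?_) h1
  by_cases hx : x ∈ E
  · exact h2 ⟨x, hx⟩ (Finset.mem_univ _)
  · have h3 := (g : P).2.2 (((g : P) : Wreath L G X).pt⁻¹ • x) (fun h4 => hx (by
      rw [← hPE g, Wreath.smul_def, smul_inv_smul] at h4
      exact h4))
    have h4 : ((g : P) : Wreath L G X).fn (((g : P) : Wreath L G X).pt •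
        (((g : P) : Wreath L G X).pt⁻¹ • x)) = 1 := h3
    rw [smul_inv_smul] at h4
    exact h4

/-- Functions with one value. -/
theorem ce_left (h : CoarselyEmbeds (Wreath L G X)) [Nonempty X] : CoarselyEmbeds L := by
  classical
  obtain ⟨x₀⟩ := ‹Nonempty X›
  let i : L →* Wreath L G X :=
    { toFun := fun l => ⟨fun x => if x = x₀ then l else 1, 1, (Set.finite_singleton x₀).subset
        fun x hx => by
          by_contra h
          exact hx (if_neg h)⟩
      map_one' := by
        refine Wreath.ext (funext fun x => ?_) rfl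
        simp
      map_mul' := fun a b => by
        refine Wreath.ext (funext fun x => ?_) ?_
        · rw [Wreath.mul_fn, inv_one, one_smul]
          dsimp only
          split_ifs <;> simp
        · rw [Wreath.mul_pt, one_mul] }
  refine CoarselyEmbeds.of_injective h i ?_
  intro a b hab
  have h1 : (if x₀ = x₀ then a else 1) = (if x₀ = x₀ then b else 1) :=
    congrArg (fun z : Wreath L G X => z.fn x₀) hab
  rwa [if_pos rfl, if_pos rfl] at h1

theorem ce_right (h : CoarselyEmbeds (Wreath L G X)) : CoarselyEmbeds G := by
  let i : G →* Wreath L G X :=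
    { toFun := fun g => ⟨fun _ => 1, g, by simp⟩
      map_one' := rfl
      map_mul' := fun a b => by
        refine Wreath.ext (funext fun x => ?_) rfl
        simp }
  refine CoarselyEmbeds.of_injective h i ?_
  intro a b hab
  exact congrArg (fun z : Wreath L G X => z.pt) hab

theorem wreath_ce [Countable L] [Countable G] [Countable X] [Nonempty X]
    (hX : ExtensivelyExact G X) :
    CoarselyEmbeds (Wreath L G X) ↔ CoarselyEmbeds L ∧ CoarselyEmbeds G := by
  refine ⟨fun h => ⟨ce_left h, ce_right h⟩, fun ⟨hL, hG⟩ => ?_⟩
  let π : Wreath L G X →* G :=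
    { toFun := fun a => a.pt
      map_one' := rfl
      map_mul' := fun _ _ => rfl }
  exact ce_of_offSubgroup (wrGpd L G X) (extensivelyExact_comp π (fun _ _ => rfl) hX)
    (off_wr hL hG)

end

/-- Recurrent actions are extensively exact. -/
theorem RecurrentAction.extensivelyExact {G : Type u} {X : Type v} [Group G] [MulAction G X]
    (h : RecurrentAction G X) : ExtensivelyExact G X := by
  classical
  intro S E₀ ε hε
  have key : ∀ (E : Finset X) (η : ℝ), 0 < η → ∃ a : X → ℝ, (∀ x, 0 ≤ a x ∧ a x ≤ 1) ∧
      (∀ x ∈ E, a x = 1) ∧ {x | a x ≠ 0}.Finite ∧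
      ∀ s ∈ S, ∀ T : Finset X, ∑ x ∈ T, (a (s • x) - a x) ^ 2 ≤ η := by
    intro E
    induction E using Finset.induction_on with
    | empty =>
      intro η hη
      refine ⟨fun _ => 0, fun x => ⟨le_rfl, zero_le_one⟩, by simp, by simp, ?_⟩
      intro s _ T
      simp [hη.le]
    | insert x₀ E hx ih =>
      intro η hη
      obtain ⟨a, a1, a2, a3, a4⟩ := ih (η / 2) (by positivity)
      obtain ⟨b, b1, b2⟩ := h S x₀ (η / 2) (by positivity)
      have hmm : ∀ p q p' q' : ℝ, (max p (min |q| 1) - max p' (min |q'| 1)) ^ 2 ≤
          (p - p') ^ 2 + (q - q') ^ 2 := by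
        intro p q p' q'
        have e1 : |max p (min |q| 1) - max p' (min |q'| 1)| ≤ max |p - p'| |min |q| 1 - min |q'| 1| :=
          abs_max_sub_max_le_max _ _ _ _
        have e2 : |min |q| 1 - min |q'| 1| ≤ |q - q'| := by
          refine (abs_min_sub_min_le_max _ _ _ _).trans ?_
          rw [sub_self, abs_zero]
          exact max_le (abs_abs_sub_abs_le _ _) (abs_nonneg _)
        rw [← sq_abs (max p (min |q| 1) - max p' (min |q'| 1)), ← sq_abs (p - p'),
          ← sq_abs (q - q')]
        have e3 : |max p (min |q| 1) - max p' (min |q'| 1)| ≤ max |p - p'| |q - q'| :=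
          e1.trans (max_le_max le_rfl e2)
        rcases le_total |p - p'| |q - q'| with h1 | h1
        · rw [max_eq_right h1] at e3
          nlinarith [abs_nonneg (p - p'), abs_nonneg (q - q'),
            abs_nonneg (max p (min |q| 1) - max p' (min |q'| 1))]
        · rw [max_eq_left h1] at e3
          nlinarith [abs_nonneg (p - p'), abs_nonneg (q - q'),
            abs_nonneg (max p (min |q| 1) - max p' (min |q'| 1))]
      refine ⟨fun x => max (a x) (min |b x| 1), fun x => ?_, fun x hx => ?_, ?_, ?_⟩
      · exact ⟨le_max_of_le_left (a1 x).1, max_le (a1 x).2 (min_le_right _ _)⟩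
      · rcases Finset.mem_insert.mp hx with rfl | hx
        · beta_reduce
          rw [b1, abs_one, min_self]
          exact max_eq_right (a1 x).2
        · beta_reduce
          rw [a2 x hx]
          exact max_eq_left (min_le_right _ _)
      · refine (a3.union b.support.finite_toSet).subset ?_
        intro x hx
        by_contra hcon
        simp only [Set.mem_union, Set.mem_ofPred_eq, not_or, not_not, Finset.mem_coe,
          Finsupp.mem_support_iff] at hcon
        apply hx
        show max (a x) (min |b x| 1) = 0
        rw [hcon.1, hcon.2, abs_zero]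
        simp
      · intro s hs T
        refine (Finset.sum_le_sum fun x _ => hmm _ _ _ _).trans ?_
        rw [Finset.sum_add_distrib]
        have i1 := a4 s hs T
        have i2 := b2 s hs T
        linarith
  obtain ⟨a, a1, a2, a3, a4⟩ := key E₀ ((ε / 8) ^ 2) (by positivity)
  let act : MulAction G PUnit.{1} :=
    { smul := fun _ x => x
      one_smul := fun _ => rfl
      mul_smul := fun _ _ _ => rfl }
  exact relRec (V := PUnit.{1}) (fun _ => PUnit.unit) (fun _ _ => rfl)
    (Path.punit_extensivelyExact G act) S E₀ hε a a1 a2 (fun v => a3.subset fun x hx => hx.2) a4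

end Pool.Agent.H829.CE
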