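import Pool.Agent.H829.CE.Tfae
import Pool.Agent.H829.CE.Wr

/-!
# Sets with finite stabilizers and finitely many orbits
-/

set_option autoImplicit false

namespace Pool.Agent.H829.CE

open Pool.Agent.H818.CS
open Pool.Agent.N506.EX (CoarselyEmbeds)

universe u v w

theorem localKernel_cofinite {G : Type u} {X : Type v} (L : Type w) [Group L] [Finite L] [Group G]
    [MulAction G X] (D : Finset X) (hD : ∀ x : X, ∃ g : G, ∃ d ∈ D, g • d = x)
    (hs : ∀ x : X, (MulAction.stabilizer G x : Set G).Finite) :
    LocalKernel G (Wreath.proj L G X) := by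
  classical
  have hfib : ∀ x y : X, {g : G | g • x = y}.Finite := by
    intro x y
    by_cases h : ∃ g₀ : G, g₀ • x = y
    · obtain ⟨g₀, h0⟩ := h
      refine ((hs x).image fun g => g₀ * g).subset ?_
      intro g hg
      refine ⟨g₀⁻¹ * g, ?_, mul_inv_cancel_left _ _⟩
      show (g₀⁻¹ * g) • x = x
      have hg' : g • x = y := hg
      rw [mul_smul, hg', ← h0, inv_smul_smul]
    · refine Set.finite_empty.subset ?_
      intro g hg
      exact h ⟨g, hg⟩
  refine localKernel_of_finite _ _ (fun g => Setoid.comap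
    (fun (a : Wreath L G X) (d : D) => a.fn (g • (d : X))) ⊥) ?_ ?_ ?_
  · intro γ g a b
    show (fun d : D => (γ * a).fn ((γ.pt • g) • (d : X))) =
      (fun d : D => (γ * b).fn ((γ.pt • g) • (d : X))) ↔
      (fun d : D => a.fn (g • (d : X))) = fun d : D => b.fn (g • (d : X))
    rw [funext_iff, funext_iff]
    refine forall_congr' fun d => ?_
    rw [Wreath.mul_fn, Wreath.mul_fn, smul_eq_mul, mul_smul, inv_smul_smul]
    exact mul_left_cancel_iff
  · intro s
    have h1 : (⋃ d ∈ D, ⋃ y ∈ s.fin.toFinset, {g : G | g • d = y}).Finite := by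
      refine D.finite_toSet.biUnion fun d _ => ?_
      exact s.fin.toFinset.finite_toSet.biUnion fun y _ => hfib d y
    refine h1.subset ?_
    intro g hg
    have hg' : ¬ ((fun d : D => (1 : Wreath L G X).fn (g • (d : X))) =
      fun d : D => s.fn (g • (d : X))) := hg
    rw [funext_iff] at hg'
    push Not at hg'
    obtain ⟨d, hd⟩ := hg'
    rw [Wreath.one_fn] at hd
    refine Set.mem_biUnion d.2 (Set.mem_biUnion (x := g • (d : X)) ?_ rfl)
    rw [Finset.mem_coe, Set.Finite.mem_toFinset]
    exact Ne.symm hd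
  · intro E
    let E' : Finset X := E.biUnion fun g => D.image fun d => g • d
    refine (wr_finite (P := {1}) (Set.finite_singleton _) E'
      (Set.toFinite (Set.univ : Set L))).subset ?_
    rintro n ⟨h1, h2⟩
    refine ⟨h1, fun x hx => ?_, fun _ _ => Set.mem_univ _⟩
    obtain ⟨g, d, hd, rfl⟩ := hD x
    have hg : g ∉ E := fun hg => hx (Finset.mem_biUnion.mpr
      ⟨g, hg, Finset.mem_image_of_mem _ hd⟩)
    have h3 : (fun d : D => (1 : Wreath L G X).fn (g • (d : X))) =
      fun d : D => n.fn (g • (d : X)) := h2 g hg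
    exact (congrFun h3 ⟨d, hd⟩).symm

theorem ce_cofinite {G X : Type u} [Group G] [MulAction G X] (L : Type u) [Group L] [Finite L]
    (D : Finset X) (hD : ∀ x : X, ∃ g : G, ∃ d ∈ D, g • d = x)
    (hs : ∀ x : X, (MulAction.stabilizer G x : Set G).Finite) (hG : CoarselyEmbeds G) :
    CoarselyEmbeds (Wreath L G X) :=
  regular_local hG _ (localKernel_cofinite L D hD hs)

theorem ce_recurrent {G X : Type u} [Group G] [MulAction G X] [Countable G] [Countable X]
    (L : Type u) [Group L] [Finite L] (h : RecurrentAction G X) (hG : CoarselyEmbeds G) :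
    CoarselyEmbeds (Wreath L G X) := by
  rcases isEmpty_or_nonempty X with hX | hX
  · refine CoarselyEmbeds.of_injective hG (Wreath.proj L G X) ?_
    intro a b hab
    exact Wreath.ext (funext fun x => isEmptyElim x) hab
  · exact (wreath_ce h.extensivelyExact).mpr ⟨ce_of_subsingleton, hG⟩

end Pool.Agent.H829.CE
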