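import Mathlib

/-!
# Restricted permutational wreath products, recurrent actions
-/

set_option autoImplicit false

namespace Pool.Agent.H829.CE

universe u v w

/-- The restricted permutational wreath product of `L` and `G` over the `G`-set `X`. Its elements are
the pairs `(f, g)`, `f : X → L` with `f x = 1` for all but finitely many `x` and `g` in `G`, and
`(f, g) (f', g') = (x ↦ f x * f' (g⁻¹ x), g g')`. -/
@[ext]
structure Wreath (L : Type u) (G : Type v) (X : Type w) [Group L] [Group G] [MulAction G X] where
  /-- the function -/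
  fn : X → L
  /-- the group element -/
  pt : G
  fin : {x | fn x ≠ 1}.Finite

namespace Wreath

variable {L : Type u} {G : Type v} {X : Type w} [Group L] [Group G] [MulAction G X]

theorem fin_comp (a : Wreath L G X) (g : G) : {x | a.fn (g • x) ≠ 1}.Finite :=
  a.fin.preimage ((MulAction.injective g).injOn)

instance : One (Wreath L G X) := ⟨⟨fun _ => 1, 1, by simp⟩⟩

instance : Mul (Wreath L G X) :=
  ⟨fun a b => ⟨fun x => a.fn x * b.fn (a.pt⁻¹ • x), a.pt * b.pt, by
    refine (a.fin.union (b.fin_comp a.pt⁻¹)).subset ?_
    intro x hx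
    by_contra hcon
    simp only [Set.mem_union, Set.mem_ofPred_eq, not_or, not_not] at hcon
    exact hx (by rw [hcon.1, hcon.2, one_mul])⟩⟩

instance : Inv (Wreath L G X) :=
  ⟨fun a => ⟨fun x => (a.fn (a.pt • x))⁻¹, a.pt⁻¹, by
    refine (a.fin_comp a.pt).subset ?_
    intro x hx h
    exact hx (by rw [h, inv_one])⟩⟩

@[simp] theorem one_fn (x : X) : (1 : Wreath L G X).fn x = 1 := rfl
@[simp] theorem one_pt : (1 : Wreath L G X).pt = 1 := rfl
@[simp] theorem mul_fn (a b : Wreath L G X) (x : X) :
    (a * b).fn x = a.fn x * b.fn (a.pt⁻¹ • x) := rfl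
@[simp] theorem mul_pt (a b : Wreath L G X) : (a * b).pt = a.pt * b.pt := rfl
@[simp] theorem inv_fn (a : Wreath L G X) (x : X) : (a⁻¹).fn x = (a.fn (a.pt • x))⁻¹ := rfl
@[simp] theorem inv_pt (a : Wreath L G X) : (a⁻¹).pt = a.pt⁻¹ := rfl

instance : Group (Wreath L G X) :=
  Group.ofLeftAxioms
    (fun a b c => by
      refine Wreath.ext (funext fun x => ?_) (mul_assoc _ _ _)
      simp [mul_assoc, mul_smul])
    (fun a => by
      refine Wreath.ext (funext fun x => ?_) (one_mul _)
      simp)
    (fun a => by
      refine Wreath.ext (funext fun x => ?_) (inv_mul_cancel _)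
      simp)

/-- The wreath product acts on `X` through `G`. -/
instance : MulAction (Wreath L G X) X where
  smul a x := a.pt • x
  one_smul x := one_smul G x
  mul_smul a b x := mul_smul a.pt b.pt x

theorem smul_def (a : Wreath L G X) (x : X) : a • x = a.pt • x := rfl

end Wreath

/-- Recurrent actions: for every finite subset `S` of `G` and every point `x₀` there are finitely
supported functions `a` on `X` with `a x₀ = 1` such that the sums of the squares of the differences
`a (s x) - a x` over `x`, for `s` in `S`, are arbitrarily small. If the orbits of the subgroup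
generated by `S = S⁻¹` are infinite this is recurrence of the simple random walks on the Schreier
graphs. -/
def RecurrentAction (G : Type u) (X : Type v) [Group G] [MulAction G X] : Prop :=
  ∀ (S : Finset G) (x₀ : X) (ε : ℝ), 0 < ε → ∃ a : X →₀ ℝ, a x₀ = 1 ∧
    ∀ s ∈ S, ∀ T : Finset X, ∑ x ∈ T, (a (s • x) - a x) ^ 2 ≤ ε

end Pool.Agent.H829.CE
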