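import Pool.Agent.H829.CE.Perm
import Pool.Agent.H829.CE.WrDefs

/-!
# Random colourings
-/

set_option autoImplicit false

namespace Pool.Agent.H829.CE

open Pool.Agent.H818.CS Finsupp
open Pool.Agent.N506.EX (CoarselyEmbeds)

universe u v w z t

section avg

variable {C : Type u}

/-- The average over the subsets of `T`. -/
noncomputable def avg (T : Finset C) (Φ : Finset C → ℝ) : ℝ :=
  (1 / 2) ^ T.card * ∑ c ∈ T.powerset, Φ c

open scoped Classical in
theorem avg_insert {T : Finset C} {a : C} (ha : a ∉ T) (Φ : Finset C → ℝ)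
    (h : ∀ c, Φ (insert a c) = Φ c) : avg (insert a T) Φ = avg T Φ := by
  rw [avg, avg, Finset.sum_powerset_insert ha, Finset.card_insert_of_notMem ha, pow_succ]
  simp only [h]
  ring

open scoped Classical in
theorem avg_mono (T U : Finset C) (Φ : Finset C → ℝ) (h : ∀ a, a ∉ T → ∀ c, Φ (insert a c) = Φ c) :
    avg (T ∪ U) Φ = avg T Φ := by
  induction U using Finset.induction_on with
  | empty => rw [Finset.union_empty]
  | insert a U ha ih =>
    by_cases h1 : a ∈ T ∪ U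
    · rw [Finset.union_insert, Finset.insert_eq_of_mem h1, ih]
    · rw [Finset.union_insert, avg_insert h1 _ (h a fun h2 => h1 (Finset.mem_union_left _ h2)), ih]

theorem avg_le {T : Finset C} {Φ : Finset C → ℝ} {M : ℝ} (h : ∀ c, Φ c ≤ M) : avg T Φ ≤ M := by
  rw [avg]
  have h1 := Finset.sum_le_card_nsmul T.powerset Φ M fun c _ => h c
  rw [Finset.card_powerset, nsmul_eq_mul] at h1
  have h2 : (0:ℝ) < (1 / 2) ^ T.card := by positivity
  have h3 := mul_le_mul_of_nonneg_left h1 h2.le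
  have h4 : ((1:ℝ) / 2) ^ T.card * (((2 ^ T.card : ℕ) : ℝ) * M) = M := by
    push_cast
    rw [← mul_assoc, ← mul_pow]
    norm_num
  linarith

theorem exists_le_avg {T : Finset C} {Φ : Finset C → ℝ} : ∃ c, Φ c ≤ avg T Φ := by
  by_contra hcon
  push Not at hcon
  have h1 := Finset.sum_lt_sum_of_nonempty (s := T.powerset) ⟨∅, Finset.empty_mem_powerset T⟩
    fun c _ => hcon c
  rw [Finset.sum_const, Finset.card_powerset, nsmul_eq_mul] at h1
  have h2 : (0:ℝ) < (1 / 2) ^ T.card := by positivity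
  have h3 := mul_lt_mul_of_pos_left h1 h2
  have h4 : ((1:ℝ) / 2) ^ T.card * (((2 ^ T.card : ℕ) : ℝ) * avg T Φ) = avg T Φ := by
    push_cast
    rw [← mul_assoc, ← mul_pow]
    norm_num
  rw [h4] at h3
  exact lt_irrefl _ h3

theorem exists_sep {T : Finset C} {Φ : Finset C → ℝ} (h0 : ∀ c, 0 ≤ Φ c) {l l' : C} (hl : l ∈ T)
    (hl' : l' ≠ l) : ∃ c, ¬ (l ∈ c ↔ l' ∈ c) ∧ Φ c ≤ 2 * avg T Φ := by
  classical
  by_contra hcon
  push Not at hcon
  obtain ⟨T₀, h1, rfl⟩ : ∃ T₀ : Finset C, l ∉ T₀ ∧ T = insert l T₀ :=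
    ⟨T.erase l, Finset.notMem_erase _ _, (Finset.insert_erase hl).symm⟩
  set A := avg (insert l T₀) Φ with hA
  have h2 : ∀ c ∈ T₀.powerset, 2 * A < Φ c + Φ (insert l c) := by
    intro c hc
    have hlc : l ∉ c := fun h => h1 (Finset.mem_powerset.mp hc h)
    by_cases h3 : l' ∈ c
    · have := hcon c (by tauto)
      have := h0 (insert l c)
      linarith
    · have := hcon (insert l c) (by
        have : l' ∉ insert l c := by
          rw [Finset.mem_insert, not_or]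
          exact ⟨hl', h3⟩
        have := Finset.mem_insert_self l c
        tauto)
      have := h0 c
      linarith
  have h3 := Finset.sum_lt_sum_of_nonempty (s := T₀.powerset) ⟨∅, Finset.empty_mem_powerset T₀⟩ h2
  rw [Finset.sum_const, Finset.card_powerset, nsmul_eq_mul, Finset.sum_add_distrib,
    ← Finset.sum_powerset_insert h1] at h3
  have h4 : (0:ℝ) < (1 / 2) ^ (insert l T₀).card := by positivity
  have h5 := mul_lt_mul_of_pos_left h3 h4
  have h6 : ((1:ℝ) / 2) ^ (insert l T₀).card * (((2 ^ T₀.card : ℕ) : ℝ) * (2 * A)) = A := by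
    rw [Finset.card_insert_of_notMem h1, pow_succ]
    push_cast
    have : ((1:ℝ) / 2) ^ T₀.card * 2 ^ T₀.card = 1 := by
      rw [← mul_pow]
      norm_num
    linear_combination A * this
  rw [h6] at h5
  exact lt_irrefl A h5

end avg

/-- Finiteness of sets of elements of wreath products. -/
theorem wr_finite {L : Type u} {G : Type v} {X : Type w} [Group L] [Group G] [MulAction G X]
    {P : Set G} (hP : P.Finite) (E : Finset X) {V : Set L} (hV : V.Finite) :
    {a : Wreath L G X | a.pt ∈ P ∧ (∀ x, x ∉ E → a.fn x = 1) ∧ ∀ x ∈ E, a.fn x ∈ V}.Finite := by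
  classical
  have h1 : (P ×ˢ (Set.pi Set.univ fun _ : E => V) : Set (G × (E → L))).Finite :=
    hP.prod (Set.Finite.pi' fun _ => hV |>.subset fun _ h => h) |>.subset (by
      rintro ⟨g, f⟩ ⟨h1, h2⟩
      exact ⟨h1, fun x => h2 x (Set.mem_univ x)⟩)
  refine Set.Finite.of_injOn (f := fun a : Wreath L G X => (a.pt, fun x : E => a.fn x)) ?_ ?_ h1
  · rintro a ⟨h2, -, h4⟩
    exact ⟨h2, fun x _ => h4 x x.2⟩
  · rintro a ⟨-, h3, -⟩ b ⟨-, h3', -⟩ hab
    have h5 := congrArg Prod.fst hab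
    have h6 := congrArg Prod.snd hab
    refine Wreath.ext (funext fun x => ?_) h5
    by_cases hx : x ∈ E
    · exact congrFun h6 ⟨x, hx⟩
    · rw [h3 x hx, h3' x hx]

theorem Ker.inner' {G : Type u} {H : Type w} [NormedAddCommGroup H] [InnerProductSpace ℝ H]
    (f : G → H) : Ker fun g h => inner ℝ (f g) (f h) := by
  simpa using Ker.one.mul_inner f

section main

variable {Γ : Type u} {G : Type v} {X : Type w} {C : Type z} {L : Type t} [Group Γ] [Group G]
  [Group L] [MulAction G X]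

open scoped Classical in
/-- The element of the wreath product given by a colouring. -/
noncomputable def colw (π : Γ →* G) (Λ : Γ → X → C) (l₀ : L)
    (hfin : ∀ γ, {x | Λ γ x ≠ Λ 1 x}.Finite) (c : Finset C) (γ : Γ) : Wreath L G X where
  fn x := if (Λ γ x ∈ c ↔ Λ 1 x ∈ c) then 1 else l₀
  pt := π γ
  fin := by
    refine (hfin γ).subset ?_
    intro x hx h
    apply hx
    rw [if_pos]
    rw [h]

/-- **Random colourings.** -/
theorem colouring (π : Γ →* G) (Λ : Γ → X → C) (B : Γ → Finset X)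
    (hB : ∀ γ s x, (π γ)⁻¹ • x ∉ B s → Λ (γ * s) x = Λ γ x) (l₀ : L) (hl₀ : l₀ ≠ 1)
    (hCE : CoarselyEmbeds (Wreath L G X)) :
    ∃ (H : Type u) (_ : NormedAddCommGroup H) (_ : InnerProductSpace ℝ H) (_ : CompleteSpace H)
      (ξ : Γ → H), (∀ s, ∃ D : ℝ, ∀ γ, ‖ξ (γ * s) - ξ γ‖ ≤ D) ∧
      ∀ R : ℝ, ∃ (F : Finset G) (E : Finset X), ∀ γ γ', ‖ξ γ' - ξ γ‖ ≤ R →
        (π γ)⁻¹ * π γ' ∈ F ∧ ∀ x, Λ γ x ≠ Λ γ' x → (π γ)⁻¹ • x ∈ E := by
  classical
  obtain ⟨H₀, _, _, _, F₀, hF1, hF2⟩ := hCE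
  have hB1 : ∀ γ x, x ∉ B γ → Λ γ x = Λ 1 x := by
    intro γ x hx
    have := hB 1 γ x (by rw [map_one, inv_one, one_smul]; exact hx)
    rwa [one_mul] at this
  have hfin : ∀ γ, {x | Λ γ x ≠ Λ 1 x}.Finite := by
    intro γ
    refine (B γ).finite_toSet.subset ?_
    intro x hx
    by_contra h
    exact hx (hB1 γ x h)
  let A : Finset C → Γ → Wreath L G X := colw π Λ l₀ hfin
  have hA : ∀ c γ x, (A c γ).fn x = if (Λ γ x ∈ c ↔ Λ 1 x ∈ c) then 1 else l₀ := fun _ _ _ => rfl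
  have hApt : ∀ c γ, (A c γ).pt = π γ := fun _ _ => rfl
  let TT : Γ → Finset C := fun γ => (B γ).image (Λ γ) ∪ (B γ).image (Λ 1)
  have hTT : ∀ γ a, a ∉ TT γ → ∀ c, A (insert a c) γ = A c γ := by
    intro γ a ha c
    refine Wreath.ext (funext fun x => ?_) rfl
    rw [hA, hA]
    by_cases hx : x ∈ B γ
    · have h1 : Λ γ x ≠ a := fun h => ha (Finset.mem_union_left _
        (Finset.mem_image.mpr ⟨x, hx, h⟩))
      have h2 : Λ 1 x ≠ a := fun h => ha (Finset.mem_union_right _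
        (Finset.mem_image.mpr ⟨x, hx, h⟩))
      simp only [Finset.mem_insert, h1, h2, false_or]
    · rw [hB1 γ x hx]
      simp
  let Q : Γ → Γ → Finset C → ℝ := fun γ γ' c => inner ℝ (F₀ (A c γ)) (F₀ (A c γ'))
  let K : Γ → Γ → ℝ := fun γ γ' => avg (TT γ ∪ TT γ') (Q γ γ')
  have hKT : ∀ γ γ' (T : Finset C), TT γ ⊆ T → TT γ' ⊆ T → K γ γ' = avg T (Q γ γ') := by
    intro γ γ' T h1 h2
    have h3 : T = (TT γ ∪ TT γ') ∪ T :=
      (Finset.union_eq_right.mpr (Finset.union_subset h1 h2)).symm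
    rw [h3, avg_mono]
    intro a ha c
    rw [Finset.mem_union, not_or] at ha
    simp only [Q, hTT _ _ ha.1, hTT _ _ ha.2]
  have hK : Ker K := by
    refine Ker.of_local fun S => ?_
    refine ⟨fun γ γ' => avg (S.biUnion TT) (Q γ γ'), ?_, ?_⟩
    · have h1 : Ker fun γ γ' => ∑ c ∈ (S.biUnion TT).powerset, Q γ γ' c :=
        Ker.sum _ fun c _ => Ker.inner' fun γ => F₀ (A c γ)
      exact h1.smul (by positivity)
    · intro γ hγ γ' hγ'
      exact hKT γ γ' _ (Finset.subset_biUnion_of_mem TT hγ) (Finset.subset_biUnion_of_mem TT hγ')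
  obtain ⟨H, i1, i2, i3, ξ, hξ⟩ := hK.kolmogorov
  let Φ : Γ → Γ → Finset C → ℝ := fun γ γ' c => ‖F₀ (A c γ') - F₀ (A c γ)‖ ^ 2
  have hdist : ∀ γ γ', ‖ξ γ' - ξ γ‖ ^ 2 = avg (TT γ ∪ TT γ') (Φ γ γ') := by
    intro γ γ'
    rw [norm_sub_sq_real, ← real_inner_self_eq_norm_sq, ← real_inner_self_eq_norm_sq, hξ, hξ, hξ,
      hKT γ γ (TT γ ∪ TT γ') Finset.subset_union_left Finset.subset_union_left,
      hKT γ' γ' (TT γ ∪ TT γ') Finset.subset_union_right Finset.subset_union_right,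
      hKT γ' γ (TT γ ∪ TT γ') Finset.subset_union_right Finset.subset_union_left]
    have e : ∀ c, Φ γ γ' c = Q γ' γ' c - 2 * Q γ' γ c + Q γ γ c := by
      intro c
      simp only [Φ, Q]
      rw [norm_sub_sq_real, ← real_inner_self_eq_norm_sq, ← real_inner_self_eq_norm_sq]
    simp only [avg, e]
    rw [Finset.sum_add_distrib, Finset.sum_sub_distrib, ← Finset.mul_sum]
    ring
  -- the products
  have hfn : ∀ c γ γ' x, ((A c γ)⁻¹ * A c γ').fn x =
      ((A c γ).fn (π γ • x))⁻¹ * (A c γ').fn (π γ • x) := by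
    intro c γ γ' x
    rw [Wreath.mul_fn, Wreath.inv_fn, Wreath.inv_pt, inv_inv, hApt]
  have hpt : ∀ c γ γ', ((A c γ)⁻¹ * A c γ').pt = (π γ)⁻¹ * π γ' := fun _ _ _ => rfl
  refine ⟨H, i1, i2, i3, ξ, fun s => ?_, fun R => ?_⟩
  · -- control
    have hM : {a : Wreath L G X | a.pt ∈ ({π s} : Set G) ∧ (∀ x, x ∉ B s → a.fn x = 1) ∧
        ∀ x ∈ B s, a.fn x ∈ ({1, l₀, l₀⁻¹} : Set L)}.Finite :=
      wr_finite (Set.finite_singleton _) (B s) (Set.toFinite _)
    choose D hD using hF1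
    obtain ⟨D', hD'⟩ := (hM.image D).bddAbove
    refine ⟨max D' 0, fun γ => ?_⟩
    have h1 : ∀ c, Φ γ (γ * s) c ≤ (max D' 0) ^ 2 := by
      intro c
      have h2 : (A c γ)⁻¹ * A c (γ * s) ∈ {a : Wreath L G X | a.pt ∈ ({π s} : Set G) ∧
          (∀ x, x ∉ B s → a.fn x = 1) ∧ ∀ x ∈ B s, a.fn x ∈ ({1, l₀, l₀⁻¹} : Set L)} := by
        refine ⟨?_, fun x hx => ?_, fun x _ => ?_⟩
        · rw [hpt, map_mul, inv_mul_cancel_left]
          rfl
        · rw [hfn, hA, hA, hB γ s (π γ • x) (by rwa [inv_smul_smul])]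
          exact inv_mul_cancel _
        · rw [hfn, hA, hA]
          split_ifs <;> simp
      have h3 := hD ((A c γ)⁻¹ * A c (γ * s)) (A c γ)
      rw [mul_inv_cancel_left] at h3
      have h4 : D ((A c γ)⁻¹ * A c (γ * s)) ≤ D' := hD' (Set.mem_image_of_mem _ h2)
      exact pow_le_pow_left₀ (norm_nonneg _) (h3.trans (h4.trans (le_max_left _ _))) 2
    have h2 := avg_le (T := TT γ ∪ TT (γ * s)) h1
    rw [← hdist] at h2
    exact abs_le_of_sq_le_sq' h2 (le_max_right _ _) |>.2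
  · -- properness
    let M : Set (Wreath L G X) := {m | ∃ a, ‖F₀ (a * m) - F₀ a‖ ≤ Real.sqrt 2 * R}
    have hM : M.Finite := hF2 _
    refine ⟨(hM.image fun m => m.pt).toFinset, hM.toFinset.biUnion fun m => m.fin.toFinset,
      fun γ γ' hγ => ?_⟩
    have hR : 0 ≤ R := (norm_nonneg _).trans hγ
    have h1 : avg (TT γ ∪ TT γ') (Φ γ γ') ≤ R ^ 2 := by
      rw [← hdist]
      exact pow_le_pow_left₀ (norm_nonneg _) hγ 2
    have key : ∀ c, Φ γ γ' c ≤ 2 * R ^ 2 → (A c γ)⁻¹ * A c γ' ∈ M := by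
      intro c hc
      refine ⟨A c γ, ?_⟩
      rw [mul_inv_cancel_left]
      refine abs_le_of_sq_le_sq' ?_ (by positivity) |>.2
      rw [mul_pow, Real.sq_sqrt (by norm_num)]
      exact hc
    refine ⟨?_, fun x hx => ?_⟩
    · obtain ⟨c, hc⟩ := exists_le_avg (T := TT γ ∪ TT γ') (Φ := Φ γ γ')
      have h2 := key c (by nlinarith [sq_nonneg R])
      rw [Set.Finite.mem_toFinset]
      exact ⟨_, h2, rfl⟩
    · have h0 : ∀ c, 0 ≤ Φ γ γ' c := fun c => sq_nonneg _
      have h2 : ∃ c, ¬ (Λ γ x ∈ c ↔ Λ γ' x ∈ c) ∧ Φ γ γ' c ≤ 2 * R ^ 2 := by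
        by_cases hxB : x ∈ B γ
        · obtain ⟨c, h3, h4⟩ := exists_sep (T := TT γ ∪ TT γ') h0 (l := Λ γ x) (l' := Λ γ' x)
            (Finset.mem_union_left _ (Finset.mem_union_left _ (Finset.mem_image_of_mem _ hxB)))
            (Ne.symm hx)
          exact ⟨c, h3, by linarith⟩
        · have hxB' : x ∈ B γ' := by
            by_contra h
            rw [hB1 γ x hxB, hB1 γ' x h] at hx
            exact hx rfl
          obtain ⟨c, h3, h4⟩ := exists_sep (T := TT γ ∪ TT γ') h0 (l := Λ γ' x) (l' := Λ γ x)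
            (Finset.mem_union_right _ (Finset.mem_union_left _ (Finset.mem_image_of_mem _ hxB')))
            hx
          exact ⟨c, fun h => h3 h.symm, by linarith⟩
      obtain ⟨c, h3, h4⟩ := h2
      refine Finset.mem_biUnion.mpr ⟨_, (Set.Finite.mem_toFinset _).mpr (key c h4), ?_⟩
      rw [Set.Finite.mem_toFinset, Set.mem_ofPred_eq, hfn, smul_inv_smul, hA, hA]
      by_cases p : Λ γ x ∈ c <;> by_cases q : Λ γ' x ∈ c <;> by_cases r : Λ 1 x ∈ c <;>
        simp_all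

end main

end Pool.Agent.H829.CE
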