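import Pool.Agent.H829.CE.WrDefs

/-!
# Halo products, groups with local kernels
-/

set_option autoImplicit false

namespace Pool.Agent.H829.CE

universe u v w

/-- A halo of groups over the set `X` (Genevois and Tessera) inside the group `N`: subgroups `L S` of
`N` for the subsets `S` of `X`, increasing with `S`, trivial for `S = ∅`, which generate `N` for finite
`S`, with `L R ∩ L S = L (R ∩ S)`. -/
structure Halo (N : Type u) (X : Type v) [Group N] where
  /-- the subgroups -/
  L : Set X → Subgroup N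
  mono : ∀ R S, R ⊆ S → L R ≤ L S
  empty : L ∅ = ⊥
  exists_finite : ∀ n, ∃ S : Finset X, n ∈ L S
  inter : ∀ R S, L R ⊓ L S = L (R ∩ S)

/-- `G` acts on `N` compatibly with the action on `X`: `g L(S) g⁻¹ = L(g S)`. -/
def Halo.Invariant {N : Type u} {X : Type v} [Group N] (h : Halo N X) (G : Type w) [Group G]
    [MulAction G X] (φ : G →* MulAut N) : Prop :=
  ∀ (g : G) (S : Set X) (n : N), n ∈ h.L S ↔ φ g n ∈ h.L ((fun x => g • x) '' S)

/-- A homomorphism `π : Γ → G` has local kernel over the `G`-set `X`: there are equivalence relations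
`r x` on `Γ`, for `x` in `X`, and a map `b` from `Γ` to a real Hilbert space such that

* `r (π γ x) (γ a) (γ c)` holds if and only if `r x a c` holds;
* for every `s` in `Γ`, `r x 1 s` holds for all but finitely many `x`;
* for every `s` in `Γ` the distances `‖b (γ s) - b γ‖` are bounded;
* for every finite subset `E` of `X` and every `C` only finitely many `n` in the kernel of `π` satisfy
  `r x 1 n` for all `x` that are not in `E` and `‖b (γ n) - b γ‖ ≤ C` for some `γ`. -/
def LocalKernel {Γ : Type u} {G : Type v} (X : Type w) [Group Γ] [Group G] [MulAction G X]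
    (π : Γ →* G) : Prop :=
  ∃ (r : X → Setoid Γ) (H : Type u) (_ : NormedAddCommGroup H) (_ : InnerProductSpace ℝ H)
    (_ : CompleteSpace H) (b : Γ → H),
    (∀ γ x a c, r (π γ • x) (γ * a) (γ * c) ↔ r x a c) ∧
    (∀ s, {x | ¬ r x 1 s}.Finite) ∧
    (∀ s, ∃ C : ℝ, ∀ γ, ‖b (γ * s) - b γ‖ ≤ C) ∧
    ∀ (E : Finset X) (C : ℝ),
      {n | π n = 1 ∧ (∀ x, x ∉ E → r x 1 n) ∧ ∃ γ, ‖b (γ * n) - b γ‖ ≤ C}.Finite

end Pool.Agent.H829.CE
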