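import Pool.Graph.R_seed8.Helper741.Exchange
import Pool.Agent.H829.CE.Geo
import Pool.Agent.H829.CE.HaloDefs

/-!
# Standard parabolic subgroups of Coxeter groups of infinite rank
-/

set_option autoImplicit false

namespace Pool.Agent.H829.CE.Cox

open Pool.Agent.Helper741 Pool.Agent.Helper741.TExt

variable {B : Type*} {M : CoxeterMatrix B} {W : Type*} [Group W] (cs : CoxeterSystem M W)

/-- The standard parabolic subgroup. -/
def par (J : Set B) : Subgroup W := Subgroup.closure (cs.simple '' J)

theorem wordProd_mem {J : Set B} (ω : List B) (h : ∀ i ∈ ω, i ∈ J) : cs.wordProd ω ∈ par cs J := by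
  induction ω with
  | nil => simp [par]
  | cons i ω ih =>
    rw [cs.wordProd_cons]
    exact Subgroup.mul_mem _ (Subgroup.subset_closure ⟨i, h i List.mem_cons_self, rfl⟩)
      (ih fun j hj => h j (List.mem_cons_of_mem _ hj))

theorem simple_step {J : Set B} (i : B) (hi : i ∈ J) {w : W}
    (h : ∃ ω : List B, (∀ i ∈ ω, i ∈ J) ∧ cs.IsReduced ω ∧ cs.wordProd ω = w) :
    ∃ ω : List B, (∀ i ∈ ω, i ∈ J) ∧ cs.IsReduced ω ∧ cs.wordProd ω = cs.simple i * w := by
  obtain ⟨ω, h1, h2, rfl⟩ := h
  have h2' : cs.length (cs.wordProd ω) = ω.length := h2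
  rcases cs.length_simple_mul (cs.wordProd ω) i with h3 | h3
  · refine ⟨i :: ω, ?_, ?_, cs.wordProd_cons i ω⟩
    · intro j hj
      rcases List.mem_cons.mp hj with rfl | hj
      · exact hi
      · exact h1 j hj
    · show cs.length (cs.wordProd (i :: ω)) = (i :: ω).length
      rw [cs.wordProd_cons, h3, h2', List.length_cons]
  · obtain ⟨k, hk, h4⟩ := exchange cs ω i (by omega)
    refine ⟨ω.eraseIdx k, fun j hj => h1 j (List.mem_of_mem_eraseIdx hj), ?_, h4.symm⟩
    show cs.length (cs.wordProd (ω.eraseIdx k)) = (ω.eraseIdx k).length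
    rw [← h4, List.length_eraseIdx_of_lt hk]
    omega

theorem exists_reduced {J : Set B} {w : W} (hw : w ∈ par cs J) :
    ∃ ω : List B, (∀ i ∈ ω, i ∈ J) ∧ cs.IsReduced ω ∧ cs.wordProd ω = w := by
  induction hw using Subgroup.closure_induction_left with
  | one => exact ⟨[], by simp, by simp [CoxeterSystem.IsReduced], by simp⟩
  | mul_left x hx y hy ih =>
    obtain ⟨i, hi, rfl⟩ := hx
    exact simple_step cs i hi ih
  | inv_mul_cancel x hx y hy ih =>
    obtain ⟨i, hi, rfl⟩ := hx
    rw [cs.inv_simple]
    exact simple_step cs i hi ih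

theorem invc_count [DecidableEq W] (ω : List B) (t : W) :
    (invc cs (cs.wordProd ω)).v t = ((cs.leftInvSeq ω).count t : ZMod 2) := by
  induction ω generalizing t with
  | nil => simp
  | cons i ω ih =>
    rw [cs.wordProd_cons, map_mul, mul_v, Finsupp.add_apply, invc_simple, el_v, el_w, act_apply,
      Finsupp.single_apply, ih, CoxeterSystem.leftInvSeq, List.count_cons]
    have h1 : (List.map (⇑(MulAut.conj (cs.simple i))) (cs.leftInvSeq ω)).count t =
        (cs.leftInvSeq ω).count ((cs.simple i)⁻¹ * t * cs.simple i) := by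
      have h2 : t = MulAut.conj (cs.simple i) ((cs.simple i)⁻¹ * t * cs.simple i) := by
        rw [MulAut.conj_apply]
        group
      conv_lhs => rw [h2]
      exact List.count_map_of_injective _ _ (MulAut.conj (cs.simple i)).injective _
    rw [h1]
    push_cast
    rw [add_comm]
    congr 1
    by_cases h3 : cs.simple i = t
    · simp [h3]
    · simp [h3]

theorem invc_ne_zero {ω : List B} (h : cs.IsReduced ω) (t : W) :
    (invc cs (cs.wordProd ω)).v t ≠ 0 ↔ t ∈ cs.leftInvSeq ω := by
  classical
  rw [invc_count]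
  constructor
  · intro h1
    by_contra hcon
    rw [List.count_eq_zero_of_not_mem hcon] at h1
    exact h1 Nat.cast_zero
  · intro h1
    rw [List.count_eq_one_of_mem h.nodup_leftInvSeq h1]
    norm_num

theorem card_support (w : W) : (invc cs w).v.support.card = cs.length w := by
  classical
  obtain ⟨ω, h1, rfl⟩ := cs.exists_isReduced w
  have h2 : (invc cs (cs.wordProd ω)).v.support = (cs.leftInvSeq ω).toFinset := by
    ext t
    rw [Finsupp.mem_support_iff, invc_ne_zero cs h1, List.mem_toFinset]
  rw [h2, List.toFinset_card_of_nodup h1.nodup_leftInvSeq, cs.length_leftInvSeq]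
  exact h1.symm

theorem mem_of_leftInvSeq (P : Subgroup W) (ω : List B) (h : ∀ t ∈ cs.leftInvSeq ω, t ∈ P) :
    ∀ i ∈ ω, cs.simple i ∈ P := by
  induction ω with
  | nil => simp
  | cons i ω ih =>
    rw [CoxeterSystem.leftInvSeq] at h
    have h1 : cs.simple i ∈ P := h _ List.mem_cons_self
    intro j hj
    rcases List.mem_cons.mp hj with rfl | hj
    · exact h1
    · refine ih (fun t ht => ?_) j hj
      have h2 := h _ (List.mem_cons_of_mem _ (List.mem_map_of_mem ht))
      rw [MulAut.conj_apply] at h2
      have h3 := P.mul_mem (P.mul_mem (P.inv_mem h1) h2) h1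
      have h4 : (cs.simple i)⁻¹ * (cs.simple i * t * (cs.simple i)⁻¹) * cs.simple i = t := by group
      rwa [h4] at h3

theorem leftInvSeq_mem {J : Set B} (ω : List B) (h : ∀ i ∈ ω, i ∈ J) :
    ∀ t ∈ cs.leftInvSeq ω, t ∈ par cs J := by
  induction ω with
  | nil => simp
  | cons i ω ih =>
    intro t ht
    have h1 : cs.simple i ∈ par cs J :=
      Subgroup.subset_closure ⟨i, h i List.mem_cons_self, rfl⟩
    rw [CoxeterSystem.leftInvSeq] at ht
    rcases List.mem_cons.mp ht with rfl | ht
    · exact h1
    · obtain ⟨t', ht', rfl⟩ := List.mem_map.mp ht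
      rw [MulAut.conj_apply]
      exact Subgroup.mul_mem _ (Subgroup.mul_mem _ h1
        (ih (fun j hj => h j (List.mem_cons_of_mem _ hj)) t' ht')) (Subgroup.inv_mem _ h1)

theorem mem_of_simple_mem {J : Set B} {i : B} (h : cs.simple i ∈ par cs J) : i ∈ J := by
  obtain ⟨ω, h1, h2, h3⟩ := exists_reduced cs h
  have h4 : ω.length = 1 := by
    rw [← h2, h3, cs.length_simple]
  obtain ⟨j, rfl⟩ := List.length_eq_one_iff.mp h4
  rw [cs.wordProd_singleton] at h3
  rw [← Geo.simple_injective cs h3]
  exact h1 j List.mem_cons_self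

/-- The letters of the reduced words of the elements of a standard parabolic subgroup. -/
theorem mem_of_reduced {J : Set B} {ω : List B} (h : cs.IsReduced ω)
    (h' : cs.wordProd ω ∈ par cs J) : ∀ i ∈ ω, i ∈ J := by
  obtain ⟨ω', h1, h2, h3⟩ := exists_reduced cs h'
  intro i hi
  refine mem_of_simple_mem cs (mem_of_leftInvSeq cs _ ω (fun t ht => ?_) i hi)
  refine leftInvSeq_mem cs ω' h1 t ?_
  rw [← invc_ne_zero cs h2, h3]
  exact (invc_ne_zero cs h t).mpr ht

/-- The standard parabolic subgroups form a halo. -/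
def halo : Halo W B where
  L := par cs
  mono R S h := Subgroup.closure_mono (Set.image_mono h)
  empty := by simp [par]
  exists_finite w := by
    classical
    obtain ⟨ω, h1, rfl⟩ := cs.exists_isReduced w
    exact ⟨ω.toFinset, wordProd_mem cs ω fun i hi => by simpa using hi⟩
  inter R S := by
    apply le_antisymm
    · rintro w ⟨h1, h2⟩
      obtain ⟨ω, h3, rfl⟩ := cs.exists_isReduced w
      exact wordProd_mem cs ω fun i hi =>
        ⟨mem_of_reduced cs h3 h1 i hi, mem_of_reduced cs h3 h2 i hi⟩
    · exact le_inf (Subgroup.closure_mono (Set.image_mono Set.inter_subset_left))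
        (Subgroup.closure_mono (Set.image_mono Set.inter_subset_right))

end Pool.Agent.H829.CE.Cox
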