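import Pool.Agent.H829.CE.WrU
import Pool.Agent.H829.CE.HaloDefs

/-!
# Coarse embeddability of halo products
-/

set_option autoImplicit false

namespace Pool.Agent.H829.CE

open Pool.Agent.H829.EG Pool.Agent.H818.CS Finsupp
open Pool.Agent.N506.EX (CoarselyEmbeds)

universe u v w z t

/-- The sum of two maps to Hilbert spaces. -/
theorem ce_of_pair {Γ : Type u} [Group Γ] {H₁ H₂ : Type u} [NormedAddCommGroup H₁]
    [InnerProductSpace ℝ H₁] [CompleteSpace H₁] [NormedAddCommGroup H₂] [InnerProductSpace ℝ H₂]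
    [CompleteSpace H₂] (ξ : Γ → H₁) (b : Γ → H₂) (h1 : ∀ s, ∃ D : ℝ, ∀ γ, ‖ξ (γ * s) - ξ γ‖ ≤ D)
    (h2 : ∀ s, ∃ D : ℝ, ∀ γ, ‖b (γ * s) - b γ‖ ≤ D)
    (h3 : ∀ R : ℝ, {s | ∃ γ, ‖ξ (γ * s) - ξ γ‖ ≤ R ∧ ‖b (γ * s) - b γ‖ ≤ R}.Finite) :
    CoarselyEmbeds Γ := by
  have key : ∀ x y : Γ, ‖(WithLp.toLp 2 (ξ x, b x) : WithLp 2 (H₁ × H₂)) - WithLp.toLp 2 (ξ y, b y)‖ ^ 2 =
      ‖ξ x - ξ y‖ ^ 2 + ‖b x - b y‖ ^ 2 := by
    intro x y
    rw [WithLp.prod_norm_sq_eq_of_L2]
    rfl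
  refine ⟨WithLp 2 (H₁ × H₂), inferInstance, inferInstance, inferInstance,
    fun γ => WithLp.toLp 2 (ξ γ, b γ), fun s => ?_, fun R => ?_⟩
  · obtain ⟨D, hD⟩ := h1 s
    obtain ⟨D', hD'⟩ := h2 s
    refine ⟨Real.sqrt (D ^ 2 + D' ^ 2), fun γ => ?_⟩
    apply Real.le_sqrt_of_sq_le
    rw [key]
    exact add_le_add (pow_le_pow_left₀ (norm_nonneg _) (hD γ) 2)
      (pow_le_pow_left₀ (norm_nonneg _) (hD' γ) 2)
  · refine (h3 R).subset ?_
    rintro s ⟨γ, hγ⟩
    have hR : 0 ≤ R := (norm_nonneg _).trans hγ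
    have h4 := pow_le_pow_left₀ (norm_nonneg _) hγ 2
    rw [key] at h4
    refine ⟨γ, ?_, ?_⟩
    · exact abs_le_of_sq_le_sq' (by nlinarith [sq_nonneg ‖b (γ * s) - b γ‖]) hR |>.2
    · exact abs_le_of_sq_le_sq' (by nlinarith [sq_nonneg ‖ξ (γ * s) - ξ γ‖]) hR |>.2

/-- **Groups with a homomorphism with local kernel.** -/
theorem ce_of_localKernel {Γ : Type u} {L₀ : Type z} {G : Type v} {X : Type w} [Group Γ]
    [Group L₀] [Nontrivial L₀] [Group G] [MulAction G X] (π : Γ →* G) (h : LocalKernel X π)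
    (h₀ : CoarselyEmbeds (Wreath L₀ G X)) : CoarselyEmbeds Γ := by
  classical
  obtain ⟨l₀, hl₀⟩ := exists_ne (1 : L₀)
  obtain ⟨r, H, _, _, _, b, hr1, hr2, hb, hr3⟩ := h
  let Λ : Γ → X → Set Γ := fun a x => {b | r x a b}
  have hΛ : ∀ a b x, Λ a x = Λ b x ↔ r x a b := by
    intro a b x
    constructor
    · intro h
      have h1 : b ∈ Λ b x := (r x).refl b
      rw [← h] at h1
      exact h1
    · intro h
      ext c
      exact ⟨fun h' => (r x).trans ((r x).symm h) h', fun h' => (r x).trans h h'⟩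
  obtain ⟨HH, i1, i2, i3, ξ, hξ1, hξ2⟩ := colouring π Λ (fun s => (hr2 s).toFinset) (by
    intro a s x hx
    rw [Set.Finite.mem_toFinset, Set.mem_ofPred_eq, not_not] at hx
    have h1 := (hr1 a _ _ _).mpr hx
    rw [smul_inv_smul, mul_one] at h1
    exact ((hΛ _ _ _).mpr h1).symm) l₀ hl₀ h₀
  refine ce_of_pair ξ b hξ1 hb fun R => ?_
  obtain ⟨F, E, hFE⟩ := hξ2 R
  have hZ : ∀ f : G, {s : Γ | π s = f ∧ (∀ y, y ∉ E → r y 1 s) ∧
      ∃ γ, ‖b (γ * s) - b γ‖ ≤ R}.Finite := by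
    intro f
    by_cases hne : ∃ s₀ : Γ, π s₀ = f ∧ ∀ y, y ∉ E → r y 1 s₀
    · obtain ⟨s₀, h1, h2⟩ := hne
      obtain ⟨D, hD⟩ := hb s₀
      let E' : Finset X := E.image fun y => (π s₀)⁻¹ • y
      refine ((hr3 E' (R + D)).image fun n => s₀ * n).subset ?_
      rintro s ⟨h3, h4, γ, h5⟩
      refine ⟨s₀⁻¹ * s, ⟨?_, fun x hx => ?_, γ * s₀, ?_⟩, mul_inv_cancel_left _ _⟩
      · rw [map_mul, map_inv, h1, h3, inv_mul_cancel]
      · have h6 : π s₀ • x ∉ E := fun h7 =>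
          hx (Finset.mem_image.mpr ⟨_, h7, inv_smul_smul _ _⟩)
        refine (hr1 s₀ x _ _).mp ?_
        rw [mul_one, mul_inv_cancel_left]
        exact (r _).trans ((r _).symm (h2 _ h6)) (h4 _ h6)
      · have h7 : b (γ * s₀ * (s₀⁻¹ * s)) - b (γ * s₀) =
            (b (γ * s) - b γ) - (b (γ * s₀) - b γ) := by
          rw [mul_assoc, mul_inv_cancel_left]
          abel
        rw [h7]
        exact (norm_sub_le _ _).trans (add_le_add h5 (hD γ))
    · refine Set.finite_empty.subset ?_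
      rintro s ⟨h3, h4, -⟩
      exact hne ⟨s, h3, h4⟩
  refine (F.finite_toSet.biUnion fun f _ => hZ f).subset ?_
  rintro s ⟨a, ha, ha'⟩
  obtain ⟨h4, h5⟩ := hFE a (a * s) ha
  rw [map_mul, inv_mul_cancel_left] at h4
  refine Set.mem_biUnion h4 ⟨rfl, fun y hy => ?_, a, ha'⟩
  have h6 : Λ a (π a • y) = Λ (a * s) (π a • y) := by
    by_contra hcon
    have h7 := h5 _ hcon
    rw [inv_smul_smul] at h7
    exact hy h7
  have h7 := (hΛ _ _ _).mp h6
  refine (hr1 a y _ _).mp ?_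
  rw [mul_one]
  exact h7

/-- Local kernels, the case of finite pieces. -/
theorem localKernel_of_finite {Γ : Type u} {G : Type v} (X : Type w) [Group Γ] [Group G]
    [MulAction G X] (π : Γ →* G) (r : X → Setoid Γ)
    (h1 : ∀ γ x a b, r (π γ • x) (γ * a) (γ * b) ↔ r x a b)
    (h2 : ∀ s, {x | ¬ r x 1 s}.Finite)
    (h3 : ∀ E : Finset X, {n | π n = 1 ∧ ∀ x, x ∉ E → r x 1 n}.Finite) : LocalKernel X π := by
  refine ⟨r, EuclideanSpace ℝ PEmpty.{u+1}, inferInstance, inferInstance, inferInstance,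
    fun _ => 0, h1, h2, fun s => ⟨0, fun γ => by simp⟩, fun E C => ?_⟩
  refine (h3 E).subset ?_
  rintro n ⟨h4, h5, -⟩
  exact ⟨h4, h5⟩

/-- The projection of a permutational wreath product. -/
def Wreath.proj (L : Type u) (G : Type v) (X : Type w) [Group L] [Group G] [MulAction G X] :
    Wreath L G X →* G where
  toFun a := a.pt
  map_one' := rfl
  map_mul' _ _ := rfl

theorem localKernel_wreath (L : Type u) (G : Type v) (X : Type w) [Group L] [Finite L] [Group G]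
    [MulAction G X] : LocalKernel X (Wreath.proj L G X) := by
  refine localKernel_of_finite _ _ (fun x => Setoid.comap (fun a : Wreath L G X => a.fn x) ⊥) ?_ ?_ ?_
  · intro γ x a b
    show (γ * a).fn (γ.pt • x) = (γ * b).fn (γ.pt • x) ↔ a.fn x = b.fn x
    rw [Wreath.mul_fn, Wreath.mul_fn, inv_smul_smul]
    exact mul_left_cancel_iff
  · intro s
    refine s.fin.subset ?_
    intro x hx h
    exact hx h.symm
  · intro E
    refine (wr_finite (P := {1}) (Set.finite_singleton _) E (Set.toFinite (Set.univ : Set L))).subset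
      ?_
    rintro n ⟨h1, h2⟩
    exact ⟨h1, fun x hx => (h2 x hx).symm, fun x _ => Set.mem_univ _⟩

/-- The semidirect product over a locally finite halo. -/
theorem localKernel_halo_map {N G : Type u} {X : Type w} [Group N] [Group G] [MulAction G X]
    (h : Halo N X) (φ : G →* MulAut N) (hφ : h.Invariant G φ) {H : Type u} [NormedAddCommGroup H]
    [InnerProductSpace ℝ H] [CompleteSpace H] (b : N ⋊[φ] G → H)
    (hb : ∀ s, ∃ C : ℝ, ∀ γ, ‖b (γ * s) - b γ‖ ≤ C)
    (hfin : ∀ (E : Finset X) (C : ℝ),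
      {n : N | n ∈ h.L E ∧ ∃ γ, ‖b (γ * SemidirectProduct.inl n) - b γ‖ ≤ C}.Finite) :
    LocalKernel X (SemidirectProduct.rightHom : N ⋊[φ] G →* G) := by
  classical
  refine ⟨fun x => ⟨fun a b => a.left⁻¹ * b.left ∈ h.L {x}ᶜ, ?_, ?_, ?_⟩, H, inferInstance,
    inferInstance, inferInstance, b, ?_, ?_, hb, ?_⟩
  · intro a
    rw [inv_mul_cancel]
    exact Subgroup.one_mem _
  · intro a b hab
    have := Subgroup.inv_mem _ hab
    rwa [mul_inv_rev, inv_inv] at this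
  · intro a b c hab hbc
    have := Subgroup.mul_mem _ hab hbc
    rwa [mul_assoc, mul_inv_cancel_left] at this
  · intro γ x a b
    show (γ * a).left⁻¹ * (γ * b).left ∈ h.L {γ.right • x}ᶜ ↔ a.left⁻¹ * b.left ∈ h.L {x}ᶜ
    have e1 : (γ * a).left⁻¹ * (γ * b).left = φ γ.right (a.left⁻¹ * b.left) := by
      rw [SemidirectProduct.mul_left, SemidirectProduct.mul_left, map_mul, map_inv]
      group
    have e2 : ({γ.right • x}ᶜ : Set X) = (fun y => γ.right • y) '' {x}ᶜ := by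
      ext y
      simp only [Set.mem_compl_iff, Set.mem_singleton_iff, Set.mem_image]
      constructor
      · intro hy
        refine ⟨γ.right⁻¹ • y, fun h3 => hy ?_, smul_inv_smul _ _⟩
        rw [← h3, smul_inv_smul]
      · rintro ⟨z, hz, rfl⟩ h3
        exact hz (smul_left_cancel _ h3)
    rw [e1, e2]
    exact (hφ _ _ _).symm
  · intro s
    obtain ⟨S, hS⟩ := h.exists_finite s.left
    refine S.finite_toSet.subset ?_
    intro x hx
    by_contra hxS
    refine hx ?_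
    show (1 : N ⋊[φ] G).left⁻¹ * s.left ∈ h.L {x}ᶜ
    rw [SemidirectProduct.one_left, inv_one, one_mul]
    have h4 : (S : Set X) ⊆ {x}ᶜ := by
      intro y hy hyx
      have h3 : y = x := hyx
      rw [h3] at hy
      exact hxS hy
    exact h.mono _ _ h4 hS
  · intro E C
    refine Set.Finite.of_injOn (f := fun a : N ⋊[φ] G => a.left)
      (t := {n : N | n ∈ h.L E ∧ ∃ γ, ‖b (γ * SemidirectProduct.inl n) - b γ‖ ≤ C}) ?_ ?_
      (hfin E C)
    · rintro n ⟨h1, h2, γ, hγ⟩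
      refine ⟨?_, γ, ?_⟩
      swap
      · have h3 : SemidirectProduct.inl n.left = n := SemidirectProduct.ext rfl h1.symm
        beta_reduce
        rw [h3]
        exact hγ
      have h2' : ∀ x, x ∉ E → n.left ∈ h.L {x}ᶜ := by
        intro x hx
        have h3 : (1 : N ⋊[φ] G).left⁻¹ * n.left ∈ h.L {x}ᶜ := h2 x hx
        rwa [SemidirectProduct.one_left, inv_one, one_mul] at h3
      obtain ⟨S, hS⟩ := h.exists_finite n.left
      have key : ∀ T : Finset X, (∀ x ∈ T, x ∉ E) → n.left ∈ h.L ((S : Set X) \ T) := by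
        intro T
        induction T using Finset.induction_on with
        | empty =>
          intro _
          simpa using hS
        | insert x T hx ih =>
          intro hT
          have h3 := ih fun y hy => hT y (Finset.mem_insert_of_mem hy)
          have h4 := h2' x (hT x (Finset.mem_insert_self _ _))
          have h5 : n.left ∈ h.L ((S : Set X) \ T) ⊓ h.L {x}ᶜ := ⟨h3, h4⟩
          rw [h.inter] at h5
          refine h.mono _ _ ?_ h5
          rintro y ⟨⟨hy1, hy2⟩, hy3⟩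
          refine ⟨hy1, fun hy4 => ?_⟩
          rcases Finset.mem_insert.mp (Finset.mem_coe.mp hy4) with h6 | h6
          · exact hy3 h6
          · exact hy2 h6
      have h3 := key (S.filter fun x => x ∉ E) fun x hx => (Finset.mem_filter.mp hx).2
      refine h.mono _ _ ?_ h3
      rintro x ⟨hx1, hx2⟩
      by_contra hcon
      exact hx2 (Finset.mem_coe.mpr (Finset.mem_filter.mpr ⟨hx1, hcon⟩))
    · rintro a ⟨h1, -⟩ b ⟨h1', -⟩ hab
      have h3 : a.right = 1 := h1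
      have h4 : b.right = 1 := h1'
      exact SemidirectProduct.ext hab (h3.trans h4.symm)

theorem localKernel_halo {N G : Type u} {X : Type w} [Group N] [Group G] [MulAction G X]
    (h : Halo N X) (φ : G →* MulAut N) (hφ : h.Invariant G φ)
    (hfin : ∀ E : Finset X, (h.L E : Set N).Finite) :
    LocalKernel X (SemidirectProduct.rightHom : N ⋊[φ] G →* G) :=
  localKernel_halo_map h φ hφ (H := EuclideanSpace ℝ PEmpty.{u+1}) (fun _ => 0)
    (fun s => ⟨0, fun γ => by simp⟩) fun E C => (hfin E).subset fun n hn => hn.1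

/-- The subgroupoid version. -/
theorem localKernel_gpd {Γ : Type u} {G : Type v} {X : Type w} [Group Γ] [Group G]
    [MulAction G X] [MulAction Γ X] (π : Γ →* G) (hπ : ∀ (γ : Γ) (x : X), γ • x = π γ • x)
    (H : CofiniteSubgroupoid Γ X)
    (hN : ∀ E : Finset X, {n : Γ | π n = 1 ∧ ∀ x, x ∉ E → H.Mem n x}.Finite) :
    LocalKernel X π := by
  have hrefl : ∀ x (a : Γ), H.Mem (a⁻¹ * a) (a⁻¹ • x) := fun x a => by
    rw [inv_mul_cancel]
    exact H.one _
  have hsymm : ∀ x (a b : Γ), H.Mem (a⁻¹ * b) (b⁻¹ • x) → H.Mem (b⁻¹ * a) (a⁻¹ • x) := by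
    intro x a b h
    have h1 := H.inv _ _ h
    have h2 : (a⁻¹ * b)⁻¹ = b⁻¹ * a := by group
    have h3 : (a⁻¹ * b) • (b⁻¹ • x) = a⁻¹ • x := by rw [smul_smul, mul_inv_cancel_right]
    rwa [h2, h3] at h1
  have htrans : ∀ x (a b c : Γ), H.Mem (a⁻¹ * b) (b⁻¹ • x) → H.Mem (b⁻¹ * c) (c⁻¹ • x) →
      H.Mem (a⁻¹ * c) (c⁻¹ • x) := by
    intro x a b c h h'
    have h3 : (b⁻¹ * c) • (c⁻¹ • x) = b⁻¹ • x := by rw [smul_smul, mul_inv_cancel_right]
    have h4 := H.mul (a⁻¹ * b) (b⁻¹ * c) (c⁻¹ • x) h' (by rw [h3]; exact h)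
    have h5 : a⁻¹ * b * (b⁻¹ * c) = a⁻¹ * c := by group
    rwa [h5] at h4
  refine localKernel_of_finite _ _ (fun x => ⟨fun a b => H.Mem (a⁻¹ * b) (b⁻¹ • x), hrefl x,
    fun {a b} => hsymm x a b, fun {a b c} => htrans x a b c⟩) ?_ ?_ ?_
  · intro γ x a b
    show H.Mem ((γ * a)⁻¹ * (γ * b)) ((γ * b)⁻¹ • (π γ • x)) ↔ H.Mem (a⁻¹ * b) (b⁻¹ • x)
    have e1 : (γ * a)⁻¹ * (γ * b) = a⁻¹ * b := by group
    rw [e1, ← hπ, mul_inv_rev, mul_smul, inv_smul_smul]
  · intro s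
    refine ((H.cofinite s).preimage (MulAction.injective s⁻¹).injOn).subset ?_
    intro x hx hm
    refine hx ?_
    show H.Mem ((1:Γ)⁻¹ * s) (s⁻¹ • x)
    rwa [inv_one, one_mul]
  · intro E
    refine (hN E).subset ?_
    rintro n ⟨h1, h2⟩
    refine ⟨h1, fun x hx => ?_⟩
    have h3 : H.Mem ((1:Γ)⁻¹ * n) (n⁻¹ • x) := h2 x hx
    rwa [inv_one, one_mul, hπ n⁻¹, map_inv, h1, inv_one, one_smul] at h3

theorem localKernel_fs (G X : Type u) [Group G] [MulAction G X] :
    LocalKernel X ((MonoidHom.snd (Equiv.Perm X) G).comp (FinitaryExt G X).subtype) := by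
  classical
  refine localKernel_gpd _ (fun _ _ => rfl) (fsGpd G X) fun E => ?_
  refine Set.Finite.of_injOn (f := fun a : FinitaryExt G X =>
    fun x : E => (a : Equiv.Perm X × G).1 x) (t := {f : E → X | ∀ x, f x ∈ E}) ?_ ?_ ?_
  · rintro a ⟨h1, h2⟩ x
    have h1' : (a : Equiv.Perm X × G).2 = 1 := h1
    by_contra hcon
    have h3 : (a : Equiv.Perm X × G).1 ((a : Equiv.Perm X × G).1 x) =
      (a : Equiv.Perm X × G).2 • (a : Equiv.Perm X × G).1 x := h2 _ hcon
    rw [h1', one_smul] at h3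
    have h4 := (a : Equiv.Perm X × G).1.injective h3
    beta_reduce at hcon
    rw [h4] at hcon
    exact hcon x.2
  · rintro a ⟨h1, h2⟩ b ⟨h1', h2'⟩ hab
    have e1 : (a : Equiv.Perm X × G).2 = 1 := h1
    have e2 : (b : Equiv.Perm X × G).2 = 1 := h1'
    apply Subtype.ext
    refine Prod.ext (Equiv.ext fun x => ?_) (e1.trans e2.symm)
    by_cases hx : x ∈ E
    · exact congrFun hab ⟨x, hx⟩
    · have h3 : (a : Equiv.Perm X × G).1 x = (a : Equiv.Perm X × G).2 • x := h2 x hx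
      have h4 : (b : Equiv.Perm X × G).1 x = (b : Equiv.Perm X × G).2 • x := h2' x hx
      rw [h3, h4, e1, e2]
  · exact (Set.Finite.pi' fun _ : E => E.finite_toSet)

end Pool.Agent.H829.CE
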