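import Pool.Agent.H829.CE.Col

/-!
# Numbers of cuts
-/

set_option autoImplicit false

namespace Pool.Agent.H829.CE

open Pool.Agent.H818.CS Finsupp

universe u v w

/-- The kernel of an equivalence relation. -/
theorem ker_setoid {W : Type u} (r : Setoid W) (I : W → W → ℝ)
    (h1 : ∀ a b, r a b → I a b = 1) (h0 : ∀ a b, ¬ r a b → I a b = 0) : Ker I := by
  classical
  refine Ker.of_local fun A => ?_
  let q : W → Quotient r := Quotient.mk r
  refine ⟨fun a b => ∑ k ∈ A.image q, (if q a = k then (1:ℝ) else 0) *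
    (if q b = k then (1:ℝ) else 0) * 1, Ker.sum _ fun k _ => Ker.one.mul_fun _, ?_⟩
  intro a ha b hb
  beta_reduce
  by_cases h : r a b
  · have hq : q a = q b := Quotient.sound h
    rw [h1 a b h, Finset.sum_eq_single (q a)]
    · rw [if_pos rfl, if_pos hq.symm]
      norm_num
    · intro k _ hk
      rw [if_neg (Ne.symm hk)]
      simp
    · intro h2
      exact absurd (Finset.mem_image_of_mem q ha) h2
  · have hq : q a ≠ q b := fun h2 => h (Quotient.exact h2)
    rw [h0 a b h, Finset.sum_eq_zero]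
    intro k _
    by_cases h3 : q a = k
    · have h5 : q b ≠ k := fun h4 => hq (h3.trans h4.symm)
      rw [if_neg h5]
      simp
    · rw [if_neg h3]
      simp

section cut

variable {G : Type v}

/-- The half-space `h < t` cuts `P`. -/
def Cut (h : G → ℤ) (t : ℤ) (P : Finset G) : Prop := (∃ y ∈ P, h y < t) ∧ ∃ y ∈ P, ¬ h y < t

/-- The number of the half-spaces that cut `P`. -/
noncomputable def NN (h : G → ℤ) (P : Finset G) : ℝ := ({t : ℤ | Cut h t P}.ncard : ℝ)

theorem cut_subset (h : G → ℤ) (P : Finset G) {z : G} (hz : z ∈ P) :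
    {t : ℤ | Cut h t P} ⊆ ((P.biUnion fun y => Finset.Ioc (min (h y) (h z)) (max (h y) (h z)) :
      Finset ℤ) : Set ℤ) := by
  classical
  rintro t ⟨⟨y, hy, hyt⟩, y', hy', hyt'⟩
  rw [Finset.mem_coe, Finset.mem_biUnion]
  by_cases h1 : h z < t
  · refine ⟨y', hy', Finset.mem_Ioc.mpr ⟨min_lt_of_right_lt h1, le_max_of_le_left ?_⟩⟩
    exact not_lt.mp hyt'
  · refine ⟨y, hy, Finset.mem_Ioc.mpr ⟨min_lt_of_left_lt hyt, le_max_of_le_right ?_⟩⟩
    exact not_lt.mp h1

theorem cut_finite (h : G → ℤ) (P : Finset G) : {t : ℤ | Cut h t P}.Finite := by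
  classical
  rcases P.eq_empty_or_nonempty with rfl | ⟨z, hz⟩
  · refine Set.finite_empty.subset ?_
    rintro t ⟨⟨y, hy, -⟩, -⟩
    simp at hy
  · exact (Finset.finite_toSet _).subset (cut_subset h P hz)

theorem NN_le (h : G → ℤ) (P : Finset G) {z : G} (hz : z ∈ P) :
    NN h P ≤ ∑ y ∈ P, |(h y : ℝ) - h z| := by
  classical
  have h1 := Set.ncard_le_ncard (cut_subset h P hz) (Finset.finite_toSet _)
  rw [Set.ncard_coe_finset] at h1
  have h2 := h1.trans Finset.card_biUnion_le
  have h3 : (NN h P : ℝ) ≤ ((∑ y ∈ P, (Finset.Ioc (min (h y) (h z)) (max (h y) (h z))).card : ℕ) : ℝ) := by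
    rw [NN]
    exact_mod_cast h2
  refine h3.trans (le_of_eq ?_)
  push_cast
  refine Finset.sum_congr rfl fun y _ => ?_
  rw [Int.card_Ioc]
  have h4 : ((max (h y) (h z) - min (h y) (h z)).toNat : ℤ) = |h y - h z| := by
    rw [Int.toNat_of_nonneg (by have := @min_le_max _ _ (h y) (h z); omega)]
    exact max_sub_min_eq_abs' _ _
  have h5 : (((max (h y) (h z) - min (h y) (h z)).toNat : ℤ) : ℝ) = ((|h y - h z| : ℤ) : ℝ) := by
    rw [h4]
  rw [Int.cast_natCast] at h5
  rw [h5]
  push_cast
  rfl

theorem NN_ge (h : G → ℤ) (P : Finset G) {y z : G} (hy : y ∈ P) (hz : z ∈ P) :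
    |(h y : ℝ) - h z| ≤ NN h P := by
  classical
  wlog hyz : h z ≤ h y generalizing y z with H
  · rw [abs_sub_comm]
    exact H hz hy (le_of_not_ge hyz)
  have h1 : ((Finset.Ioc (h z) (h y) : Finset ℤ) : Set ℤ) ⊆ {t : ℤ | Cut h t P} := by
    intro t ht
    rw [Finset.mem_coe, Finset.mem_Ioc] at ht
    exact ⟨⟨z, hz, ht.1⟩, y, hy, not_lt.mpr ht.2⟩
  have h2 := Set.ncard_le_ncard h1 (cut_finite h P)
  rw [Set.ncard_coe_finset, Int.card_Ioc] at h2
  have h3 : (((h y - h z).toNat : ℕ) : ℝ) ≤ NN h P := by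
    rw [NN]
    exact_mod_cast h2
  have h4 : (((h y - h z).toNat : ℤ) : ℝ) = ((h y - h z : ℤ) : ℝ) := by
    rw [Int.toNat_of_nonneg (by omega)]
  rw [Int.cast_natCast] at h4
  rw [h4] at h3
  push_cast at h3
  have h5 : (0:ℝ) ≤ (h y : ℝ) - h z := by
    have : (h z : ℝ) ≤ h y := by exact_mod_cast hyz
    linarith
  rwa [abs_of_nonneg h5]

theorem NN_congr (h h' : G → ℤ) (P : Finset G) (hh : ∀ y ∈ P, h y = h' y) : NN h P = NN h' P := by
  have : {t : ℤ | Cut h t P} = {t : ℤ | Cut h' t P} := by
    ext t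
    simp only [Cut, Set.mem_ofPred_eq]
    constructor
    · rintro ⟨⟨y, hy, h1⟩, z, hz, h2⟩
      exact ⟨⟨y, hy, by rwa [← hh y hy]⟩, z, hz, by rwa [← hh z hz]⟩
    · rintro ⟨⟨y, hy, h1⟩, z, hz, h2⟩
      exact ⟨⟨y, hy, by rwa [hh y hy]⟩, z, hz, by rwa [hh z hz]⟩
  rw [NN, NN, this]

/-- The number of cuts of the difference is a kernel of negative type. -/
theorem ker_NN {W : Type u} (P : W → W → Finset G) (p : W → G) (hp : ∀ a, P a a = {p a})
    (hs : ∀ a b, P a b = P b a) (hm : ∀ a b, p b ∈ P a b)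
    (ht : ∀ a b c, ∀ y ∈ P a c, y ∈ P a b ∨ y ∈ P b c) (h : G → ℤ) (w₀ : W) :
    Ker fun a b => NN h (P a w₀) + NN h (P b w₀) - NN h (P a b) := by
  classical
  refine Ker.of_local fun A => ?_
  let A' := insert w₀ A
  let U : Finset ℤ := A'.biUnion fun a => A'.biUnion fun b => (cut_finite h (P a b)).toFinset
  let I : ℤ → W → W → ℝ := fun t a b => if Cut h t (P a b) then 0 else 1
  have hI : ∀ t, Ker (I t) := by
    intro t
    let r : Setoid W :=
      { r := fun a b => ¬ Cut h t (P a b)
        iseqv :=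
          { refl := by
              rintro a ⟨⟨y, hy, h1⟩, z, hz, h2⟩
              rw [hp, Finset.mem_singleton] at hy hz
              rw [hz, ← hy] at h2
              exact h2 h1
            symm := by
              intro a b h1
              rwa [hs b a]
            trans := by
              rintro a b c h1 h2 ⟨⟨y, hy, h3⟩, z, hz, h4⟩
              have hb1 := hm a b
              have hb2 : p b ∈ P b c := by
                rw [hs]
                exact hm c b
              have key : ∀ y, y ∈ P a b ∨ y ∈ P b c → (h y < t ↔ h (p b) < t) := by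
                rintro y (hy | hy)
                · constructor
                  · intro h5
                    by_contra h6
                    exact h1 ⟨⟨y, hy, h5⟩, _, hb1, h6⟩
                  · intro h5
                    by_contra h6
                    exact h1 ⟨⟨_, hb1, h5⟩, y, hy, h6⟩
                · constructor
                  · intro h5
                    by_contra h6
                    exact h2 ⟨⟨y, hy, h5⟩, _, hb2, h6⟩
                  · intro h5
                    by_contra h6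
                    exact h2 ⟨⟨_, hb2, h5⟩, y, hy, h6⟩
              have h5 := (key y (ht a b c y hy)).mp h3
              exact h4 ((key z (ht a b c z hz)).mpr h5) } }
    refine ker_setoid r (I t) ?_ ?_
    · intro a b hab
      exact if_neg hab
    · intro a b hab
      exact if_pos (not_not.mp hab)
  have hN : ∀ a ∈ A', ∀ b ∈ A', NN h (P a b) = ∑ t ∈ U, (1 - I t a b) := by
    intro a ha b hb
    have h1 : {t : ℤ | Cut h t (P a b)} = ((U.filter fun t => Cut h t (P a b) : Finset ℤ) : Set ℤ) := by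
      ext t
      simp only [Finset.coe_filter, Set.mem_ofPred_eq]
      constructor
      · intro h2
        refine ⟨Finset.mem_biUnion.mpr ⟨a, ha, Finset.mem_biUnion.mpr ⟨b, hb, ?_⟩⟩, h2⟩
        rw [Set.Finite.mem_toFinset]
        exact h2
      · exact fun h2 => h2.2
    rw [NN, h1, Set.ncard_coe_finset, Finset.card_filter]
    push_cast
    refine Finset.sum_congr rfl fun t _ => ?_
    simp only [I]
    split_ifs <;> norm_num
  refine ⟨fun a b => ∑ t ∈ U, BK (I t) (single a 1 - single w₀ 1) (single b 1 - single w₀ 1),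
    Ker.sum _ fun t _ => (hI t).pull fun a => single a 1 - single w₀ 1, ?_⟩
  intro a ha b hb
  have ha' : a ∈ A' := Finset.mem_insert_of_mem ha
  have hb' : b ∈ A' := Finset.mem_insert_of_mem hb
  have hw : w₀ ∈ A' := Finset.mem_insert_self _ _
  rw [hN a ha' w₀ hw, hN b hb' w₀ hw, hN a ha' b hb', ← Finset.sum_add_distrib,
    ← Finset.sum_sub_distrib]
  refine Finset.sum_congr rfl fun t _ => ?_
  have h1 : I t w₀ w₀ = 1 := by
    refine if_neg ?_
    rintro ⟨⟨y, hy, h1⟩, z, hz, h2⟩
    rw [hp, Finset.mem_singleton] at hy hz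
    rw [hz, ← hy] at h2
    exact h2 h1
  simp only [map_sub, LinearMap.sub_apply, BK_single, h1, (hI t).symm w₀ b]
  ring

end cut

end Pool.Agent.H829.CE
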