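import Pool.Agent.H829.CE.Khi
import Pool.Agent.H829.CE.Cut

/-!
# Wreath products over the regular action
-/

set_option autoImplicit false

namespace Pool.Agent.H829.CE

open Pool.Agent.H818.CS Finsupp
open Pool.Agent.N506.EX (CoarselyEmbeds)

universe u v w

/-- Finitely supported coordinates. -/
theorem coords {G : Type u} {H : Type v} [NormedAddCommGroup H] [InnerProductSpace ℝ H]
    [CompleteSpace H] (f : G → H) :
    ∃ (ι : Type v) (s : G → Finset ι) (c : G → ι → ℝ), (∀ g i, i ∉ s g → c g i = 0) ∧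
      ∀ (g g' : G) (T : Finset ι), s g ⊆ T → s g' ⊆ T → ∃ r : ℝ, 0 ≤ r ∧
        r ^ 2 = ∑ i ∈ T, (c g i - c g' i) ^ 2 ∧ ‖f g - f g'‖ ≤ r + 2 ∧ r ≤ ‖f g - f g'‖ + 2 := by
  classical
  obtain ⟨w, b, -⟩ := exists_hilbertBasis ℝ H
  have h1 : ∀ g, ∃ s : Finset w, ‖(∑ i ∈ s, b.repr (f g) i • b i) - f g‖ < 1 := by
    intro g
    have h2 := (b.hasSum_repr (f g))
    have h3 : ∀ᶠ s : Finset w in Filter.atTop,
        dist (∑ i ∈ s, b.repr (f g) i • b i) (f g) < 1 :=
      h2.eventually (Metric.ball_mem_nhds (f g) one_pos)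
    obtain ⟨s, hs⟩ := Filter.eventually_atTop.mp h3
    refine ⟨s, ?_⟩
    have h4 := hs s le_rfl
    rwa [dist_eq_norm] at h4
  choose s hs using h1
  let c : G → w → ℝ := fun g i => if i ∈ s g then b.repr (f g) i else 0
  have hc : ∀ g i, i ∉ s g → c g i = 0 := fun g i hi => if_neg hi
  refine ⟨w, s, c, hc, fun g g' T hT hT' => ?_⟩
  have e : ∀ g (T : Finset w), s g ⊆ T → ∑ i ∈ T, c g i • b i = ∑ i ∈ s g, b.repr (f g) i • b i := by
    intro g T hT
    rw [← Finset.sum_subset hT (f := fun i => c g i • b i)]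
    · exact Finset.sum_congr rfl fun i hi => by simp only [c, if_pos hi]
    · intro i _ hi
      beta_reduce
      rw [hc g i hi, zero_smul]
  have e2 : ‖∑ i ∈ T, (c g i - c g' i) • b i‖ ^ 2 = ∑ i ∈ T, (c g i - c g' i) ^ 2 := by
    rw [← real_inner_self_eq_norm_sq, b.orthonormal.inner_sum]
    refine Finset.sum_congr rfl fun i _ => ?_
    rw [conj_trivial, sq]
  have e3 : ∑ i ∈ T, (c g i - c g' i) • b i =
      (∑ i ∈ s g, b.repr (f g) i • b i) - ∑ i ∈ s g', b.repr (f g') i • b i := by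
    rw [← e g T hT, ← e g' T hT', ← Finset.sum_sub_distrib]
    exact Finset.sum_congr rfl fun i _ => sub_smul _ _ _
  refine ⟨‖∑ i ∈ T, (c g i - c g' i) • b i‖, norm_nonneg _, e2, ?_, ?_⟩
  · rw [e3]
    have h4 := hs g
    have h5 := hs g'
    set A := ∑ i ∈ s g, b.repr (f g) i • b i
    set B := ∑ i ∈ s g', b.repr (f g') i • b i
    have h6 : f g - f g' = (A - B) - (A - f g) + (B - f g') := by abel
    have h7 : ‖f g - f g'‖ ≤ ‖A - B‖ + ‖A - f g‖ + ‖B - f g'‖ := by
      rw [h6]
      exact (norm_add_le _ _).trans (add_le_add (norm_sub_le _ _) le_rfl)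
    linarith
  · rw [e3]
    have h4 := hs g
    have h5 := hs g'
    set A := ∑ i ∈ s g, b.repr (f g) i • b i
    set B := ∑ i ∈ s g', b.repr (f g') i • b i
    have h6 : A - B = (f g - f g') + (A - f g) - (B - f g') := by abel
    have h7 : ‖A - B‖ ≤ ‖f g - f g'‖ + ‖A - f g‖ + ‖B - f g'‖ := by
      rw [h6]
      exact (norm_sub_le _ _).trans (add_le_add (norm_add_le _ _) le_rfl)
    linarith

/-- **Lamplighter groups.** -/
theorem ce_lamplighter {G : Type u} [Group G] (hG : CoarselyEmbeds G) (L : Type v) [Group L]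
    [Finite L] : CoarselyEmbeds (Wreath L G G) := by
  classical
  obtain ⟨H₀, _, _, _, f, hf1, hf2⟩ := hG
  obtain ⟨ι, s, u, hu, hT⟩ := coords f
  -- the functions
  let h : Finset ι → G → ℤ := fun c g => ⌊sg (s g) (u g) c⌋
  have hsg : ∀ g (T : Finset ι) c, s g ⊆ T → sg (s g) (u g) c = sg T (u g) c := by
    intro g T c hgT
    rw [sg, sg]
    refine Finset.sum_subset hgT fun i _ hi => ?_
    rw [hu g i hi]
    simp
  have hins : ∀ g t c, t ∉ s g → h (insert t c) g = h c g := by
    intro g t c ht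
    simp only [h]
    congr 1
    rw [sg, sg]
    refine Finset.sum_congr rfl fun i hi => ?_
    have h1 : i ≠ t := fun h => ht (h ▸ hi)
    simp only [Finset.mem_insert, h1, false_or]
  have hdiff : ∀ g g' (T : Finset ι) c, s g ⊆ T → s g' ⊆ T →
      |(h c g : ℝ) - h c g'| ≤ |sg T (fun i => u g i - u g' i) c| + 1 ∧
      |sg T (fun i => u g i - u g' i) c| ≤ |(h c g : ℝ) - h c g'| + 1 := by
    intro g g' T c h1 h2
    have e : sg T (fun i => u g i - u g' i) c = sg (s g) (u g) c - sg (s g') (u g') c := by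
      rw [hsg g T c h1, hsg g' T c h2, sg, sg, sg, ← Finset.sum_sub_distrib]
      refine Finset.sum_congr rfl fun i _ => ?_
      split_ifs
      · ring
      · ring
    rw [e]
    simp only [h]
    have i1 := Int.floor_le (sg (s g) (u g) c)
    have i2 := Int.lt_floor_add_one (sg (s g) (u g) c)
    have i3 := Int.floor_le (sg (s g') (u g') c)
    have i4 := Int.lt_floor_add_one (sg (s g') (u g') c)
    constructor
    · rw [abs_le]
      have := neg_abs_le (sg (s g) (u g) c - sg (s g') (u g') c)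
      have := le_abs_self (sg (s g) (u g) c - sg (s g') (u g') c)
      constructor <;> linarith
    · rw [abs_le]
      have := neg_abs_le ((⌊sg (s g) (u g) c⌋ : ℝ) - ⌊sg (s g') (u g') c⌋)
      have := le_abs_self ((⌊sg (s g) (u g) c⌋ : ℝ) - ⌊sg (s g') (u g') c⌋)
      constructor <;> linarith
  -- the finite sets
  have hPf : ∀ a b : Wreath L G G, {y | a.fn y ≠ b.fn y}.Finite := by
    intro a b
    refine (a.fin.union b.fin).subset ?_
    intro y hy
    by_contra hcon
    simp only [Set.mem_union, Set.mem_ofPred_eq, not_or, not_not] at hcon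
    exact hy (by rw [hcon.1, hcon.2])
  let P : Wreath L G G → Wreath L G G → Finset G := fun a b =>
    (hPf a b).toFinset ∪ {a.pt, b.pt}
  have hP : ∀ a b y, y ∈ P a b ↔ a.fn y ≠ b.fn y ∨ y = a.pt ∨ y = b.pt := by
    intro a b y
    simp only [P, Finset.mem_union, Set.Finite.mem_toFinset, Set.mem_ofPred_eq,
      Finset.mem_insert, Finset.mem_singleton]
  have hPaa : ∀ a, P a a = {a.pt} := by
    intro a
    ext y
    rw [hP, Finset.mem_singleton]
    simp
  have hPs : ∀ a b, P a b = P b a := by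
    intro a b
    ext y
    rw [hP, hP]
    tauto
  have hPm : ∀ a b, b.pt ∈ P a b := fun a b => (hP _ _ _).mpr (Or.inr (Or.inr rfl))
  have hPt : ∀ a b c, ∀ y ∈ P a c, y ∈ P a b ∨ y ∈ P b c := by
    intro a b c y hy
    rw [hP] at hy
    rw [hP, hP]
    by_cases h1 : a.fn y = b.fn y
    · rw [h1] at hy
      tauto
    · exact Or.inl (Or.inl h1)
  let TT : Wreath L G G → Finset ι := fun a => (P a 1).biUnion s
  have hTT : ∀ a b y, y ∈ P a b → s y ⊆ TT a ∪ TT b := by
    intro a b y hy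
    rcases hPt a 1 b y hy with h1 | h1
    · exact (Finset.subset_biUnion_of_mem s h1).trans Finset.subset_union_left
    · rw [hPs] at h1
      exact (Finset.subset_biUnion_of_mem s h1).trans Finset.subset_union_right
  let Q : Wreath L G G → Wreath L G G → Finset ι → ℝ := fun a b c =>
    NN (h c) (P a 1) + NN (h c) (P b 1) - NN (h c) (P a b)
  let K : Wreath L G G → Wreath L G G → ℝ := fun a b => avg (TT a ∪ TT b) (Q a b)
  have hNN : ∀ a b t c, t ∉ TT a ∪ TT b → NN (h (insert t c)) (P a b) = NN (h c) (P a b) := by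
    intro a b t c ht
    refine NN_congr _ _ _ fun y hy => hins y t c fun h1 => ht (hTT a b y hy h1)
  have hTT1 : TT 1 ⊆ TT 1 := subset_rfl
  have hNN1 : ∀ a t c, t ∉ TT a → NN (h (insert t c)) (P a 1) = NN (h c) (P a 1) := by
    intro a t c ht
    refine NN_congr _ _ _ fun y hy => hins y t c fun h1 => ht ?_
    exact Finset.subset_biUnion_of_mem s hy h1
  have hKT : ∀ a b (T : Finset ι), TT a ⊆ T → TT b ⊆ T → K a b = avg T (Q a b) := by
    intro a b T h1 h2
    have h3 : T = (TT a ∪ TT b) ∪ T := (Finset.union_eq_right.mpr (Finset.union_subset h1 h2)).symm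
    rw [h3, avg_mono]
    intro t ht c
    simp only [Q]
    rw [hNN a b t c ht, hNN1 a t c fun h4 => ht (Finset.mem_union_left _ h4),
      hNN1 b t c fun h4 => ht (Finset.mem_union_right _ h4)]
  have hK : Ker K := by
    refine Ker.of_local fun S => ?_
    refine ⟨fun a b => avg (S.biUnion TT) (Q a b), ?_, ?_⟩
    · have h1 : Ker fun a b => ∑ c ∈ (S.biUnion TT).powerset, Q a b c :=
        Ker.sum _ fun c _ => ker_NN P (fun a => a.pt) hPaa hPs hPm hPt (h c) 1
      exact h1.smul (by positivity)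
    · intro a ha b hb
      exact hKT a b _ (Finset.subset_biUnion_of_mem TT ha) (Finset.subset_biUnion_of_mem TT hb)
  obtain ⟨H, i1, i2, i3, ξ, hξ⟩ := hK.kolmogorov
  have hN0 : ∀ c a, NN (h c) (P a a) = 0 := by
    intro c a
    refine le_antisymm ?_ (Nat.cast_nonneg _)
    have h1 := NN_le (h c) (P a a) (z := a.pt) (by rw [hPaa]; exact Finset.mem_singleton_self _)
    rw [hPaa, Finset.sum_singleton, sub_self, abs_zero] at h1
    rw [hPaa]
    exact h1
  have hdist : ∀ a b, ‖ξ b - ξ a‖ ^ 2 = 2 * avg (TT a ∪ TT b) (fun c => NN (h c) (P a b)) := by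
    intro a b
    rw [norm_sub_sq_real, ← real_inner_self_eq_norm_sq, ← real_inner_self_eq_norm_sq, hξ, hξ, hξ,
      hKT a a (TT a ∪ TT b) Finset.subset_union_left Finset.subset_union_left,
      hKT b b (TT a ∪ TT b) Finset.subset_union_right Finset.subset_union_right,
      hKT b a (TT a ∪ TT b) Finset.subset_union_right Finset.subset_union_left]
    simp only [avg]
    rw [← mul_assoc, mul_comm (2:ℝ) ((1 / 2) ^ _), mul_assoc, Finset.mul_sum (a := (2:ℝ)),
      mul_comm (2:ℝ) ((1 / 2) ^ _ * _), mul_assoc, Finset.sum_mul, ← mul_sub, ← mul_add,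
      ← Finset.sum_sub_distrib, ← Finset.sum_add_distrib]
    congr 1
    refine Finset.sum_congr rfl fun c _ => ?_
    simp only [Q]
    rw [hN0, hN0, hPs b a]
    ring
  refine ⟨H, i1, i2, i3, ξ, fun t => ?_, fun R => ?_⟩
  · -- control
    choose D hD using hf1
    let Z : Finset G := t.fin.toFinset ∪ {1, t.pt}
    refine ⟨Real.sqrt (2 * ∑ z ∈ Z, ((|D z| + 2) ^ 2 + 2)), fun a => ?_⟩
    apply Real.le_sqrt_of_sq_le
    rw [hdist]
    refine mul_le_mul_of_nonneg_left ?_ (by norm_num)
    set T := TT a ∪ TT (a * t) with hTdef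
    have hap : a.pt ∈ P a (a * t) := (hP _ _ _).mpr (Or.inr (Or.inl rfl))
    have h1 : avg T (fun c => NN (h c) (P a (a * t))) ≤
        avg T (fun c => ∑ y ∈ P a (a * t), |(h c y : ℝ) - h c a.pt|) :=
      avg_mono_le fun c => NN_le (h c) _ hap
    refine h1.trans ?_
    have hPZ : P a (a * t) ⊆ Z.image fun z => a.pt * z := by
      intro y hy
      rw [hP] at hy
      refine Finset.mem_image.mpr ⟨a.pt⁻¹ * y, ?_, mul_inv_cancel_left _ _⟩
      simp only [Z, Finset.mem_union, Set.Finite.mem_toFinset, Set.mem_ofPred_eq,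
        Finset.mem_insert, Finset.mem_singleton]
      rcases hy with hy | hy | hy
      · left
        intro h2
        apply hy
        rw [Wreath.mul_fn, smul_eq_mul, h2, mul_one]
      · right; left
        rw [hy, inv_mul_cancel]
      · right; right
        rw [hy, Wreath.mul_pt, inv_mul_cancel_left]
    have h2 : ∀ z, a.pt * z ∈ P a (a * t) → avg T (fun c => |(h c (a.pt * z) : ℝ) - h c a.pt|) ≤
        (|D z| + 2) ^ 2 + 2 := by
      intro z hz
      obtain ⟨r, hr0, hr1, -, hr2⟩ := hT (a.pt * z) a.pt T (hTT _ _ _ hz) (hTT _ _ _ hap)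
      have h3 : avg T (fun c => |(h c (a.pt * z) : ℝ) - h c a.pt|) ≤
          avg T (fun c => |sg T (fun i => u (a.pt * z) i - u a.pt i) c| + 1) :=
        avg_mono_le fun c => (hdiff _ _ T c (hTT _ _ _ hz) (hTT _ _ _ hap)).1
      have h4 := avg_abs_le T (fun i => u (a.pt * z) i - u a.pt i)
      rw [avg_add, avg_const] at h3
      rw [← hr1] at h4
      have h5 : r ≤ |D z| + 2 := hr2.trans (by
        have := (hD z a.pt).trans (le_abs_self _)
        linarith)
      have h6 : r ^ 2 ≤ (|D z| + 2) ^ 2 := pow_le_pow_left₀ hr0 h5 2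
      linarith
    have h3 : avg T (fun c => ∑ y ∈ P a (a * t), |(h c y : ℝ) - h c a.pt|) =
        ∑ y ∈ P a (a * t), avg T (fun c => |(h c y : ℝ) - h c a.pt|) := by
      simp only [avg]
      rw [Finset.sum_comm, Finset.mul_sum]
    rw [h3]
    have h4 : ∀ y ∈ P a (a * t), avg T (fun c => |(h c y : ℝ) - h c a.pt|) ≤
        (|D (a.pt⁻¹ * y)| + 2) ^ 2 + 2 := by
      intro y hy
      have h5 := h2 (a.pt⁻¹ * y) (by rwa [mul_inv_cancel_left])
      rwa [mul_inv_cancel_left] at h5
    refine (Finset.sum_le_sum h4).trans ?_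
    refine (Finset.sum_le_sum_of_subset_of_nonneg hPZ fun _ _ _ => by positivity).trans ?_
    rw [Finset.sum_image (fun x _ y _ hxy => mul_left_cancel hxy)]
    refine le_of_eq (Finset.sum_congr rfl fun z _ => ?_)
    rw [inv_mul_cancel_left]
  · -- properness
    have hF : {z : G | ∃ g, ‖f (g * z) - f g‖ ≤ 9 / 5 * (R ^ 2 / 2 + 1) + 2}.Finite := hf2 _
    refine (wr_finite (P := {z : G | ∃ g, ‖f (g * z) - f g‖ ≤ 9 / 5 * (R ^ 2 / 2 + 1) + 2}) hF
      hF.toFinset (Set.toFinite (Set.univ : Set L))).subset ?_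
    rintro t ⟨a, ha⟩
    have hR : 0 ≤ R := (norm_nonneg _).trans ha
    set T := TT a ∪ TT (a * t) with hTdef
    have hap : a.pt ∈ P a (a * t) := (hP _ _ _).mpr (Or.inr (Or.inl rfl))
    have h1 : 2 * avg T (fun c => NN (h c) (P a (a * t))) ≤ R ^ 2 := by
      rw [← hdist]
      exact pow_le_pow_left₀ (norm_nonneg _) ha 2
    have key : ∀ z, a.pt * z ∈ P a (a * t) →
        ∃ g, ‖f (g * z) - f g‖ ≤ 9 / 5 * (R ^ 2 / 2 + 1) + 2 := by
      intro z hz
      refine ⟨a.pt, ?_⟩
      obtain ⟨r, hr0, hr1, hr2, -⟩ := hT (a.pt * z) a.pt T (hTT _ _ _ hz) (hTT _ _ _ hap)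
      have h2 : avg T (fun c => |sg T (fun i => u (a.pt * z) i - u a.pt i) c|) ≤
          avg T (fun c => NN (h c) (P a (a * t)) + 1) := by
        refine avg_mono_le fun c => ?_
        refine (hdiff _ _ T c (hTT _ _ _ hz) (hTT _ _ _ hap)).2.trans ?_
        exact add_le_add (NN_ge (h c) _ hz hap) le_rfl
      rw [avg_add, avg_const] at h2
      have h3 := le_avg_abs T (fun i => u (a.pt * z) i - u a.pt i) hr0 hr1
      linarith
    refine ⟨?_, fun z hz => ?_, fun _ _ => Set.mem_univ _⟩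
    · refine key t.pt ((hP _ _ _).mpr (Or.inr (Or.inr ?_)))
      rw [Wreath.mul_pt]
    · by_contra hcon
      apply hz
      rw [Set.Finite.mem_toFinset]
      refine key z ((hP _ _ _).mpr (Or.inl ?_))
      rw [Wreath.mul_fn, smul_eq_mul, inv_mul_cancel_left]
      intro h2
      exact hcon (mul_eq_left.mp h2.symm)

end Pool.Agent.H829.CE
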