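import Pool.Agent.H829.CE.Halo
import Pool.Agent.H829.CE.Reg

/-!
# The main theorem on local kernels
-/

set_option autoImplicit false

namespace Pool.Agent.H829.CE

open Pool.Agent.H829.EG Pool.Agent.H818.CS Finsupp
open Pool.Agent.N506.EX (CoarselyEmbeds)

universe u v w z t

theorem tfae_local (G X : Type u) [Group G] [MulAction G X] : List.TFAE [
    ∃ (L : Type u) (_ : Group L), Nontrivial L ∧ CoarselyEmbeds (Wreath L G X),
    ∀ (L : Type u) [Group L], CoarselyEmbeds L → CoarselyEmbeds (Wreath L G X),
    ∀ (Γ : Type u) [Group Γ] (π : Γ →* G), LocalKernel X π → CoarselyEmbeds Γ] := by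
  tfae_have 1 → 2 := by
    rintro ⟨L₀, _, hn, h₀⟩ L _ hL
    exact wreath_of_wreath h₀ hL
  tfae_have 2 → 1 := by
    intro h
    refine ⟨ULift.{u} (Multiplicative (ZMod 2)), inferInstance, inferInstance, h _ ?_⟩
    exact ce_of_subsingleton
  tfae_have 1 → 3 := by
    rintro ⟨L₀, _, hn, h₀⟩ Γ _ π hπ
    exact ce_of_localKernel π hπ h₀
  tfae_have 3 → 1 := by
    intro h
    refine ⟨ULift.{u} (Multiplicative (ZMod 2)), inferInstance, inferInstance, h _ _
      (localKernel_wreath _ G X)⟩
  tfae_finish

/-- The regular action. -/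
theorem regular (G : Type u) [Group G] (hG : CoarselyEmbeds G) :
    CoarselyEmbeds (Wreath (ULift.{u} (Multiplicative (ZMod 2))) G G) :=
  ce_lamplighter hG _

/-- The wreath product with the group of two elements. -/
theorem regular_local {G Γ : Type u} [Group G] [Group Γ] (hG : CoarselyEmbeds G) (π : Γ →* G)
    (h : LocalKernel G π) : CoarselyEmbeds Γ :=
  ce_of_localKernel π h (regular G hG)

theorem halo_ce {N G X : Type u} [Group N] [Group G] [MulAction G X] (h : Halo N X)
    (φ : G →* MulAut N) (hφ : h.Invariant G φ) (hfin : ∀ E : Finset X, (h.L E : Set N).Finite)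
    {L : Type u} [Group L] [Nontrivial L] (h₀ : CoarselyEmbeds (Wreath L G X)) :
    CoarselyEmbeds (N ⋊[φ] G) :=
  ce_of_localKernel _ (localKernel_halo h φ hφ hfin) h₀

theorem halo_ce_regular {N G : Type u} [Group N] [Group G] (h : Halo N G)
    (φ : G →* MulAut N) (hφ : h.Invariant G φ) (hfin : ∀ E : Finset G, (h.L E : Set N).Finite) :
    CoarselyEmbeds (N ⋊[φ] G) ↔ CoarselyEmbeds G := by
  refine ⟨fun h1 => CoarselyEmbeds.of_injective h1 SemidirectProduct.inr
    SemidirectProduct.inr_injective, fun hG => halo_ce h φ hφ hfin (regular G hG)⟩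

theorem fs_ce_of {G X : Type u} [Group G] [MulAction G X] {L : Type u} [Group L] [Nontrivial L]
    (h₀ : CoarselyEmbeds (Wreath L G X)) : CoarselyEmbeds (FinitaryExt G X) :=
  ce_of_localKernel _ (localKernel_fs G X) h₀

theorem fs_ce_regular (G : Type u) [Group G] :
    CoarselyEmbeds (FinitaryExt G G) ↔ CoarselyEmbeds G := by
  constructor
  · intro h
    let i : G →* FinitaryExt G G :=
      { toFun := fun g => ⟨(MulAction.toPerm g, g), by
          show {x : G | MulAction.toPerm g x ≠ g • x}.Finite
          simp⟩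
        map_one' := by
          apply Subtype.ext
          refine Prod.ext (Equiv.ext fun x => one_smul G x) rfl
        map_mul' := fun a b => by
          apply Subtype.ext
          refine Prod.ext (Equiv.ext fun x => mul_smul a b x) rfl }
    refine CoarselyEmbeds.of_injective h i ?_
    intro a b hab
    exact congrArg (fun z : FinitaryExt G G => (z : Equiv.Perm G × G).2) hab
  · intro hG
    exact fs_ce_of (regular G hG)

theorem wreath_ce_regular (L G : Type u) [Group L] [Group G] :
    CoarselyEmbeds (Wreath L G G) ↔ CoarselyEmbeds L ∧ CoarselyEmbeds G :=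
  ⟨fun h => ⟨ce_left h, ce_right h⟩, fun ⟨hL, hG⟩ => wreath_of_wreath (regular G hG) hL⟩

end Pool.Agent.H829.CE
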