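import Pool.Agent.H829.CE.Cox
import Pool.Agent.H829.CE.Halo
import Pool.Agent.H829.CE.Tfae

/-!
# Semidirect products of Coxeter groups of infinite rank
-/

set_option autoImplicit false

namespace Pool.Agent.H829.CE

open Pool.Agent.Helper741 Pool.Agent.Helper741.TExt
open Pool.Agent.H818.CS
open Pool.Agent.N506.EX (CoarselyEmbeds)

universe u v w z

/-- Indicator functions of finite sets. -/
theorem exists_of_finsets {Γ : Type u} {T : Type v} [DecidableEq T] (S : Γ → Finset T) :
    ∃ (H : Type u) (_ : NormedAddCommGroup H) (_ : InnerProductSpace ℝ H) (_ : CompleteSpace H)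
      (ξ : Γ → H), ∀ a b, ‖ξ b - ξ a‖ ^ 2 = ((symmDiff (S a) (S b)).card : ℝ) := by
  have hK : Ker fun a b : Γ => ((S a ∩ S b).card : ℝ) := by
    refine Ker.of_local fun A => ?_
    refine ⟨fun a b => ∑ t ∈ A.biUnion S, (if t ∈ S a then (1:ℝ) else 0) *
      (if t ∈ S b then (1:ℝ) else 0) * 1, Ker.sum _ fun t _ => Ker.one.mul_fun _, ?_⟩
    intro a ha b hb
    have h1 : S a ∩ S b ⊆ A.biUnion S :=
      Finset.inter_subset_left.trans (Finset.subset_biUnion_of_mem S ha)
    beta_reduce
    rw [Finset.card_eq_sum_ones, Nat.cast_sum, ← Finset.sum_subset h1]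
    · refine Finset.sum_congr rfl fun t ht => ?_
      obtain ⟨h2, h3⟩ := Finset.mem_inter.mp ht
      rw [if_pos h2, if_pos h3]
      norm_num
    · intro t _ ht
      by_cases h2 : t ∈ S a
      · have h3 : t ∉ S b := fun h3 => ht (Finset.mem_inter.mpr ⟨h2, h3⟩)
        rw [if_neg h3]
        simp
      · rw [if_neg h2]
        simp
  obtain ⟨H, i1, i2, i3, ξ, hξ⟩ := hK.kolmogorov
  refine ⟨H, i1, i2, i3, ξ, fun a b => ?_⟩
  rw [norm_sub_sq_real, ← real_inner_self_eq_norm_sq, ← real_inner_self_eq_norm_sq, hξ, hξ, hξ,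
    Finset.inter_self, Finset.inter_self, Finset.inter_comm (S b) (S a)]
  have e1 : (symmDiff (S a) (S b)).card = (S a \ S b).card + (S b \ S a).card := by
    rw [symmDiff_def, Finset.sup_eq_union, Finset.card_union_of_disjoint]
    exact disjoint_sdiff_sdiff
  have e2 := Finset.card_sdiff_add_card_inter (S a) (S b)
  have e3 := Finset.card_sdiff_add_card_inter (S b) (S a)
  rw [Finset.inter_comm] at e3
  rw [e1, ← e2, ← e3]
  push_cast
  ring

namespace Cox

variable {B : Type*} {M : CoxeterMatrix B} {W : Type*} [Group W] (cs : CoxeterSystem M W)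

omit [Group W] in
theorem symmDiff_support [DecidableEq W] (f g : W →₀ ZMod 2) :
    symmDiff f.support g.support = (g - f).support := by
  ext t
  have key : ∀ a b : ZMod 2, (a ≠ 0 ∧ ¬ b ≠ 0 ∨ b ≠ 0 ∧ ¬ a ≠ 0) ↔ b - a ≠ 0 := by decide
  rw [Finset.mem_symmDiff, Finsupp.mem_support_iff, Finsupp.mem_support_iff,
    Finsupp.mem_support_iff, Finsupp.sub_apply]
  exact key _ _

theorem card_act [DecidableEq W] (w : W) (f : W →₀ ZMod 2) :
    (act w f).support.card = f.support.card := by
  have h : (act w f).support = f.support.image fun r => w * r * w⁻¹ := by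
    ext r
    rw [Finsupp.mem_support_iff, act_apply, Finset.mem_image]
    constructor
    · intro h1
      exact ⟨_, Finsupp.mem_support_iff.mpr h1, by group⟩
    · rintro ⟨r', h1, rfl⟩
      have h2 : w⁻¹ * (w * r' * w⁻¹) * w = r' := by group
      rw [h2]
      exact Finsupp.mem_support_iff.mp h1
  rw [h, Finset.card_image_of_injective]
  intro a b hab
  exact mul_left_cancel (mul_right_cancel hab)

theorem map_wordProd {W' : Type*} [Group W'] (ψ : W →* W) (e : B → B)
    (h : ∀ x, ψ (cs.simple x) = cs.simple (e x)) (ω : List B) :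
    ψ (cs.wordProd ω) = cs.wordProd (ω.map e) := by
  induction ω with
  | nil => simp
  | cons i ω ih => rw [cs.wordProd_cons, map_mul, h, ih, List.map_cons, cs.wordProd_cons]

theorem length_map_le (ψ : W →* W) (e : B → B)
    (h : ∀ x, ψ (cs.simple x) = cs.simple (e x)) (w : W) : cs.length (ψ w) ≤ cs.length w := by
  obtain ⟨ω, h1, rfl⟩ := cs.exists_isReduced w
  have h2 : cs.length (cs.wordProd ω) = ω.length := h1
  rw [map_wordProd (W' := W) cs ψ e h, h2]
  refine (cs.length_wordProd_le _).trans (le_of_eq ?_)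
  rw [List.length_map]

end Cox

section

variable {G X W : Type u} [Group G] [MulAction G X] {M : CoxeterMatrix X} [Group W]
  (cs : CoxeterSystem M W) (φ : G →* MulAut W)
  (hφ : ∀ (g : G) (x : X), φ g (cs.simple x) = cs.simple (g • x))

include hφ

theorem cox_length (g : G) (w : W) : cs.length (φ g w) = cs.length w := by
  have h1 : ∀ (g : G) (w : W), cs.length (φ g w) ≤ cs.length w := fun g w =>
    Cox.length_map_le cs (φ g).toMonoidHom (fun x => g • x) (fun x => hφ g x) w
  refine le_antisymm (h1 g w) ?_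
  have h2 := h1 g⁻¹ (φ g w)
  rwa [map_inv, MulAut.inv_apply_self] at h2

theorem cox_invariant : (Cox.halo cs).Invariant G φ := by
  have h1 : ∀ (g : G) (S : Set X) (n : W), n ∈ Cox.par cs S →
      φ g n ∈ Cox.par cs ((fun x => g • x) '' S) := by
    intro g S n hn
    induction hn using Subgroup.closure_induction with
    | mem x hx =>
      obtain ⟨y, hy, rfl⟩ := hx
      rw [hφ]
      exact Subgroup.subset_closure ⟨_, ⟨y, hy, rfl⟩, rfl⟩
    | one => rw [map_one]; exact Subgroup.one_mem _
    | mul x y _ _ hx hy => rw [map_mul]; exact Subgroup.mul_mem _ hx hy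
    | inv x _ hx => rw [map_inv]; exact Subgroup.inv_mem _ hx
  intro g S n
  refine ⟨h1 g S n, fun h => ?_⟩
  have h2 := h1 g⁻¹ _ _ h
  rw [map_inv, MulAut.inv_apply_self, Set.image_image] at h2
  show n ∈ Cox.par cs S
  simpa only [inv_smul_smul, Set.image_id'] using h2

theorem localKernel_cox : LocalKernel X (SemidirectProduct.rightHom : W ⋊[φ] G →* G) := by
  classical
  obtain ⟨H, _, _, _, b, hb⟩ := exists_of_finsets fun γ : W ⋊[φ] G =>
    (invc cs γ.left).v.support
  have key : ∀ γ s : W ⋊[φ] G, ‖b (γ * s) - b γ‖ ^ 2 = cs.length s.left := by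
    intro γ s
    rw [hb, Cox.symmDiff_support, SemidirectProduct.mul_left, map_mul, mul_v, invc_w,
      add_sub_cancel_left, Cox.card_act, Cox.card_support, cox_length cs φ hφ]
  refine localKernel_halo_map (Cox.halo cs) φ (cox_invariant cs φ hφ) b (fun s => ?_)
    fun E C => ?_
  · refine ⟨Real.sqrt (cs.length s.left), fun γ => ?_⟩
    apply Real.le_sqrt_of_sq_le
    rw [key]
  · refine Set.Finite.subset ((List.finite_length_le E ⌊C ^ 2⌋₊).image
      fun l : List E => cs.wordProd (l.map Subtype.val)) ?_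
    rintro n ⟨h1, γ, h2⟩
    have h3 : (cs.length n : ℝ) ≤ C ^ 2 := by
      have h4 := pow_le_pow_left₀ (norm_nonneg _) h2 2
      rwa [key, SemidirectProduct.left_inl] at h4
    obtain ⟨ω, h4, h5, rfl⟩ := Cox.exists_reduced cs h1
    have h5' : cs.length (cs.wordProd ω) = ω.length := h5
    refine ⟨ω.attachWith (fun i => i ∈ E) h4, ?_, ?_⟩
    · show (ω.attachWith _ h4).length ≤ _
      rw [List.length_attachWith, ← h5']
      exact Nat.le_floor h3
    · beta_reduce
      congr 1
      simp

/-- **Coxeter groups of infinite rank.** -/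
theorem cox_ce {L : Type u} [Group L] [Nontrivial L] (h₀ : CoarselyEmbeds (Wreath L G X)) :
    CoarselyEmbeds (W ⋊[φ] G) :=
  ce_of_localKernel _ (localKernel_cox cs φ hφ) h₀

end

theorem cox_ce_regular {G W : Type u} [Group G] {M : CoxeterMatrix G} [Group W]
    (cs : CoxeterSystem M W) (φ : G →* MulAut W)
    (hφ : ∀ g x : G, φ g (cs.simple x) = cs.simple (g * x)) :
    CoarselyEmbeds (W ⋊[φ] G) ↔ CoarselyEmbeds G :=
  ⟨fun h => CoarselyEmbeds.of_injective h SemidirectProduct.inr SemidirectProduct.inr_injective,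
    fun hG => cox_ce cs φ hφ (regular G hG)⟩

end Pool.Agent.H829.CE
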