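import Pool.Agent.H818.CS.CE
import Pool.Agent.H829.EG.Coc

/-!
# Coarse embeddings through cofinite subgroupoids
-/

set_option autoImplicit false

namespace Pool.Agent.H829.CE

open Pool.Agent.H829.EG Pool.Agent.H818.CS Pool.Agent.N313.EX Finsupp
open Pool.Agent.N506.EX (CoarselyEmbeds IsExact)

universe u v w

/-- The fibering theorem for actions of countable groups. -/
theorem ce_fibration {G : Type u} [Group G] [Countable G] {Z : Type w} [MulAction G Z]
    (good : Z → Prop) (hK : ∀ z, good z → CoarselyEmbeds (MulAction.stabilizer G z))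
    (h : ∀ (F : Finset G) (ε : ℝ), 0 < ε → ∃ (T : Finset Z) (ν : G → Z →₀ ℝ),
      (∀ z ∈ T, good z) ∧ (∀ g, IsProb (ν g)) ∧ (∀ g, ∀ z ∈ (ν g).support, g⁻¹ • z ∈ T) ∧
      ∀ g, ∀ f ∈ F, n1 (ν g - ν (g * f)) ≤ ε) : CoarselyEmbeds G := by
  refine coarselyEmbeds_of_coarse (ρ := Unit) (fun _ => Set.univ) good hK ?_ ?_
  · intro F ε hε
    refine ⟨(), PUnit.{w + 1}, fun _ => Finsupp.single PUnit.unit 1, fun g => IsProb.single _, ?_,
      fun _ _ _ _ _ => trivial⟩
    intro g f _
    rw [sub_self, n1_zero]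
    exact hε.le
  · intro r F ε hε
    obtain ⟨T, ν, h1, h2, h3, h4⟩ := h F ε hε
    exact ⟨T, ν, h1, fun g _ => h2 g, fun g _ => h3 g, fun g _ f hf _ => h4 g f hf⟩

/-- **Coarse embeddings through a cofinite subgroupoid.** -/
theorem ce_of_offSubgroup {G : Type u} {X : Type v} [Group G] [Countable G] [MulAction G X]
    (H : CofiniteSubgroupoid G X) (hX : ExtensivelyExact G X)
    (hE : ∀ E : Finset X, CoarselyEmbeds (H.offSubgroup E)) : CoarselyEmbeds G := by
  classical
  refine ce_fibration (Z := Mk H) (fun z => ∃ E : Finset X, z = mkq H ((1 : G), E)) ?_ ?_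
  · rintro z ⟨E, rfl⟩
    refine CoarselyEmbeds.of_injective (hE E)
      (Subgroup.inclusion (fun g hg => (mem_stab_iff H E g).mp hg)) ?_
    exact Subgroup.inclusion_injective _
  · intro S ε hε
    let E₀ : Finset X := S.biUnion fun s => (H.cofinite s).toFinset
    have hE₀ : ∀ s ∈ S, ∀ x, ¬ H.Mem s x → x ∈ E₀ := by
      intro s hs x hx
      exact Finset.mem_biUnion.mpr ⟨s, hs, (Set.Finite.mem_toFinset _).mpr hx⟩
    obtain ⟨T, m, h0, h1, h2, h3⟩ := hX S E₀ ε hε
    refine ⟨T.image fun B => mkq H ((1 : G), B), fun g => (m g).mapDomain fun A => mkq H (g, A),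
      ?_, ?_, ?_, ?_⟩
    · intro z hz
      obtain ⟨B, -, rfl⟩ := Finset.mem_image.mp hz
      exact ⟨B, rfl⟩
    · intro g
      exact IsProb.mapDomain ⟨h0 g, h1 g⟩ _
    · intro g z hz
      obtain ⟨A, hA, rfl⟩ := Finset.mem_image.1 (Finsupp.mapDomain_support hz)
      obtain ⟨⟨A₀, hA₀, h4⟩, -⟩ := h2 g A (Finsupp.mem_support_iff.mp hA)
      refine Finset.mem_image.mpr ⟨A₀, hA₀, ?_⟩
      rw [smul_mk, inv_mul_cancel]
      congr 2
      ext x
      rw [mem_sm, inv_inv, h4]
    · intro g s hs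
      have e : (m (g * s)).mapDomain (fun A => mkq H (g * s, A)) =
          (m (g * s)).mapDomain (fun A => mkq H (g, A)) := by
        refine Finsupp.mapDomain_congr fun A hA => ?_
        refine (mkq_eq H).mpr (rel_symm H ⟨rfl, fun x hx => ?_⟩)
        have h6 : g⁻¹ * (g * s) = s := by group
        simp only [h6]
        by_contra hcon
        have h7 := (h2 (g * s) A (Finsupp.mem_support_iff.mp hA)).2 _ (hE₀ s hs _ hcon)
        rw [smul_inv_smul] at h7
        exact hx h7
      beta_reduce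
      rw [e, ← Finsupp.mapDomain_sub]
      exact (n1_mapDomain_le _ _).trans (h3 g s hs)

/-- Extensive exactness passes to actions through a homomorphism. -/
theorem extensivelyExact_comp {G : Type u} {G' : Type w} {X : Type v} [Group G] [Group G']
    [MulAction G X] [MulAction G' X] (π : G' →* G) (hπ : ∀ (g : G') (x : X), g • x = π g • x)
    (h : ExtensivelyExact G X) : ExtensivelyExact G' X := by
  classical
  intro S E₀ ε hε
  obtain ⟨T, m, h0, h1, h2, h3⟩ := h (S.image π) E₀ ε hε
  refine ⟨T, fun g => m (π g), fun g => h0 _, fun g => h1 _, ?_, ?_⟩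
  · intro g A hA
    simp only [hπ]
    exact h2 _ A hA
  · intro g s hs
    beta_reduce
    rw [map_mul]
    exact h3 _ _ (Finset.mem_image_of_mem _ hs)

end Pool.Agent.H829.CE
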