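import Pool.Agent.H829.CE.FsDefs
import Pool.Agent.H829.CE.Perm

/-!
# Coarse embeddability of the extensions by the finitary permutations
-/

set_option autoImplicit false

namespace Pool.Agent.H829.CE

open Pool.Agent.H829.EG Pool.Agent.H818.CS Pool.Agent.N313.EX Finsupp
open Pool.Agent.N506.EX (CoarselyEmbeds IsExact Ex.of_finite Ex.isExact)

universe u v w

section

variable (G X : Type u) [Group G] [MulAction G X]

/-- The finitary extension acts on `X` through `G`. -/
instance fsAction : MulAction (FinitaryExt G X) X := MulAction.compHom X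
  ((MonoidHom.snd (Equiv.Perm X) G).comp (FinitaryExt G X).subtype)

theorem fs_smul (a : FinitaryExt G X) (x : X) : a • x = (a : Equiv.Perm X × G).2 • x := rfl

/-- The arrows at which the permutation agrees with the group element. -/
def fsGpd : CofiniteSubgroupoid (FinitaryExt G X) X where
  Mem a x := (a : Equiv.Perm X × G).1 x = (a : Equiv.Perm X × G).2 • x
  one x := (one_smul G x).symm
  inv a x h := by
    rw [fs_smul, ← h]
    show (a : Equiv.Perm X × G).1.symm ((a : Equiv.Perm X × G).1 x) =
      (a : Equiv.Perm X × G).2⁻¹ • ((a : Equiv.Perm X × G).1 x)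
    rw [Equiv.symm_apply_apply, h, inv_smul_smul]
  mul a b x hb ha := by
    rw [fs_smul] at ha
    show (a : Equiv.Perm X × G).1 ((b : Equiv.Perm X × G).1 x) =
      ((a : Equiv.Perm X × G).2 * (b : Equiv.Perm X × G).2) • x
    rw [hb, ha, mul_smul]
  cofinite a := a.2

instance [Countable G] [Countable X] : Countable (FinitaryExt G X) := by
  classical
  refine Function.Injective.countable (β := G × Σ S : Finset X, (S → X))
    (f := fun a => ((a : Equiv.Perm X × G).2,
      ⟨(show {x | (a : Equiv.Perm X × G).1 x ≠ (a : Equiv.Perm X × G).2 • x}.Finite from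
        a.2).toFinset, fun x => (a : Equiv.Perm X × G).1 x⟩)) ?_
  intro a b hab
  simp only [Prod.mk.injEq, Sigma.mk.injEq] at hab
  obtain ⟨h1, h2, h3⟩ := hab
  apply Subtype.ext
  refine Prod.ext (Equiv.ext fun x => ?_) h1
  set A := (show {x | (a : Equiv.Perm X × G).1 x ≠ (a : Equiv.Perm X × G).2 • x}.Finite from
        a.2).toFinset
  set B := (show {x | (b : Equiv.Perm X × G).1 x ≠ (b : Equiv.Perm X × G).2 • x}.Finite from
        b.2).toFinset
  by_cases hx : x ∈ A
  · have hx' : x ∈ B := h2 ▸ hx
    have key : ∀ (S S' : Finset X) (f : S → X) (f' : S' → X), S = S' → HEq f f' →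
        ∀ (x : X) (hx : x ∈ S) (hx' : x ∈ S'), f ⟨x, hx⟩ = f' ⟨x, hx'⟩ := by
      rintro S S' f f' rfl h x hx hx'
      rw [eq_of_heq h]
    exact key _ _ _ _ h2 h3 x hx hx'
  · have hx' : x ∉ B := h2 ▸ hx
    simp only [A, B, Set.Finite.mem_toFinset, Set.mem_ofPred_eq, not_not] at hx hx'
    rw [hx, hx', h1]

variable {G X}

theorem off_fs [Countable G] [Countable X] (hG : CoarselyEmbeds G) (E : Finset X) :
    CoarselyEmbeds ((fsGpd G X).offSubgroup E) := by
  classical
  set P := (fsGpd G X).offSubgroup E with hP
  have hPE : ∀ g : P, ∀ x, (g : FinitaryExt G X) • x ∈ E ↔ x ∈ E := fun g x => g.2.1 x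
  -- the permutation part
  have hoff : ∀ g : P, ∀ x, x ∉ E → ((g : FinitaryExt G X) : Equiv.Perm X × G).1 x =
      ((g : FinitaryExt G X) : Equiv.Perm X × G).2 • x := fun g x hx => g.2.2 x hx
  have hPE' : ∀ g : P, ∀ x, ((g : FinitaryExt G X) : Equiv.Perm X × G).1 x ∈ E ↔ x ∈ E := by
    intro g x
    constructor
    · intro h
      by_contra hx
      rw [hoff g x hx] at h
      exact hx ((hPE g x).mp h)
    · intro h
      by_contra hx
      set y := ((g : FinitaryExt G X) : Equiv.Perm X × G).1 x with hy
      have h1 : ((g : FinitaryExt G X) : Equiv.Perm X × G).2⁻¹ • y ∉ E := by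
        intro h2
        have h3 := (hPE g _).mpr h2
        rw [fs_smul, smul_inv_smul] at h3
        exact hx h3
      have h2 := hoff g _ h1
      rw [smul_inv_smul, hy] at h2
      rw [((g : FinitaryExt G X) : Equiv.Perm X × G).1.injective h2] at h1
      exact h1 h
  let q : P →* Equiv.Perm E × Equiv.Perm E :=
    { toFun := fun g =>
        ({ toFun := fun x => ⟨(g : FinitaryExt G X) • x.1, (hPE g x.1).mpr x.2⟩
           invFun := fun x => ⟨(g : FinitaryExt G X)⁻¹ • x.1, by
            rw [← hPE g, smul_inv_smul]
            exact x.2⟩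
           left_inv := fun x => Subtype.ext (inv_smul_smul _ _)
           right_inv := fun x => Subtype.ext (smul_inv_smul _ _) },
         { toFun := fun x => ⟨((g : FinitaryExt G X) : Equiv.Perm X × G).1 x.1,
            (hPE' g x.1).mpr x.2⟩
           invFun := fun x => ⟨(((g : FinitaryExt G X) : Equiv.Perm X × G).1).symm x.1, by
            rw [← hPE' g, Equiv.apply_symm_apply]
            exact x.2⟩
           left_inv := fun x => Subtype.ext (Equiv.symm_apply_apply _ _)
           right_inv := fun x => Subtype.ext (Equiv.apply_symm_apply _ _) })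
      map_one' := by
        refine Prod.ext (Equiv.ext fun x => Subtype.ext ?_) (Equiv.ext fun x => Subtype.ext ?_)
        · exact one_smul (FinitaryExt G X) x.1
        · rfl
      map_mul' := fun g h => by
        refine Prod.ext (Equiv.ext fun x => Subtype.ext ?_) (Equiv.ext fun x => Subtype.ext ?_)
        · exact mul_smul (g : FinitaryExt G X) (h : FinitaryExt G X) x.1
        · rfl }
  refine ce_of_hom q (Ex.isExact Ex.of_finite) ?_
  let p : q.ker →* G :=
    { toFun := fun g => ((g : P) : Equiv.Perm X × G).2
      map_one' := rfl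
      map_mul' := fun _ _ => rfl }
  refine CoarselyEmbeds.of_injective hG p ?_
  rw [injective_iff_map_eq_one]
  intro g h1
  have h2 : q g = 1 := g.2
  apply Subtype.ext
  apply Subtype.ext
  apply Subtype.ext
  refine Prod.ext (Equiv.ext fun x => ?_) h1
  by_cases hx : x ∈ E
  · have h3 := congrArg Prod.snd h2
    exact congrArg (fun e : Equiv.Perm E => (e ⟨x, hx⟩ : X)) h3
  · have h3 := hoff g x hx
    have h4 : ((g : P) : Equiv.Perm X × G).2 = 1 := h1
    rw [h4, one_smul] at h3
    exact h3

theorem fs_ce [Countable G] [Countable X] (hX : ExtensivelyExact G X) :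
    CoarselyEmbeds (FinitaryExt G X) ↔ CoarselyEmbeds G := by
  constructor
  · intro h
    let i : G →* FinitaryExt G X :=
      { toFun := fun g => ⟨(MulAction.toPerm g, g), by
          show {x : X | MulAction.toPerm g x ≠ g • x}.Finite
          simp⟩
        map_one' := by
          apply Subtype.ext
          refine Prod.ext (Equiv.ext fun x => one_smul G x) rfl
        map_mul' := fun a b => by
          apply Subtype.ext
          refine Prod.ext (Equiv.ext fun x => mul_smul a b x) rfl }
    refine CoarselyEmbeds.of_injective h i ?_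
    intro a b hab
    exact congrArg (fun z : FinitaryExt G X => (z : Equiv.Perm X × G).2) hab
  · intro hG
    exact ce_of_offSubgroup (fsGpd G X)
      (extensivelyExact_comp ((MonoidHom.snd (Equiv.Perm X) G).comp (FinitaryExt G X).subtype)
        (fun _ _ => rfl) hX) (off_fs hG)

end

end Pool.Agent.H829.CE
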