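import Mathlib

/-!
# The group generated by a permutation group and the finitary permutations
-/

set_option autoImplicit false

namespace Pool.Agent.H829.CE

universe u v

/-- The semidirect product of the group of the finitary permutations of `X` and `G`, as the group of
the pairs of a permutation `σ` of `X` and an element `g` of `G` such that `σ x = g x` for all but
finitely many `x`. -/
def FinitaryExt (G : Type u) (X : Type v) [Group G] [MulAction G X] :
    Subgroup (Equiv.Perm X × G) where
  carrier := {a | {x | a.1 x ≠ a.2 • x}.Finite}
  one_mem' := by simp
  mul_mem' := by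
    intro a b ha hb
    refine (hb.union (ha.preimage (MulAction.injective b.2).injOn)).subset ?_
    intro x hx
    by_contra hcon
    simp only [Set.mem_union, Set.mem_ofPred_eq, Set.mem_preimage, not_or, not_not] at hcon
    apply hx
    show a.1 (b.1 x) = (a.2 * b.2) • x
    rw [hcon.1, hcon.2, mul_smul]
  inv_mem' := by
    intro a ha
    refine (ha.preimage (f := fun x => a.2⁻¹ • x) (MulAction.injective a.2⁻¹).injOn).subset ?_
    intro x hx h
    apply hx
    show a.1⁻¹ x = a.2⁻¹ • x
    rw [Equiv.Perm.inv_eq_iff_eq, h, smul_inv_smul]

end Pool.Agent.H829.CE
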