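import Pool.Agent.H829.CE.HaloDefs

/-!
# The Haagerup property, local kernels
-/

set_option autoImplicit false

namespace Pool.Agent.H829.CE

universe u v w

/-- The Haagerup property (a-T-menability) of the discrete group `G`: there is a map `f` from `G` to a
real Hilbert space such that the distances `‖f g - f h‖` are invariant under left translations and
only finitely many `g` satisfy `‖f g - f 1‖ ≤ C`, for every `C`. The functions `‖f g - f 1‖ ^ 2` are
the conditionally negative definite functions on `G` that vanish at `1`. -/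
def Haagerup (G : Type u) [Group G] : Prop :=
  ∃ (H : Type u) (_ : NormedAddCommGroup H) (_ : InnerProductSpace ℝ H) (_ : CompleteSpace H)
    (f : G → H), (∀ g h k, ‖f (g * h) - f (g * k)‖ = ‖f h - f k‖) ∧
    ∀ C : ℝ, {g : G | ‖f g - f 1‖ ≤ C}.Finite

/-- A homomorphism `π : Γ → G` has local Haagerup kernel over the `G`-set `X`: there are equivalence
relations `r x` on `Γ`, for `x` in `X`, and a map `b` from `Γ` to a real Hilbert space such that

* `r (π γ x) (γ a) (γ c)` holds if and only if `r x a c` holds;
* for every `s` in `Γ`, `r x 1 s` holds for all but finitely many `x`;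
* the distances `‖b a - b c‖` are invariant under left translations;
* for every finite subset `E` of `X` and every `C` only finitely many `n` in the kernel of `π` satisfy
  `r x 1 n` for all `x` that are not in `E` and `‖b n - b 1‖ ≤ C`. -/
def LocalHaagerupKernel {Γ : Type u} {G : Type v} (X : Type w) [Group Γ] [Group G] [MulAction G X]
    (π : Γ →* G) : Prop :=
  ∃ (r : X → Setoid Γ) (H : Type u) (_ : NormedAddCommGroup H) (_ : InnerProductSpace ℝ H)
    (_ : CompleteSpace H) (b : Γ → H),
    (∀ γ x a c, r (π γ • x) (γ * a) (γ * c) ↔ r x a c) ∧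
    (∀ s, {x | ¬ r x 1 s}.Finite) ∧
    (∀ γ a c, ‖b (γ * a) - b (γ * c)‖ = ‖b a - b c‖) ∧
    ∀ (E : Finset X) (C : ℝ), {n | π n = 1 ∧ (∀ x, x ∉ E → r x 1 n) ∧ ‖b n - b 1‖ ≤ C}.Finite

end Pool.Agent.H829.CE
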