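import Pool.Agent.H829.CE.Col
import Pool.Agent.H829.CE.HgDefs

/-!
# Random colourings, the equivariant version
-/

set_option autoImplicit false

namespace Pool.Agent.H829.CE

open Pool.Agent.H818.CS Finsupp

universe u v w z t

open scoped Classical in
theorem avg_image {C : Type u} (e : C → C) (he : Function.Injective e) (T : Finset C)
    (Φ : Finset C → ℝ) : avg (T.image e) Φ = avg T fun c => Φ (c.image e) := by
  rw [avg, avg, Finset.card_image_of_injective _ he]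
  congr 1
  symm
  refine Finset.sum_bij (fun c _ => c.image e) ?_ ?_ ?_ ?_
  · intro c hc
    rw [Finset.mem_powerset] at hc ⊢
    exact Finset.image_subset_image hc
  · intro c _ c' _ h
    exact Finset.image_injective he h
  · intro c hc
    rw [Finset.mem_powerset, Finset.subset_image_iff] at hc
    obtain ⟨s', h1, h2⟩ := hc
    exact ⟨s', Finset.mem_powerset.mpr h1, h2⟩
  · intro c _
    rfl

section main

variable {Γ : Type u} {G : Type v} {X : Type w} {C : Type z} {L : Type t} [Group Γ] [Group G]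
  [Group L] [MulAction G X]

open scoped Classical in
/-- The element of the wreath product given by a colouring. -/
noncomputable def colH (π : Γ →* G) (Λ : Γ → X → C) (l₀ : L)
    (hfin : ∀ γ, {x | Λ γ x ≠ Λ 1 x}.Finite) (c : Finset C) (γ : Γ) : Wreath L G X where
  fn x := (if Λ 1 x ∈ c then l₀ else 1)⁻¹ * (if Λ γ x ∈ c then l₀ else 1)
  pt := π γ
  fin := by
    refine (hfin γ).subset ?_
    intro x hx h
    apply hx
    rw [h, inv_mul_cancel]

/-- **Random colourings.** -/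
theorem colouringH [MulAction Γ C] (π : Γ →* G) (Λ : Γ → X → C)
    (hΛ : ∀ δ γ x, Λ (δ * γ) (π δ • x) = δ • Λ γ x) (B : Γ → Finset X)
    (hB : ∀ γ s x, (π γ)⁻¹ • x ∉ B s → Λ (γ * s) x = Λ γ x) (l₀ : L) (hl₀ : l₀ ≠ 1)
    (hCE : Haagerup (Wreath L G X)) :
    ∃ (H : Type u) (_ : NormedAddCommGroup H) (_ : InnerProductSpace ℝ H) (_ : CompleteSpace H)
      (ξ : Γ → H), (∀ δ a b, ‖ξ (δ * a) - ξ (δ * b)‖ = ‖ξ a - ξ b‖) ∧
      ∀ R : ℝ, ∃ (F : Finset G) (E : Finset X), ∀ γ γ', ‖ξ γ' - ξ γ‖ ≤ R →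
        (π γ)⁻¹ * π γ' ∈ F ∧ ∀ x, Λ γ x ≠ Λ γ' x → (π γ)⁻¹ • x ∈ E := by
  classical
  obtain ⟨H₀, _, _, _, F₀, hF1, hF2⟩ := hCE
  have hF : ∀ a b, ‖F₀ b - F₀ a‖ = ‖F₀ (a⁻¹ * b) - F₀ 1‖ := by
    intro a b
    have h1 := hF1 a (a⁻¹ * b) 1
    rwa [mul_inv_cancel_left, mul_one] at h1
  have hB1 : ∀ γ x, x ∉ B γ → Λ γ x = Λ 1 x := by
    intro γ x hx
    have := hB 1 γ x (by rw [map_one, inv_one, one_smul]; exact hx)
    rwa [one_mul] at this
  have hfin : ∀ γ, {x | Λ γ x ≠ Λ 1 x}.Finite := by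
    intro γ
    refine (B γ).finite_toSet.subset ?_
    intro x hx
    by_contra h
    exact hx (hB1 γ x h)
  let A : Finset C → Γ → Wreath L G X := colH π Λ l₀ hfin
  have hA : ∀ c γ x, (A c γ).fn x =
      (if Λ 1 x ∈ c then l₀ else 1)⁻¹ * (if Λ γ x ∈ c then l₀ else 1) := fun _ _ _ => rfl
  have hApt : ∀ c γ, (A c γ).pt = π γ := fun _ _ => rfl
  let TT : Γ → Finset C := fun γ => (B γ).image (Λ γ) ∪ (B γ).image (Λ 1)
  have hTT : ∀ γ a, a ∉ TT γ → ∀ c, A (insert a c) γ = A c γ := by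
    intro γ a ha c
    refine Wreath.ext (funext fun x => ?_) rfl
    rw [hA, hA]
    by_cases hx : x ∈ B γ
    · have h1 : Λ γ x ≠ a := fun h => ha (Finset.mem_union_left _
        (Finset.mem_image.mpr ⟨x, hx, h⟩))
      have h2 : Λ 1 x ≠ a := fun h => ha (Finset.mem_union_right _
        (Finset.mem_image.mpr ⟨x, hx, h⟩))
      simp only [Finset.mem_insert, h1, h2, false_or]
    · rw [hB1 γ x hx, inv_mul_cancel, inv_mul_cancel]
  let Q : Γ → Γ → Finset C → ℝ := fun γ γ' c => inner ℝ (F₀ (A c γ)) (F₀ (A c γ'))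
  let K : Γ → Γ → ℝ := fun γ γ' => avg (TT γ ∪ TT γ') (Q γ γ')
  have hKT : ∀ γ γ' (T : Finset C), TT γ ⊆ T → TT γ' ⊆ T → K γ γ' = avg T (Q γ γ') := by
    intro γ γ' T h1 h2
    have h3 : T = (TT γ ∪ TT γ') ∪ T :=
      (Finset.union_eq_right.mpr (Finset.union_subset h1 h2)).symm
    rw [h3, avg_mono]
    intro a ha c
    rw [Finset.mem_union, not_or] at ha
    simp only [Q, hTT _ _ ha.1, hTT _ _ ha.2]
  have hK : Ker K := by
    refine Ker.of_local fun S => ?_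
    refine ⟨fun γ γ' => avg (S.biUnion TT) (Q γ γ'), ?_, ?_⟩
    · have h1 : Ker fun γ γ' => ∑ c ∈ (S.biUnion TT).powerset, Q γ γ' c :=
        Ker.sum _ fun c _ => Ker.inner' fun γ => F₀ (A c γ)
      exact h1.smul (by positivity)
    · intro γ hγ γ' hγ'
      exact hKT γ γ' _ (Finset.subset_biUnion_of_mem TT hγ) (Finset.subset_biUnion_of_mem TT hγ')
  obtain ⟨H, i1, i2, i3, ξ, hξ⟩ := hK.kolmogorov
  let Φ : Γ → Γ → Finset C → ℝ := fun γ γ' c => ‖F₀ (A c γ') - F₀ (A c γ)‖ ^ 2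
  have hdist : ∀ γ γ' (T : Finset C), TT γ ⊆ T → TT γ' ⊆ T →
      ‖ξ γ' - ξ γ‖ ^ 2 = avg T (Φ γ γ') := by
    intro γ γ' T h1 h2
    rw [norm_sub_sq_real, ← real_inner_self_eq_norm_sq, ← real_inner_self_eq_norm_sq, hξ, hξ, hξ,
      hKT γ γ T h1 h1, hKT γ' γ' T h2 h2, hKT γ' γ T h2 h1]
    have e : ∀ c, Φ γ γ' c = Q γ' γ' c - 2 * Q γ' γ c + Q γ γ c := by
      intro c
      simp only [Φ, Q]
      rw [norm_sub_sq_real, ← real_inner_self_eq_norm_sq, ← real_inner_self_eq_norm_sq]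
    simp only [avg, e]
    rw [Finset.sum_add_distrib, Finset.sum_sub_distrib, ← Finset.mul_sum]
    ring
  -- the products
  have hfn : ∀ c γ γ' x, ((A c γ)⁻¹ * A c γ').fn x =
      (if Λ γ (π γ • x) ∈ c then l₀ else 1)⁻¹ * (if Λ γ' (π γ • x) ∈ c then l₀ else 1) := by
    intro c γ γ' x
    rw [Wreath.mul_fn, Wreath.inv_fn, Wreath.inv_pt, inv_inv, hApt, hA, hA]
    group
  have hpt : ∀ c γ γ', ((A c γ)⁻¹ * A c γ').pt = (π γ)⁻¹ * π γ' := fun _ _ _ => rfl
  refine ⟨H, i1, i2, i3, ξ, fun δ a b => ?_, fun R => ?_⟩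
  · -- invariance
    have hinj : Function.Injective fun x : C => δ⁻¹ • x := MulAction.injective δ⁻¹
    have hmem : ∀ (c : Finset C) (x : C), δ • x ∈ c ↔ x ∈ c.image fun x => δ⁻¹ • x := by
      intro c x
      rw [Finset.mem_image]
      constructor
      · intro h
        exact ⟨_, h, inv_smul_smul _ _⟩
      · rintro ⟨y, hy, rfl⟩
        rwa [smul_inv_smul]
    have hprod : ∀ c, (A c (δ * b))⁻¹ * A c (δ * a) =
        (A (c.image fun x => δ⁻¹ • x) b)⁻¹ * A (c.image fun x => δ⁻¹ • x) a := by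
      intro c
      refine Wreath.ext (funext fun x => ?_) ?_
      · rw [hfn, hfn, map_mul, mul_smul, hΛ, hΛ]
        simp only [hmem]
      · rw [hpt, hpt, map_mul, map_mul]
        group
    have hΦ : ∀ c, Φ (δ * b) (δ * a) c = Φ b a (c.image fun x => δ⁻¹ • x) := by
      intro c
      show ‖F₀ (A c (δ * a)) - F₀ (A c (δ * b))‖ ^ 2 =
        ‖F₀ (A (c.image fun x => δ⁻¹ • x) a) - F₀ (A (c.image fun x => δ⁻¹ • x) b)‖ ^ 2
      rw [hF (A c (δ * b)), hF (A (c.image fun x => δ⁻¹ • x) b), hprod]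
    let T : Finset C := (TT (δ * b) ∪ TT (δ * a)) ∪ (TT b ∪ TT a).image fun x => δ • x
    have h1 : ‖ξ (δ * a) - ξ (δ * b)‖ ^ 2 = avg T (Φ (δ * b) (δ * a)) :=
      hdist _ _ _ (Finset.subset_union_left.trans Finset.subset_union_left)
        (Finset.subset_union_right.trans Finset.subset_union_left)
    have h2 : TT b ∪ TT a ⊆ T.image fun x => δ⁻¹ • x := by
      intro x hx
      exact (hmem T x).mp (Finset.mem_union_right _ (Finset.mem_image_of_mem _ hx))
    have h3 : ‖ξ a - ξ b‖ ^ 2 = avg (T.image fun x => δ⁻¹ • x) (Φ b a) :=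
      hdist _ _ _ (Finset.subset_union_left.trans h2) (Finset.subset_union_right.trans h2)
    rw [avg_image _ hinj] at h3
    have h4 : ‖ξ (δ * a) - ξ (δ * b)‖ ^ 2 = ‖ξ a - ξ b‖ ^ 2 := by
      rw [h1, h3]
      exact congrArg (avg T) (funext hΦ)
    exact (sq_eq_sq₀ (norm_nonneg _) (norm_nonneg _)).mp h4
  · -- properness
    let M : Set (Wreath L G X) := {m | ‖F₀ m - F₀ 1‖ ≤ Real.sqrt 2 * R}
    have hM : M.Finite := hF2 _
    refine ⟨(hM.image fun m => m.pt).toFinset, hM.toFinset.biUnion fun m => m.fin.toFinset,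
      fun γ γ' hγ => ?_⟩
    have hR : 0 ≤ R := (norm_nonneg _).trans hγ
    have hdist' : ‖ξ γ' - ξ γ‖ ^ 2 = avg (TT γ ∪ TT γ') (Φ γ γ') :=
      hdist _ _ _ Finset.subset_union_left Finset.subset_union_right
    have h1 : avg (TT γ ∪ TT γ') (Φ γ γ') ≤ R ^ 2 := by
      rw [← hdist']
      exact pow_le_pow_left₀ (norm_nonneg _) hγ 2
    have key : ∀ c, Φ γ γ' c ≤ 2 * R ^ 2 → (A c γ)⁻¹ * A c γ' ∈ M := by
      intro c hc
      show ‖F₀ ((A c γ)⁻¹ * A c γ') - F₀ 1‖ ≤ Real.sqrt 2 * R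
      rw [← hF]
      refine abs_le_of_sq_le_sq' ?_ (by positivity) |>.2
      rw [mul_pow, Real.sq_sqrt (by norm_num)]
      exact hc
    refine ⟨?_, fun x hx => ?_⟩
    · obtain ⟨c, hc⟩ := exists_le_avg (T := TT γ ∪ TT γ') (Φ := Φ γ γ')
      have h2 := key c (by nlinarith [sq_nonneg R])
      rw [Set.Finite.mem_toFinset]
      exact ⟨_, h2, rfl⟩
    · have h0 : ∀ c, 0 ≤ Φ γ γ' c := fun c => sq_nonneg _
      have h2 : ∃ c, ¬ (Λ γ x ∈ c ↔ Λ γ' x ∈ c) ∧ Φ γ γ' c ≤ 2 * R ^ 2 := by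
        by_cases hxB : x ∈ B γ
        · obtain ⟨c, h3, h4⟩ := exists_sep (T := TT γ ∪ TT γ') h0 (l := Λ γ x) (l' := Λ γ' x)
            (Finset.mem_union_left _ (Finset.mem_union_left _ (Finset.mem_image_of_mem _ hxB)))
            (Ne.symm hx)
          exact ⟨c, h3, by linarith⟩
        · have hxB' : x ∈ B γ' := by
            by_contra h
            rw [hB1 γ x hxB, hB1 γ' x h] at hx
            exact hx rfl
          obtain ⟨c, h3, h4⟩ := exists_sep (T := TT γ ∪ TT γ') h0 (l := Λ γ' x) (l' := Λ γ x)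
            (Finset.mem_union_right _ (Finset.mem_union_left _ (Finset.mem_image_of_mem _ hxB')))
            hx
          exact ⟨c, fun h => h3 h.symm, by linarith⟩
      obtain ⟨c, h3, h4⟩ := h2
      refine Finset.mem_biUnion.mpr ⟨_, (Set.Finite.mem_toFinset _).mpr (key c h4), ?_⟩
      rw [Set.Finite.mem_toFinset, Set.mem_ofPred_eq, hfn, smul_inv_smul]
      by_cases p : Λ γ x ∈ c <;> by_cases q : Λ γ' x ∈ c <;> simp_all

end main

end Pool.Agent.H829.CE
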