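import Pool.Agent.H829.CE.HgSeq

/-!
# The Haagerup property and amenable families of subgroups
-/

set_option autoImplicit false

namespace Pool.Agent.H829.CE

open Pool.Agent.H818.CS Finsupp Filter

universe u v w

/-- Positive definite functions of groups with the Haagerup property. -/
theorem Haagerup.exists_pd {P : Type u} [Group P] (h : Haagerup P) (F : Finset P) (η : ℝ)
    (hη : 0 < η) : ∃ φ : P → ℝ, Ker (fun a b => φ (b⁻¹ * a)) ∧ φ 1 = 1 ∧
      (∀ s, 0 ≤ φ s ∧ φ s ≤ 1) ∧ (∀ s ∈ F, 1 - φ s ≤ η) ∧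
      ∀ δ : ℝ, 0 < δ → {s | δ ≤ φ s}.Finite := by
  classical
  obtain ⟨H₀, _, _, _, f, hf1, hf2⟩ := h
  let N : P → ℝ := fun s => ‖f s - f 1‖ ^ 2
  let t : ℝ := η / (1 + ∑ s ∈ F, N s)
  have hN0 : ∀ s, 0 ≤ N s := fun s => sq_nonneg _
  have hsum0 : 0 ≤ ∑ s ∈ F, N s := Finset.sum_nonneg fun s _ => hN0 s
  have ht : 0 < t := by positivity
  refine ⟨fun s => Real.exp (-t * N s), ?_, ?_, ?_, ?_, ?_⟩
  · have hS := Ker.schoenberg f ht.le
    have e : (fun a b : P => Real.exp (-t * N (b⁻¹ * a))) =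
        fun a b => Real.exp (-t * ‖f a - f b‖ ^ 2) := by
      funext a b
      have h1 := hf1 b (b⁻¹ * a) 1
      rw [mul_inv_cancel_left, mul_one] at h1
      simp only [N, h1]
    rw [e]
    exact hS
  · simp [N]
  · intro s
    refine ⟨(Real.exp_pos _).le, Real.exp_le_one_iff.mpr ?_⟩
    have := mul_nonneg ht.le (hN0 s)
    linarith
  · intro s hs
    have h3 := Real.add_one_le_exp (-t * N s)
    have h4 : t * N s ≤ η := by
      have h5 : N s ≤ 1 + ∑ s ∈ F, N s := by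
        have := Finset.single_le_sum (f := N) (fun s _ => hN0 s) hs
        linarith
      calc t * N s ≤ t * (1 + ∑ s ∈ F, N s) := mul_le_mul_of_nonneg_left h5 ht.le
        _ = η := by
          simp only [t]
          field_simp
    linarith
  · intro δ hδ
    refine (hf2 (Real.sqrt (-Real.log δ / t))).subset ?_
    intro s hs
    have h1 : δ ≤ Real.exp (-t * N s) := hs
    have h2 : Real.log δ ≤ -t * N s := by
      have := Real.log_le_log hδ h1
      rwa [Real.log_exp] at this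
    show ‖f s - f 1‖ ≤ _
    apply Real.le_sqrt_of_sq_le
    rw [le_div_iff₀ ht]
    have h3 : ‖f s - f 1‖ ^ 2 = N s := rfl
    rw [h3]
    linarith

open scoped Classical in
/-- The extension by zero of a function on a subgroup. -/
noncomputable def ext0 {G : Type u} [Group G] (P : Subgroup G) (φ : P → ℝ) (g : G) : ℝ :=
  if h : g ∈ P then φ ⟨g, h⟩ else 0

theorem ext0_mem {G : Type u} [Group G] {P : Subgroup G} {φ : P → ℝ} {g : G} (h : g ∈ P) :
    ext0 P φ g = φ ⟨g, h⟩ := dif_pos h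

theorem ext0_not {G : Type u} [Group G] {P : Subgroup G} {φ : P → ℝ} {g : G} (h : g ∉ P) :
    ext0 P φ g = 0 := dif_neg h

theorem ker_ext0 {G : Type u} [Group G] (P : Subgroup G) (φ : P → ℝ)
    (h : Ker fun a b : P => φ (b⁻¹ * a)) : Ker fun a b : G => ext0 P φ (b⁻¹ * a) := by
  classical
  refine Ker.of_local fun A => ?_
  let u : G ⧸ P → G → P := fun C a => if h : C.out⁻¹ * a ∈ P then ⟨C.out⁻¹ * a, h⟩ else 1
  let w : G ⧸ P → G → ℝ := fun C a => if C.out⁻¹ * a ∈ P then 1 else 0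
  have hmem : ∀ (C : G ⧸ P) (a : G), C.out⁻¹ * a ∈ P ↔ C = (QuotientGroup.mk a : G ⧸ P) := by
    intro C a
    rw [← QuotientGroup.eq, QuotientGroup.out_eq']
  refine ⟨fun a b => ∑ C ∈ A.image fun a => (QuotientGroup.mk a : G ⧸ P),
    w C a * w C b * φ ((u C b)⁻¹ * u C a), Ker.sum _ fun C _ => (h.comp (u C)).mul_fun (w C),
    fun a ha b hb => ?_⟩
  beta_reduce
  by_cases hab : b⁻¹ * a ∈ P
  · have hC : (QuotientGroup.mk b : G ⧸ P) = QuotientGroup.mk a := QuotientGroup.eq.mpr hab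
    rw [ext0_mem hab, Finset.sum_eq_single (QuotientGroup.mk a : G ⧸ P)]
    · have h1 : (QuotientGroup.mk a : G ⧸ P).out⁻¹ * a ∈ P := (hmem _ _).mpr rfl
      have h2 : (QuotientGroup.mk a : G ⧸ P).out⁻¹ * b ∈ P := (hmem _ _).mpr hC.symm
      simp only [w, u, if_pos h1, if_pos h2, dif_pos h1, dif_pos h2, one_mul]
      congr 1
      apply Subtype.ext
      show b⁻¹ * a = ((QuotientGroup.mk a : G ⧸ P).out⁻¹ * b)⁻¹ * ((QuotientGroup.mk a : G ⧸ P).out⁻¹ * a)
      group
    · intro C _ hne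
      have h1 : ¬ C.out⁻¹ * a ∈ P := fun h3 => hne ((hmem _ _).mp h3)
      simp only [w, if_neg h1, zero_mul]
    · intro hn
      exact absurd (Finset.mem_image_of_mem _ ha) hn
  · rw [ext0_not hab]
    symm
    refine Finset.sum_eq_zero fun C _ => ?_
    by_cases h1 : C.out⁻¹ * a ∈ P
    · have h2 : ¬ C.out⁻¹ * b ∈ P := by
        intro h3
        apply hab
        have := ((hmem C b).mp h3).symm.trans ((hmem C a).mp h1)
        exact QuotientGroup.eq.mp this
      simp only [w, if_neg h2, mul_zero, zero_mul]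
    · simp only [w, if_neg h1, zero_mul]

theorem ext0_finite {G : Type u} [Group G] {P : Subgroup G} {φ : P → ℝ} {δ : ℝ} (hδ : 0 < δ)
    (h : {p | δ ≤ φ p}.Finite) : {g | δ ≤ ext0 P φ g}.Finite := by
  refine (h.image Subtype.val).subset ?_
  intro g hg
  have hg' : δ ≤ ext0 P φ g := hg
  by_cases hP : g ∈ P
  · rw [ext0_mem hP] at hg'
    exact ⟨⟨g, hP⟩, hg', rfl⟩
  · rw [ext0_not hP] at hg'
    exact absurd hg' (not_le.mpr hδ)

theorem Haagerup.of_injective {P Q : Type u} [Group P] [Group Q] (h : Haagerup Q) (i : P →* Q)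
    (hi : Function.Injective i) : Haagerup P := by
  obtain ⟨H₀, j1, j2, j3, f, hf1, hf2⟩ := h
  refine ⟨H₀, j1, j2, j3, fun p => f (i p), fun a b c => ?_, fun C => ?_⟩
  · beta_reduce
    rw [map_mul, map_mul, hf1]
  · refine ((hf2 C).preimage hi.injOn).subset ?_
    intro p hp
    have h1 : ‖f (i p) - f (i 1)‖ ≤ C := hp
    rw [map_one] at h1
    exact h1

theorem ker_double {G : Type u} {I : Type w} [Group G] {κ : G → G → ℝ} (hκ : Ker κ) (W : Finset I)
    (σ : I → G) (ξ : I → ℝ) :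
    Ker fun g h => ∑ i ∈ W, ∑ j ∈ W, ξ i * ξ j * κ (g * σ i) (h * σ j) := by
  have h := hκ.pull fun g : G => ∑ i ∈ W, single (g * σ i) (ξ i)
  have e : (fun g h => ∑ i ∈ W, ∑ j ∈ W, ξ i * ξ j * κ (g * σ i) (h * σ j)) =
      fun g h => BK κ (∑ i ∈ W, single (g * σ i) (ξ i)) (∑ i ∈ W, single (h * σ i) (ξ i)) := by
    funext g h
    rw [Finset.sum_comm, map_sum]
    refine Finset.sum_congr rfl fun j _ => ?_
    rw [map_sum, LinearMap.sum_apply]
    refine Finset.sum_congr rfl fun i _ => ?_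
    rw [BK_single]
  rw [e]
  exact h

/-- **The fibering theorem.** -/
theorem haagerup_fibration {G : Type u} [Group G] [Countable G] {Z : Type v} [MulAction G Z]
    {I : Type w}
    (h : ∀ (F : Finset G) (ε : ℝ), 0 < ε → ∃ (W : Finset I) (y : I → Z) (ξ : I → ℝ),
      Set.InjOn y W ∧ (∀ i ∈ W, 0 ≤ ξ i) ∧ ∑ i ∈ W, ξ i ^ 2 = 1 ∧
      (∀ i ∈ W, Haagerup (MulAction.stabilizer G (y i))) ∧
      ∀ s ∈ F, ∃ (V : Finset I) (τ : I → I), V ⊆ W ∧ Set.InjOn τ V ∧
        (∀ i ∈ V, τ i ∈ W ∧ s • y i = y (τ i)) ∧ 1 - ∑ i ∈ V, ξ i * ξ (τ i) ≤ ε) :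
    Haagerup G := by
  classical
  refine haagerup_of_seq fun F ε hε => ?_
  obtain ⟨W, y, ξ, hinj, hξ0, hξ1, hst, hF⟩ := h F (ε / 2) (by positivity)
  -- representatives of the orbits
  let rep : Z → Z := fun z => (Quotient.mk (MulAction.orbitRel G Z) z).out
  have hrep : ∀ (g : G) (z : Z), rep (g • z) = rep z := by
    intro g z
    have h1 : Quotient.mk (MulAction.orbitRel G Z) (g • z) = Quotient.mk (MulAction.orbitRel G Z) z :=
      Quotient.sound (s := MulAction.orbitRel G Z) ⟨g, rfl⟩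
    simp only [rep, h1]
  have hσ : ∀ z : Z, ∃ g : G, g • rep z = z := by
    intro z
    have h1 : (MulAction.orbitRel G Z) (rep z) z := Quotient.mk_out (s := MulAction.orbitRel G Z) z
    obtain ⟨g, hg⟩ := h1
    exact ⟨g⁻¹, by
      have h2 : g • z = rep z := hg
      rw [← h2, inv_smul_smul]⟩
  choose σ' hσ' using hσ
  let σ : I → G := fun i => σ' (y i)
  have hσ : ∀ i, σ i • rep (y i) = y i := fun i => hσ' (y i)
  have hH : ∀ i ∈ W, Haagerup (MulAction.stabilizer G (rep (y i))) := by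
    intro i hi
    have hm : ∀ k : G, k ∈ MulAction.stabilizer G (rep (y i)) →
        σ i * k * (σ i)⁻¹ ∈ MulAction.stabilizer G (y i) := by
      intro k hk
      rw [MulAction.mem_stabilizer_iff] at hk ⊢
      rw [mul_smul, mul_smul]
      have h1 : (σ i)⁻¹ • y i = rep (y i) := by
        rw [inv_smul_eq_iff, hσ]
      rw [h1, hk, hσ]
    let c : MulAction.stabilizer G (rep (y i)) →* MulAction.stabilizer G (y i) :=
      { toFun := fun k => ⟨σ i * k * (σ i)⁻¹, hm k k.2⟩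
        map_one' := Subtype.ext (by simp)
        map_mul' := fun k l => Subtype.ext (by
          show σ i * (k * l : G) * (σ i)⁻¹ = σ i * k * (σ i)⁻¹ * (σ i * l * (σ i)⁻¹)
          group) }
    refine (hst i hi).of_injective c fun k l hkl => ?_
    have h1 : σ i * k * (σ i)⁻¹ = σ i * l * (σ i)⁻¹ := congrArg Subtype.val hkl
    exact Subtype.ext (mul_left_cancel (mul_right_cancel h1))
  -- positive definite functions on the stabilizers
  let Fx : (x : Z) → Finset (MulAction.stabilizer G x) := fun x =>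
    (F ×ˢ W ×ˢ W).image fun q => if h : (σ q.2.2)⁻¹ * (q.1 * σ q.2.1) ∈ MulAction.stabilizer G x then
      ⟨_, h⟩ else 1
  have hφ : ∀ x : Z, ∃ φ : MulAction.stabilizer G x → ℝ,
      Ker (fun a b : MulAction.stabilizer G x => φ (b⁻¹ * a)) ∧
      (Haagerup (MulAction.stabilizer G x) → φ 1 = 1 ∧ (∀ s, 0 ≤ φ s ∧ φ s ≤ 1) ∧
        (∀ s ∈ Fx x, 1 - φ s ≤ ε / 2) ∧ ∀ δ : ℝ, 0 < δ → {s | δ ≤ φ s}.Finite) := by
    intro x
    by_cases hx : Haagerup (MulAction.stabilizer G x)
    · obtain ⟨φ, f1, f2, f3, f4, f5⟩ := hx.exists_pd (Fx x) (ε / 2) (by positivity)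
      exact ⟨φ, f1, fun _ => ⟨f2, f3, f4, f5⟩⟩
    · exact ⟨fun _ => 1, Ker.one, fun h => absurd h hx⟩
  choose φ hφ1 hφ2 using hφ
  let e : Z → G → ℝ := fun x g => ext0 (MulAction.stabilizer G x) (φ x) g
  have he : ∀ x, Ker fun a b : G => e x (b⁻¹ * a) := fun x => ker_ext0 _ _ (hφ1 x)
  have he0 : ∀ i ∈ W, ∀ g, 0 ≤ e (rep (y i)) g := by
    intro i hi g
    by_cases hg : g ∈ MulAction.stabilizer G (rep (y i))
    · simp only [e, ext0_mem hg]
      exact ((hφ2 _ (hH i hi)).2.1 _).1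
    · simp only [e, ext0_not hg]
      exact le_rfl
  let Wx : Z → Finset I := fun x => W.filter fun i => rep (y i) = x
  let K : G → G → ℝ := fun g h => ∑ x ∈ W.image fun i => rep (y i),
    ∑ i ∈ Wx x, ∑ j ∈ Wx x, ξ i * ξ j * e x ((h * σ j)⁻¹ * (g * σ i))
  have hK : ∀ g h, K g h = ∑ i ∈ W, ∑ j ∈ Wx (rep (y i)),
      ξ i * ξ j * e (rep (y i)) ((h * σ j)⁻¹ * (g * σ i)) := by
    intro g h
    rw [← Finset.sum_fiberwise_of_maps_to (g := fun i => rep (y i))
      (t := W.image fun i => rep (y i)) (fun i hi => Finset.mem_image_of_mem _ hi)]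
    refine Finset.sum_congr rfl fun x _ => Finset.sum_congr rfl fun i hi => ?_
    have h1 : rep (y i) = x := (Finset.mem_filter.mp hi).2
    rw [h1]
  have hmem : ∀ i ∈ W, ∀ j ∈ Wx (rep (y i)), ∀ g h : G,
      (h * σ j)⁻¹ * (g * σ i) ∈ MulAction.stabilizer G (rep (y i)) ↔ g • y i = h • y j := by
    intro i hi j hj g h
    have h1 : rep (y j) = rep (y i) := (Finset.mem_filter.mp hj).2
    have h2 : σ j • rep (y i) = y j := by rw [← h1, hσ]
    rw [MulAction.mem_stabilizer_iff, mul_smul, inv_smul_eq_iff, mul_smul, mul_smul, hσ, h2]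
  refine ⟨K, Ker.sum _ fun x _ => ker_double (he x) (Wx x) σ ξ, ?_, ?_, ?_, ?_⟩
  · intro δ a b
    refine Finset.sum_congr rfl fun x _ => Finset.sum_congr rfl fun i _ =>
      Finset.sum_congr rfl fun j _ => ?_
    congr 2
    group
  · intro a
    rw [hK, ← hξ1]
    refine Finset.sum_congr rfl fun i hi => ?_
    rw [Finset.sum_eq_single i]
    · have h1 : (a * σ i)⁻¹ * (a * σ i) = 1 := inv_mul_cancel _
      have h2 : e (rep (y i)) 1 = 1 := by
        simp only [e, ext0_mem (MulAction.stabilizer G (rep (y i))).one_mem]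
        exact (hφ2 _ (hH i hi)).1
      rw [h1, h2]
      ring
    · intro j hj hne
      have h1 : (a * σ j)⁻¹ * (a * σ i) ∉ MulAction.stabilizer G (rep (y i)) := by
        intro h2
        have h3 := (hmem i hi j hj a a).mp h2
        exact hne (hinj (Finset.mem_filter.mp hj).1 hi (MulAction.injective a h3).symm)
      simp only [e, ext0_not h1, mul_zero]
    · intro hn
      have hm : i ∈ Wx (rep (y i)) := Finset.mem_filter.mpr ⟨hi, rfl⟩
      exact absurd hm hn
  · intro s hs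
    obtain ⟨V, τ, hVW, hτi, hτ, hS⟩ := hF s hs
    have hS1 : ∑ i ∈ V, ξ i * ξ (τ i) ≤ 1 := by
      have h1 : ∑ i ∈ V, ξ i * ξ (τ i) ≤ ∑ i ∈ V, (ξ i ^ 2 / 2 + ξ (τ i) ^ 2 / 2) :=
        Finset.sum_le_sum fun i _ => by nlinarith [sq_nonneg (ξ i - ξ (τ i))]
      rw [Finset.sum_add_distrib, ← Finset.sum_div, ← Finset.sum_div] at h1
      have h2 : ∑ i ∈ V, ξ i ^ 2 ≤ ∑ i ∈ W, ξ i ^ 2 :=
        Finset.sum_le_sum_of_subset_of_nonneg hVW fun i _ _ => sq_nonneg _
      have h3 : ∑ i ∈ V, ξ (τ i) ^ 2 ≤ ∑ i ∈ W, ξ i ^ 2 := by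
        rw [← Finset.sum_image (g := τ) (f := fun i => ξ i ^ 2) hτi]
        refine Finset.sum_le_sum_of_subset_of_nonneg ?_ fun i _ _ => sq_nonneg _
        intro j hj
        obtain ⟨i, hi, rfl⟩ := Finset.mem_image.mp hj
        exact (hτ i hi).1
      rw [hξ1] at h2 h3
      linarith
    have hlow : (1 - ε / 2) * ∑ i ∈ V, ξ i * ξ (τ i) ≤ K s 1 := by
      rw [hK, Finset.mul_sum]
      refine (Finset.sum_le_sum fun i hi => ?_).trans
        (Finset.sum_le_sum_of_subset_of_nonneg hVW fun i hi _ =>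
          Finset.sum_nonneg fun j hj => mul_nonneg (mul_nonneg (hξ0 i hi)
            (hξ0 j (Finset.mem_filter.mp hj).1)) (he0 i hi _))
      have hiW := hVW hi
      obtain ⟨hτW, hτy⟩ := hτ i hi
      have hτm : τ i ∈ Wx (rep (y i)) := by
        refine Finset.mem_filter.mpr ⟨hτW, ?_⟩
        rw [← hτy, hrep]
      refine le_trans ?_ (Finset.single_le_sum (f := fun j =>
        ξ i * ξ j * e (rep (y i)) ((1 * σ j)⁻¹ * (s * σ i))) (fun j hj =>
          mul_nonneg (mul_nonneg (hξ0 i hiW) (hξ0 j (Finset.mem_filter.mp hj).1))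
            (he0 i hiW _)) hτm)
      have h1 : (1 * σ (τ i))⁻¹ * (s * σ i) ∈ MulAction.stabilizer G (rep (y i)) :=
        (hmem i hiW _ hτm s 1).mpr (by rw [one_smul, hτy])
      have h2 : 1 - ε / 2 ≤ e (rep (y i)) ((1 * σ (τ i))⁻¹ * (s * σ i)) := by
        simp only [e, ext0_mem h1]
        have h3 : (⟨_, h1⟩ : MulAction.stabilizer G (rep (y i))) ∈ Fx (rep (y i)) := by
          refine Finset.mem_image.mpr ⟨(s, i, τ i), ?_, ?_⟩
          · simp only [Finset.mem_product]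
            exact ⟨hs, hiW, hτW⟩
          · have h4 : (σ (τ i))⁻¹ * (s * σ i) ∈ MulAction.stabilizer G (rep (y i)) := by
              rwa [one_mul] at h1
            simp only [dif_pos h4, one_mul]
        have h5 := (hφ2 _ (hH i hiW)).2.2.1 _ h3
        linarith
      have h6 : 0 ≤ ξ i * ξ (τ i) := mul_nonneg (hξ0 i hiW) (hξ0 _ hτW)
      beta_reduce
      nlinarith
    nlinarith
  · intro δ hδ
    let δ' : ℝ := δ / ((W.card : ℝ) ^ 2 + 1)
    have hδ' : 0 < δ' := by positivity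
    have hfin : ∀ i ∈ W, ∀ j ∈ W, {s : G | δ' ≤ e (rep (y i)) ((σ j)⁻¹ * (s * σ i))}.Finite := by
      intro i hi j hj
      have h1 : {g | δ' ≤ e (rep (y i)) g}.Finite :=
        ext0_finite hδ' ((hφ2 _ (hH i hi)).2.2.2 δ' hδ')
      refine (h1.preimage (f := fun s : G => (σ j)⁻¹ * (s * σ i)) ?_).subset fun s hs => hs
      intro a _ b _ hab
      exact mul_right_cancel (mul_left_cancel hab)
    refine (W.finite_toSet.biUnion fun i hi => W.finite_toSet.biUnion fun j hj =>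
      hfin i hi j hj).subset ?_
    intro s hs
    by_contra hcon
    simp only [Set.mem_iUnion, not_exists] at hcon
    have h1 : ∀ i ∈ W, ∀ j ∈ Wx (rep (y i)),
        ξ i * ξ j * e (rep (y i)) ((1 * σ j)⁻¹ * (s * σ i)) ≤ δ' := by
      intro i hi j hj
      have hjW := (Finset.mem_filter.mp hj).1
      have h2 : e (rep (y i)) ((1 * σ j)⁻¹ * (s * σ i)) ≤ δ' := by
        have h3 := hcon i hi j hjW
        rw [one_mul]
        exact (not_le.mp h3).le
      have h4 : ∀ k ∈ W, ξ k ≤ 1 := by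
        intro k hk
        have h5 := Finset.single_le_sum (f := fun k => ξ k ^ 2) (fun i _ => sq_nonneg (ξ i)) hk
        rw [hξ1] at h5
        nlinarith [hξ0 k hk]
      have h5 := he0 i hi ((1 * σ j)⁻¹ * (s * σ i))
      have h6 : ξ i * ξ j ≤ 1 := mul_le_one₀ (h4 i hi) (hξ0 j hjW) (h4 j hjW)
      have h7 : 0 ≤ ξ i * ξ j := mul_nonneg (hξ0 i hi) (hξ0 j hjW)
      nlinarith
    have h2 : K s 1 ≤ (W.card : ℝ) ^ 2 * δ' := by
      rw [hK]
      calc _ ≤ ∑ i ∈ W, ∑ j ∈ Wx (rep (y i)), δ' :=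
            Finset.sum_le_sum fun i hi => Finset.sum_le_sum fun j hj => h1 i hi j hj
        _ ≤ ∑ i ∈ W, (W.card : ℝ) * δ' := by
            refine Finset.sum_le_sum fun i _ => ?_
            rw [Finset.sum_const, nsmul_eq_mul]
            refine mul_le_mul_of_nonneg_right ?_ hδ'.le
            exact_mod_cast Finset.card_filter_le _ _
        _ = (W.card : ℝ) ^ 2 * δ' := by
            rw [Finset.sum_const, nsmul_eq_mul]
            ring
    have h3 : (W.card : ℝ) ^ 2 * δ' < δ := by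
      have h4 : ((W.card : ℝ) ^ 2 + 1) * δ' = δ := by
        simp only [δ']
        field_simp
      linarith
    have h5 : δ ≤ K s 1 := hs
    linarith

end Pool.Agent.H829.CE
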