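import Pool.Agent.H829.CE.HgSeq

/-!
# Recurrent actions of groups with the Haagerup property
-/

set_option autoImplicit false

namespace Pool.Agent.H829.CE

open Pool.Agent.H818.CS Finsupp Filter Real

universe u v w

theorem RecurrentAction.exists_fun {G : Type u} {X : Type v} [Group G] [MulAction G X]
    (h : RecurrentAction G X) (S : Finset G) (E : Finset X) (η : ℝ) (hη : 0 < η) :
    ∃ a : X → ℝ, (∀ x, 0 ≤ a x ∧ a x ≤ 1) ∧
      (∀ x ∈ E, a x = 1) ∧ {x | a x ≠ 0}.Finite ∧
      ∀ s ∈ S, ∀ T : Finset X, ∑ x ∈ T, (a (s • x) - a x) ^ 2 ≤ η := by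
  classical
  induction E using Finset.induction_on generalizing η with
  | empty =>
    refine ⟨fun _ => 0, fun x => ⟨le_rfl, zero_le_one⟩, by simp, by simp, ?_⟩
    intro s _ T
    simp [hη.le]
  | insert x₀ E hx ih =>
    obtain ⟨a, a1, a2, a3, a4⟩ := ih (η / 2) (by positivity)
    obtain ⟨b, b1, b2⟩ := h S x₀ (η / 2) (by positivity)
    have hmm : ∀ p q p' q' : ℝ, (max p (min |q| 1) - max p' (min |q'| 1)) ^ 2 ≤
        (p - p') ^ 2 + (q - q') ^ 2 := by
      intro p q p' q'
      have e1 : |max p (min |q| 1) - max p' (min |q'| 1)| ≤ max |p - p'| |min |q| 1 - min |q'| 1| :=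
        abs_max_sub_max_le_max _ _ _ _
      have e2 : |min |q| 1 - min |q'| 1| ≤ |q - q'| := by
        refine (abs_min_sub_min_le_max _ _ _ _).trans ?_
        rw [sub_self, abs_zero]
        exact max_le (abs_abs_sub_abs_le _ _) (abs_nonneg _)
      rw [← sq_abs (max p (min |q| 1) - max p' (min |q'| 1)), ← sq_abs (p - p'),
        ← sq_abs (q - q')]
      have e3 : |max p (min |q| 1) - max p' (min |q'| 1)| ≤ max |p - p'| |q - q'| :=
        e1.trans (max_le_max le_rfl e2)
      rcases le_total |p - p'| |q - q'| with h1 | h1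
      · rw [max_eq_right h1] at e3
        nlinarith [abs_nonneg (p - p'), abs_nonneg (q - q'),
          abs_nonneg (max p (min |q| 1) - max p' (min |q'| 1))]
      · rw [max_eq_left h1] at e3
        nlinarith [abs_nonneg (p - p'), abs_nonneg (q - q'),
          abs_nonneg (max p (min |q| 1) - max p' (min |q'| 1))]
    refine ⟨fun x => max (a x) (min |b x| 1), fun x => ?_, fun x hx => ?_, ?_, ?_⟩
    · exact ⟨le_max_of_le_left (a1 x).1, max_le (a1 x).2 (min_le_right _ _)⟩
    · rcases Finset.mem_insert.mp hx with rfl | hx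
      · beta_reduce
        rw [b1, abs_one, min_self]
        exact max_eq_right (a1 x).2
      · beta_reduce
        rw [a2 x hx]
        exact max_eq_left (min_le_right _ _)
    · refine (a3.union b.support.finite_toSet).subset ?_
      intro x hx
      by_contra hcon
      simp only [Set.mem_union, Set.mem_ofPred_eq, not_or, not_not, Finset.mem_coe,
        Finsupp.mem_support_iff] at hcon
      apply hx
      show max (a x) (min |b x| 1) = 0
      rw [hcon.1, hcon.2, abs_zero]
      simp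
    · intro s hs T
      refine (Finset.sum_le_sum fun x _ => hmm _ _ _ _).trans ?_
      rw [Finset.sum_add_distrib]
      have i1 := a4 s hs T
      have i2 := b2 s hs T
      linarith

section ker

variable {L : Type w} {G : Type u} {X : Type v} [Group L] [Group G] [MulAction G X]

open scoped Classical in
/-- The angle of the state at `x`. -/
noncomputable def ang (θ : X → ℝ) (γ : Wreath L G X) (x : X) : ℝ :=
  if γ.fn x = 1 then θ (γ.pt⁻¹ • x) else π / 2 - θ (γ.pt⁻¹ • x)

theorem ker_cos {Γ : Type u} (α : Γ → ℝ) {K : Γ → Γ → ℝ} (hK : Ker K) :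
    Ker fun a b => cos (α a - α b) * K a b := by
  have h : Ker fun a b => ∑ i : Fin 2, (if i = 0 then cos (α a) else sin (α a)) *
      (if i = 0 then cos (α b) else sin (α b)) * K a b :=
    Ker.sum _ fun i _ => hK.mul_fun _
  have e : (fun a b => cos (α a - α b) * K a b) = fun a b => ∑ i : Fin 2,
      (if i = 0 then cos (α a) else sin (α a)) *
      (if i = 0 then cos (α b) else sin (α b)) * K a b := by
    funext a b
    rw [Fin.sum_univ_two, cos_sub]
    simp
    ring
  rw [e]
  exact h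

theorem ker_prod {Γ : Type u} {X : Type v} (α : Γ → X → ℝ) (T : Finset X) :
    Ker fun a b => ∏ x ∈ T, cos (α a x - α b x) := by
  classical
  induction T using Finset.induction_on with
  | empty => simpa using Ker.one
  | insert x T hx ih =>
    have h := ker_cos (fun a => α a x) ih
    simp only [Finset.prod_insert hx]
    exact h

/-- The matrix coefficients. -/
theorem exists_ker (hL : ∀ a b : L, a * b = 1 ↔ (a = 1 ↔ b = 1)) (θ : X → ℝ)
    (hθ : {x | θ x ≠ 0}.Finite) :
    ∃ K : Wreath L G X → Wreath L G X → ℝ, Ker K ∧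
      (∀ δ a b, K (δ * a) (δ * b) = K a b) ∧ (∀ a, K a a = 1) ∧ (∀ a b, K a b ≤ 1) ∧
      (∀ a b, ∃ T₀ : Finset X, ∀ T : Finset X, T₀ ⊆ T →
        K a b = ∏ x ∈ T, cos (ang θ a x - ang θ b x)) ∧
      ∀ s, K s 1 ≠ 0 → ∀ x, s.fn x ≠ 1 → θ x ≠ 0 ∨ θ (s.pt⁻¹ • x) ≠ 0 := by
  classical
  have hSf : ∀ γ : Wreath L G X, {x | ang θ γ x ≠ 0}.Finite := by
    intro γ
    refine (γ.fin.union (hθ.preimage (MulAction.injective γ.pt⁻¹).injOn)).subset ?_
    intro x hx
    by_contra hcon
    simp only [Set.mem_union, Set.mem_ofPred_eq, Set.mem_preimage, not_or, not_not] at hcon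
    apply hx
    rw [ang, if_pos hcon.1]
    exact hcon.2
  let S : Wreath L G X → Finset X := fun γ => (hSf γ).toFinset
  have hS : ∀ γ x, x ∉ S γ → ang θ γ x = 0 := by
    intro γ x hx
    simp only [S, Set.Finite.mem_toFinset, Set.mem_ofPred_eq, not_not] at hx
    exact hx
  let K : Wreath L G X → Wreath L G X → ℝ := fun a b =>
    ∏ x ∈ S a ∪ S b, cos (ang θ a x - ang θ b x)
  have hKT : ∀ a b (T : Finset X), S a ∪ S b ⊆ T →
      K a b = ∏ x ∈ T, cos (ang θ a x - ang θ b x) := by
    intro a b T h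
    refine Finset.prod_subset h fun x _ hx => ?_
    rw [Finset.mem_union, not_or] at hx
    rw [hS a x hx.1, hS b x hx.2, sub_self, cos_zero]
  have hstep : ∀ (δ a : Wreath L G X) (x : X), ang θ (δ * a) (δ.pt • x) =
      if δ.fn (δ.pt • x) = 1 then ang θ a x else π / 2 - ang θ a x := by
    intro δ a x
    rw [ang, ang, Wreath.mul_fn, Wreath.mul_pt, inv_smul_smul, mul_inv_rev, mul_smul,
      inv_smul_smul]
    by_cases h1 : δ.fn (δ.pt • x) = 1 <;> by_cases h2 : a.fn x = 1
    · simp [h1, h2]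
    · simp [h1, h2]
    · simp [h1, h2]
    · have h3 : δ.fn (δ.pt • x) * a.fn x = 1 := (hL _ _).mpr (by simp [h1, h2])
      rw [if_pos h3, if_neg h1, if_neg h2]
      ring
  refine ⟨K, ?_, ?_, ?_, ?_, fun a b => ⟨_, hKT a b⟩, ?_⟩
  · refine Ker.of_local fun A => ⟨fun a b => ∏ x ∈ A.biUnion S, cos (ang θ a x - ang θ b x),
      ker_prod (fun a x => ang θ a x) _, fun a ha b hb => ?_⟩
    exact hKT a b _ (Finset.union_subset (Finset.subset_biUnion_of_mem S ha)
      (Finset.subset_biUnion_of_mem S hb))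
  · intro δ a b
    let T : Finset X := (S a ∪ S b) ∪ (S (δ * a) ∪ S (δ * b)).image fun x => δ.pt⁻¹ • x
    have h2 : S (δ * a) ∪ S (δ * b) ⊆ T.image fun x => δ.pt • x := by
      intro x hx
      exact Finset.mem_image.mpr ⟨δ.pt⁻¹ • x, Finset.mem_union_right _
        (Finset.mem_image_of_mem _ hx), smul_inv_smul _ _⟩
    rw [hKT a b T Finset.subset_union_left, hKT _ _ _ h2,
      Finset.prod_image (fun x _ y _ hxy => MulAction.injective δ.pt hxy)]
    refine Finset.prod_congr rfl fun x _ => ?_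
    rw [hstep, hstep]
    split_ifs
    · rfl
    · rw [← cos_neg]
      congr 1
      ring
  · intro a
    rw [hKT a a _ subset_rfl]
    simp
  · intro a b
    have h1 : |K a b| ≤ 1 := by
      rw [hKT a b _ subset_rfl, Finset.abs_prod]
      exact Finset.prod_le_one (fun _ _ => abs_nonneg _) fun _ _ => abs_cos_le_one _
    exact (le_abs_self _).trans h1
  · intro s hs x hx
    by_contra hcon
    simp only [ne_eq, not_or, not_not] at hcon
    apply hs
    have h1 : x ∈ S s := by
      simp only [S, Set.Finite.mem_toFinset, Set.mem_ofPred_eq]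
      rw [ang, if_neg hx, hcon.2, sub_zero]
      positivity
    refine Finset.prod_eq_zero (Finset.mem_union_left _ h1) ?_
    rw [ang, ang, if_neg hx, hcon.2, Wreath.one_fn, if_pos rfl, Wreath.one_pt, inv_one, one_smul,
      hcon.1, sub_zero, sub_zero, cos_pi_div_two]

end ker

theorem prod_ge {X : Type v} (T : Finset X) (y : X → ℝ) (h0 : ∀ x ∈ T, 0 ≤ y x)
    (h1 : ∀ x ∈ T, y x ≤ 1) : 1 - ∑ x ∈ T, y x ≤ ∏ x ∈ T, (1 - y x) ∧
      ∏ x ∈ T, (1 - y x) ≤ 1 ∧ 0 ≤ ∏ x ∈ T, (1 - y x) := by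
  classical
  induction T using Finset.induction_on with
  | empty => simp
  | insert x T hx ih =>
    obtain ⟨i1, i2, i3⟩ := ih (fun z hz => h0 z (Finset.mem_insert_of_mem hz))
      (fun z hz => h1 z (Finset.mem_insert_of_mem hz))
    rw [Finset.sum_insert hx, Finset.prod_insert hx]
    have j0 := h0 x (Finset.mem_insert_self _ _)
    have j1 := h1 x (Finset.mem_insert_self _ _)
    refine ⟨?_, ?_, ?_⟩
    · nlinarith
    · nlinarith
    · exact mul_nonneg (by linarith) i3

/-- **Recurrent actions.** -/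
theorem haagerup_recurrent {L : Type w} {G : Type u} {X : Type v} [Group L] [Group G]
    [MulAction G X] [Finite L] [Countable G] [Countable X]
    (hL : ∀ a b : L, a * b = 1 ↔ (a = 1 ↔ b = 1))
    (h : RecurrentAction G X) (hG : Haagerup G) : Haagerup (Wreath L G X) := by
  classical
  obtain ⟨H₀, _, _, _, f, hf1, hf2⟩ := hG
  have hcount : Countable (Wreath L G X) := by
    let F : Wreath L G X → (Σ E : Finset X, (E → L) × G) := fun a =>
      ⟨a.fin.toFinset, fun x => a.fn x, a.pt⟩
    refine Function.Injective.countable (f := F) ?_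
    intro a b hab
    have h1 : a.fin.toFinset = b.fin.toFinset := congrArg Sigma.fst hab
    have key : ∀ (E E' : Finset X) (_ : E = E') (p : (E → L) × G) (q : (E' → L) × G),
        (⟨E, p⟩ : Σ E : Finset X, (E → L) × G) = ⟨E', q⟩ →
        p.2 = q.2 ∧ ∀ (x : X) (hx : x ∈ E) (hx' : x ∈ E'), p.1 ⟨x, hx⟩ = q.1 ⟨x, hx'⟩ := by
      rintro E E' rfl p q hpq
      have hpq' : p = q := eq_of_heq (Sigma.mk.inj hpq).2
      subst hpq'
      exact ⟨rfl, fun _ _ _ => rfl⟩
    obtain ⟨h2, h3⟩ := key _ _ h1 _ _ hab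
    refine Wreath.ext (funext fun x => ?_) h2
    by_cases hx : x ∈ a.fin.toFinset
    · exact h3 x hx (h1 ▸ hx)
    · have hx' : x ∉ b.fin.toFinset := h1 ▸ hx
      rw [Set.Finite.mem_toFinset, Set.mem_ofPred_eq, not_not] at hx hx'
      rw [hx, hx']
  refine haagerup_of_seq fun F ε hε => ?_
  -- the angles
  obtain ⟨a, a1, a2, a3, a4⟩ := h.exists_fun (F.image fun s : Wreath L G X => s.pt⁻¹)
    (F.biUnion fun s : Wreath L G X => s.fin.toFinset) ε hε
  let θ : X → ℝ := fun x => π / 4 * a x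
  have hθ0 : ∀ x, θ x ≠ 0 → a x ≠ 0 := by
    intro x hx h1
    apply hx
    simp only [θ, h1, mul_zero]
  obtain ⟨K, k1, k2, k3, k4, k5, k6⟩ := exists_ker (L := L) (G := G) hL θ
    (a3.subset fun x hx => hθ0 x hx)
  have hKs : ∀ s ∈ F, 1 - K s 1 ≤ ε / 2 := by
    intro s hs
    obtain ⟨T, hT⟩ := k5 s 1
    rw [hT T subset_rfl]
    have e1 : ∀ x, cos (ang θ s x - ang θ (1 : Wreath L G X) x) = cos (θ (s.pt⁻¹ • x) - θ x) := by
      intro x
      rw [ang, ang, Wreath.one_fn, if_pos rfl, Wreath.one_pt, inv_one, one_smul]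
      by_cases hx : s.fn x = 1
      · rw [if_pos hx]
      · rw [if_neg hx]
        have h1 : a x = 1 := a2 x (Finset.mem_biUnion.mpr ⟨s, hs, by
          rw [Set.Finite.mem_toFinset]; exact hx⟩)
        have h2 : θ x = π / 4 := by simp only [θ, h1, mul_one]
        rw [h2, ← cos_neg]
        congr 1
        ring
    have e2 : ∏ x ∈ T, cos (ang θ s x - ang θ (1 : Wreath L G X) x) =
        ∏ x ∈ T, (1 - (1 - cos (θ (s.pt⁻¹ • x) - θ x))) := by
      refine Finset.prod_congr rfl fun x _ => ?_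
      rw [e1]
      ring
    have hpi := pi_pos
    have hd : ∀ x, |θ (s.pt⁻¹ • x) - θ x| ≤ π / 4 := by
      intro x
      have h1 := a1 (s.pt⁻¹ • x)
      have h2 := a1 x
      rw [abs_le]
      constructor
      · simp only [θ]
        nlinarith
      · simp only [θ]
        nlinarith
    have hy0 : ∀ x ∈ T, 0 ≤ 1 - cos (θ (s.pt⁻¹ • x) - θ x) := fun x _ => by
      linarith [cos_le_one (θ (s.pt⁻¹ • x) - θ x)]
    have hy1 : ∀ x ∈ T, 1 - cos (θ (s.pt⁻¹ • x) - θ x) ≤ 1 := fun x _ => by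
      have h1 := abs_le.mp (hd x)
      have h2 : 0 ≤ cos (θ (s.pt⁻¹ • x) - θ x) :=
        cos_nonneg_of_neg_pi_div_two_le_of_le (by linarith) (by linarith)
      linarith
    obtain ⟨p1, -, -⟩ := prod_ge T _ hy0 hy1
    rw [e2]
    have h3 : ∑ x ∈ T, (1 - cos (θ (s.pt⁻¹ • x) - θ x)) ≤
        ∑ x ∈ T, (1 / 2) * (a (s.pt⁻¹ • x) - a x) ^ 2 := by
      refine Finset.sum_le_sum fun x _ => ?_
      have h4 := one_sub_sq_div_two_le_cos (x := θ (s.pt⁻¹ • x) - θ x)
      have h5 : (θ (s.pt⁻¹ • x) - θ x) ^ 2 ≤ (a (s.pt⁻¹ • x) - a x) ^ 2 := by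
        have h6 : θ (s.pt⁻¹ • x) - θ x = π / 4 * (a (s.pt⁻¹ • x) - a x) := by
          simp only [θ]
          ring
        rw [h6, mul_pow]
        have h7 : (π / 4) ^ 2 ≤ 1 := by
          have := pi_le_four
          nlinarith
        nlinarith [sq_nonneg (a (s.pt⁻¹ • x) - a x)]
      linarith
    rw [← Finset.mul_sum] at h3
    have h4 := a4 s.pt⁻¹ (Finset.mem_image_of_mem _ hs) T
    linarith
  -- the other factor
  let N : Wreath L G X → ℝ := fun s => ‖f s.pt - f 1‖ ^ 2
  let t : ℝ := ε / 2 / (1 + ∑ s ∈ F, N s)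
  have hN0 : ∀ s, 0 ≤ N s := fun s => sq_nonneg _
  have hsum0 : 0 ≤ ∑ s ∈ F, N s := Finset.sum_nonneg fun s _ => hN0 s
  have ht : 0 < t := by positivity
  have hS := Ker.schoenberg (fun γ : Wreath L G X => f γ.pt) ht.le
  obtain ⟨H₁, j1, j2, j3, φ, hφ⟩ := hS.kolmogorov
  refine ⟨fun a b => K a b * inner ℝ (φ a) (φ b), k1.mul_inner φ, ?_, ?_, ?_, ?_⟩
  · intro δ a b
    beta_reduce
    rw [hφ, hφ, k2, Wreath.mul_pt, Wreath.mul_pt, hf1]
  · intro a
    beta_reduce
    rw [hφ, k3]
    simp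
  · intro s hs
    beta_reduce
    rw [hφ]
    have h1 := hKs s hs
    have h2 : 1 - Real.exp (-t * N s) ≤ ε / 2 := by
      have h3 := Real.add_one_le_exp (-t * N s)
      have h4 : t * N s ≤ ε / 2 := by
        have h5 : N s ≤ 1 + ∑ s ∈ F, N s := by
          have := Finset.single_le_sum (f := N) (fun s _ => hN0 s) hs
          linarith
        calc t * N s ≤ t * (1 + ∑ s ∈ F, N s) := mul_le_mul_of_nonneg_left h5 ht.le
          _ = ε / 2 := by
            simp only [t]
            field_simp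
      linarith
    have h3 : Real.exp (-t * N s) ≤ 1 := Real.exp_le_one_iff.mpr (by
      have := mul_nonneg ht.le (hN0 s)
      linarith)
    have h4 := k4 s 1
    have h5 : 0 ≤ (1 - K s 1) * (1 - Real.exp (-t * N s)) :=
      mul_nonneg (by linarith) (by linarith)
    have h6 : ‖f s.pt - f (1 : Wreath L G X).pt‖ ^ 2 = N s := rfl
    rw [h6]
    nlinarith
  · intro δ hδ
    have hP : {g : G | ‖f g - f 1‖ ≤ Real.sqrt (-Real.log δ / t)}.Finite := hf2 _
    let E : Finset X := a3.toFinset ∪ hP.toFinset.biUnion fun g => a3.toFinset.image fun x => g • x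
    refine (wr_finite hP E (Set.toFinite (Set.univ : Set L))).subset ?_
    intro s hs
    have hs' : δ ≤ K s 1 * inner ℝ (φ s) (φ 1) := hs
    rw [hφ] at hs'
    have h6 : ‖f s.pt - f (1 : Wreath L G X).pt‖ ^ 2 = N s := rfl
    rw [h6] at hs'
    have he := Real.exp_pos (-t * N s)
    have hK0 : 0 < K s 1 := by
      by_contra hcon
      have := mul_nonpos_of_nonpos_of_nonneg (not_lt.mp hcon) he.le
      linarith
    have h1 : δ ≤ Real.exp (-t * N s) := by
      have h2 := k4 s 1
      nlinarith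
    have h2 : Real.log δ ≤ -t * N s := by
      have := Real.log_le_log hδ h1
      rwa [Real.log_exp] at this
    have hpt : s.pt ∈ {g : G | ‖f g - f 1‖ ≤ Real.sqrt (-Real.log δ / t)} := by
      show ‖f s.pt - f 1‖ ≤ _
      apply Real.le_sqrt_of_sq_le
      rw [le_div_iff₀ ht]
      have h3 : ‖f s.pt - f 1‖ ^ 2 = N s := rfl
      rw [h3]
      linarith
    refine ⟨hpt, fun x hx => ?_, fun _ _ => Set.mem_univ _⟩
    by_contra hcon
    apply hx
    rcases k6 s hK0.ne' x hcon with h3 | h3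
    · refine Finset.mem_union_left _ ?_
      rw [Set.Finite.mem_toFinset]
      exact hθ0 x h3
    · refine Finset.mem_union_right _ (Finset.mem_biUnion.mpr ⟨s.pt, ?_, ?_⟩)
      · rw [Set.Finite.mem_toFinset]
        exact hpt
      · refine Finset.mem_image.mpr ⟨s.pt⁻¹ • x, ?_, smul_inv_smul _ _⟩
        rw [Set.Finite.mem_toFinset]
        exact hθ0 _ h3

end Pool.Agent.H829.CE
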