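import Pool.Agent.H829.CE.HgFib
import Pool.Agent.H829.CE.HgRec
import Pool.Agent.H829.EG.Rec

/-!
# The Haagerup property through cofinite subgroupoids
-/

set_option autoImplicit false

namespace Pool.Agent.H829.CE

open Pool.Agent.H829.EG Pool.Agent.N506.EX Finsupp

universe u v w

/-- Extensively amenable actions (Juschenko, Matte Bon, Monod, de la Salle), in the form of Reiter:
for every finite subset `S` of `G`, every finite subset `E₀` of `X` and every `ε > 0` there is a
finitely supported probability measure `m` on the set of finite subsets of `X`, carried by the sets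
that contain `E₀`, such that the `ℓ¹`-distance of `m` and its translate is at most `ε`, for all `s` in
`S`. -/
def ExtensivelyAmenable (G : Type u) (X : Type v) [Group G] [MulAction G X] : Prop :=
  ∀ (S : Finset G) (E₀ : Finset X) (ε : ℝ), 0 < ε →
    ∃ m : Finset X →₀ ℝ, (∀ A, 0 ≤ m A) ∧ (m.sum fun _ t => t) = 1 ∧
      (∀ A, m A ≠ 0 → E₀ ⊆ A) ∧
      ∀ s ∈ S, ∀ T : Finset (Finset X),
        ∑ A ∈ T, |m (A.map (MulAction.toPerm s).toEmbedding) - m A| ≤ ε

section

variable {G : Type u} {X : Type v} [Group G] [MulAction G X]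

theorem sm_inj (s : G) : Function.Injective (sm (X := X) s) := by
  intro A B h
  have h1 := congrArg (sm s⁻¹) h
  rwa [← sm_mul, ← sm_mul, inv_mul_cancel, sm_one, sm_one] at h1

/-- **The Haagerup property through a cofinite subgroupoid.** -/
theorem haagerup_of_offSubgroup [Countable G] (H : CofiniteSubgroupoid G X)
    (hX : ExtensivelyAmenable G X) (hE : ∀ E : Finset X, Haagerup (H.offSubgroup E)) :
    Haagerup G := by
  classical
  refine haagerup_fibration (Z := Mk H) (I := Finset X) fun F ε hε => ?_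
  let E₀ : Finset X := F.biUnion fun s => (H.cofinite s).toFinset
  have hE₀ : ∀ s ∈ F, ∀ x, ¬ H.Mem s x → x ∈ E₀ := by
    intro s hs x hx
    exact Finset.mem_biUnion.mpr ⟨s, hs, (Set.Finite.mem_toFinset _).mpr hx⟩
  obtain ⟨m, m0, m1, m2, m3⟩ := hX F E₀ ε hε
  have hm1 : ∑ A ∈ m.support, m A = 1 := m1
  refine ⟨m.support, fun A => mkq H ((1 : G), A), fun A => √(m A), ?_, ?_, ?_, ?_, ?_⟩
  · intro A _ B _ h
    exact ((mkq_eq H).mp h).1
  · intro A _
    exact Real.sqrt_nonneg _
  · rw [← hm1]
    exact Finset.sum_congr rfl fun A _ => Real.sq_sqrt (m0 A)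
  · intro A _
    refine (hE A).of_injective
      (Subgroup.inclusion (fun g hg => (mem_stab_iff H A g).mp hg)) ?_
    exact Subgroup.inclusion_injective _
  · intro s hs
    refine ⟨m.support.filter fun A => sm s A ∈ m.support, sm s, Finset.filter_subset _ _,
      (sm_inj s).injOn, ?_, ?_⟩
    · intro A hA
      obtain ⟨hA1, hA2⟩ := Finset.mem_filter.mp hA
      refine ⟨hA2, ?_⟩
      rw [smul_mk]
      refine (mkq_eq H).mpr ⟨rfl, fun x hx => ?_⟩
      simp only [mul_one, inv_one, one_smul]
      have h1 : H.Mem s (s⁻¹ • x) := by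
        by_contra hcon
        have h2 := m2 A (Finsupp.mem_support_iff.mp hA1) (hE₀ s hs _ hcon)
        exact hx (mem_sm.mpr h2)
      have h2 := H.inv s _ h1
      rwa [smul_inv_smul] at h2
    · let U : Finset (Finset X) := m.support ∪ m.support.image (sm s⁻¹)
      have hU1 : ∑ A ∈ U, m A = 1 := by
        rw [← hm1]
        symm
        refine Finset.sum_subset Finset.subset_union_left fun A _ hA => ?_
        exact Finsupp.notMem_support_iff.mp hA
      have hU2 : ∑ A ∈ U, m (sm s A) = 1 := by
        rw [← hm1]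
        have h1 : ∑ A ∈ m.support.image (sm s⁻¹), m (sm s A) = ∑ A ∈ m.support, m A := by
          rw [Finset.sum_image fun a _ b _ h => sm_inj s⁻¹ h]
          refine Finset.sum_congr rfl fun A _ => ?_
          rw [← sm_mul, mul_inv_cancel, sm_one]
        rw [← h1]
        symm
        refine Finset.sum_subset Finset.subset_union_right fun A _ hA => ?_
        by_contra hcon
        refine hA (Finset.mem_image.mpr ⟨sm s A, Finsupp.mem_support_iff.mpr hcon, ?_⟩)
        rw [← sm_mul, inv_mul_cancel, sm_one]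
      have hV : ∑ A ∈ m.support.filter (fun A => sm s A ∈ m.support), √(m A) * √(m (sm s A)) =
          ∑ A ∈ U, √(m A) * √(m (sm s A)) := by
        refine Finset.sum_subset ((Finset.filter_subset _ _).trans Finset.subset_union_left)
          fun A _ hA => ?_
        by_cases h1 : m A = 0
        · rw [h1, Real.sqrt_zero, zero_mul]
        · have h2 : m (sm s A) = 0 := by
            by_contra hcon
            exact hA (Finset.mem_filter.mpr ⟨Finsupp.mem_support_iff.mpr h1,
              Finsupp.mem_support_iff.mpr hcon⟩)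
          rw [h2, Real.sqrt_zero, mul_zero]
      rw [hV]
      have h3 := m3 s hs U
      have h4 : ∑ A ∈ U, (m A / 2 + m (sm s A) / 2 - √(m A) * √(m (sm s A))) ≤
          ∑ A ∈ U, |m (A.map (MulAction.toPerm s).toEmbedding) - m A| := by
        refine Finset.sum_le_sum fun A _ => ?_
        show _ ≤ |m (sm s A) - m A|
        have h5 := Real.sq_sqrt (m0 A)
        have h6 := Real.sq_sqrt (m0 (sm s A))
        have h7 := Real.sqrt_nonneg (m A)
        have h8 := Real.sqrt_nonneg (m (sm s A))
        rcases le_total (m A) (m (sm s A)) with h9 | h9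
        · rw [abs_of_nonneg (sub_nonneg.mpr h9)]
          have h10 := Real.sqrt_le_sqrt h9
          nlinarith
        · rw [abs_of_nonpos (sub_nonpos.mpr h9)]
          have h10 := Real.sqrt_le_sqrt h9
          nlinarith
      rw [Finset.sum_sub_distrib, Finset.sum_add_distrib, ← Finset.sum_div, ← Finset.sum_div, hU1,
        hU2] at h4
      linarith

theorem pm_sm (θ : X → ℝ) (W A : Finset X) (s : G) :
    pm θ W (sm s A) = pm (fun x => θ (s • x)) (sm s⁻¹ W) A := by
  classical
  have h1 : sm s A ⊆ W ↔ A ⊆ sm s⁻¹ W := by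
    constructor
    · intro h x hx
      rw [mem_sm, inv_inv]
      exact h (mem_sm.mpr (by rwa [inv_smul_smul]))
    · intro h x hx
      have h2 := h (mem_sm.mp hx)
      rwa [mem_sm, inv_inv, smul_inv_smul] at h2
  rw [pm_apply, pm_apply]
  by_cases h : sm s A ⊆ W
  · rw [if_pos (Finset.mem_powerset.mpr h), if_pos (Finset.mem_powerset.mpr (h1.mp h))]
    congr 1
    rw [EG.pw, EG.pw]
    have e1 : W \ sm s A = sm s (sm s⁻¹ W \ A) := by
      ext x
      rw [mem_sm, Finset.mem_sdiff, Finset.mem_sdiff, mem_sm, mem_sm, inv_inv, smul_inv_smul]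
    rw [e1]
    simp only [sm]
    rw [Finset.prod_map, Finset.prod_map]
    rfl
  · rw [if_neg (fun h2 => h (Finset.mem_powerset.mp h2)),
      if_neg (fun h2 => h (h1.mpr (Finset.mem_powerset.mp h2)))]

/-- Recurrent actions are extensively amenable. -/
theorem RecurrentAction.extensivelyAmenable (h : RecurrentAction G X) : ExtensivelyAmenable G X := by
  classical
  intro S E₀ ε hε
  obtain ⟨a, a1, a2, a3, a4⟩ := h.exists_fun S E₀ ((ε / 4) ^ 2) (by positivity)
  let θ : X → ℝ := fun x => Real.pi / 2 * a x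
  have hpi := Real.pi_pos
  have hθ : ∀ x, 0 ≤ θ x ∧ θ x ≤ Real.pi / 2 := by
    intro x
    have h1 := a1 x
    exact ⟨mul_nonneg (by positivity) h1.1, mul_le_of_le_one_right (by positivity) h1.2⟩
  let W : Finset X := a3.toFinset ∪ E₀
  have hW : ∀ x, x ∉ W → θ x = 0 := by
    intro x hx
    have h1 : a x = 0 := by
      by_contra hcon
      exact hx (Finset.mem_union_left _ ((Set.Finite.mem_toFinset _).mpr hcon))
    simp only [θ, h1, mul_zero]
  refine ⟨pm θ W, pm_nonneg _ _, pm_sum _ _, fun A hA x hx => ?_, fun s hs T => ?_⟩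
  · refine pm_mem θ (W := W) (Finset.mem_union_right _ hx) ?_ hA
    simp only [θ, a2 x hx, mul_one]
  · let W' : Finset X := W ∪ sm s⁻¹ W
    have e1 : pm θ W = pm θ W' :=
      (pm_enlarge θ Finset.subset_union_left fun x _ hx => hW x hx).symm
    have e2 : pm (fun x => θ (s • x)) (sm s⁻¹ W) = pm (fun x => θ (s • x)) W' := by
      refine (pm_enlarge _ Finset.subset_union_right fun x _ hx => ?_).symm
      refine hW _ fun h1 => hx ?_
      rwa [mem_sm, inv_inv]
    have e3 : ∑ A ∈ T, |pm θ W (A.map (MulAction.toPerm s).toEmbedding) - pm θ W A| ≤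
        l1 (pm (fun x => θ (s • x)) W' - pm θ W') := by
      have h1 : ∀ A, |pm θ W (A.map (MulAction.toPerm s).toEmbedding) - pm θ W A| =
          |(pm (fun x => θ (s • x)) W' - pm θ W') A| := by
        intro A
        rw [Finsupp.sub_apply, ← e1, ← e2, ← pm_sm]
        rfl
      rw [Finset.sum_congr rfl fun A _ => h1 A]
      have h2 := l1_eq (pm (fun x => θ (s • x)) W' - pm θ W')
        (T ∪ (pm (fun x => θ (s • x)) W' - pm θ W').support) Finset.subset_union_right
      rw [h2]
      exact Finset.sum_le_sum_of_subset_of_nonneg Finset.subset_union_left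
        fun A _ _ => abs_nonneg _
    refine e3.trans ((pm_l1 _ _ _ (fun x _ => hθ (s • x)) (fun x _ => hθ x)).trans ?_)
    have i3 : ∑ x ∈ W', (θ (s • x) - θ x) ^ 2 ≤ (Real.pi / 2) ^ 2 * (ε / 4) ^ 2 := by
      have i4 : ∑ x ∈ W', (θ (s • x) - θ x) ^ 2 =
          (Real.pi / 2) ^ 2 * ∑ x ∈ W', (a (s • x) - a x) ^ 2 := by
        rw [Finset.mul_sum]
        refine Finset.sum_congr rfl fun x _ => ?_
        simp only [θ]
        ring
      rw [i4]
      exact mul_le_mul_of_nonneg_left (a4 s hs _) (by positivity)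
    have i6 : Real.sqrt (∑ x ∈ W', (θ (s • x) - θ x) ^ 2) ≤ Real.pi / 2 * (ε / 4) := by
      refine Real.sqrt_le_iff.mpr ⟨by positivity, ?_⟩
      rw [mul_pow]
      exact i3
    have i7 : Real.pi ≤ 4 := Real.pi_le_four
    nlinarith

end

end Pool.Agent.H829.CE
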