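import Pool.Agent.H829.CE.HgOff
import Pool.Agent.H829.CE.Wr

/-!
# Permanence properties of the Haagerup property, wreath products over extensively amenable actions
-/

set_option autoImplicit false

namespace Pool.Agent.H829.CE

open Pool.Agent.H829.EG Pool.Agent.H818.CS Finsupp

universe u v w

/-- Homomorphisms with finite kernel. -/
theorem haagerup_of_hom {P Q : Type u} [Group P] [Group Q] (hQ : Haagerup Q) (q : P →* Q)
    (hker : {p | q p = 1}.Finite) : Haagerup P := by
  obtain ⟨H₀, j1, j2, j3, f, hf1, hf2⟩ := hQ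
  refine ⟨H₀, j1, j2, j3, fun p => f (q p), fun a b c => ?_, fun C => ?_⟩
  · beta_reduce
    rw [map_mul, map_mul, hf1]
  · have h1 : (q ⁻¹' {s | ‖f s - f 1‖ ≤ C}).Finite := by
      refine Set.Finite.preimage' (hf2 C) fun b _ => ?_
      by_cases hb : ∃ p₀, q p₀ = b
      · obtain ⟨p₀, rfl⟩ := hb
        refine (hker.image fun p => p₀ * p).subset ?_
        intro p hp
        have hp' : q p = q p₀ := hp
        refine ⟨p₀⁻¹ * p, ?_, mul_inv_cancel_left _ _⟩
        show q (p₀⁻¹ * p) = 1
        rw [map_mul, map_inv, hp', inv_mul_cancel]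
      · refine (Set.finite_empty (α := P)).subset ?_
        intro p hp
        exact absurd ⟨p, hp⟩ hb
    refine h1.subset ?_
    intro p hp
    have h2 : ‖f (q p) - f (q 1)‖ ≤ C := hp
    rw [map_one] at h2
    exact h2

/-- Locally Haagerup groups. -/
theorem haagerup_of_closure {G : Type u} [Group G] [Countable G]
    (h : ∀ F : Finset G, Haagerup (Subgroup.closure (F : Set G))) : Haagerup G := by
  classical
  refine haagerup_of_seq fun F ε hε => ?_
  set P := Subgroup.closure (F : Set G) with hP
  let F' : Finset P := F.attach.image fun s => ⟨s.1, Subgroup.subset_closure s.2⟩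
  obtain ⟨φ, f1, f2, f3, f4, f5⟩ := (h F).exists_pd F' ε hε
  refine ⟨fun a b => ext0 P φ (b⁻¹ * a), ker_ext0 P φ f1, ?_, ?_, ?_, ?_⟩
  · intro δ a b
    beta_reduce
    congr 1
    group
  · intro a
    beta_reduce
    rw [inv_mul_cancel, ext0_mem P.one_mem]
    exact f2
  · intro s hs
    have hsP : s ∈ P := Subgroup.subset_closure hs
    beta_reduce
    rw [inv_one, one_mul, ext0_mem hsP]
    exact f4 _ (Finset.mem_image.mpr ⟨⟨s, hs⟩, Finset.mem_attach _ _, rfl⟩)
  · intro δ hδ
    refine (ext0_finite hδ (f5 δ hδ)).subset ?_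
    intro s hs
    have hs' : δ ≤ ext0 P φ (1⁻¹ * s) := hs
    rwa [inv_one, one_mul] at hs'

/-- Extensions with finite quotients. -/
theorem haagerup_of_finite_quotient {P : Type u} {Q : Type v} [Group P] [Countable P] [Group Q]
    [Finite Q] (q : P →* Q) (h : Haagerup q.ker) : Haagerup P := by
  classical
  have : Fintype Q := Fintype.ofFinite Q
  let act : MulAction P Q := MulAction.compHom Q q
  have hact : ∀ (p : P) (x : Q), p • x = q p * x := fun p x => rfl
  have hcard : (0 : ℝ) < Fintype.card Q := by exact_mod_cast Fintype.card_pos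
  refine haagerup_fibration (Z := Q) (I := Q) fun F ε hε => ?_
  have hsq : (√(Fintype.card Q : ℝ))⁻¹ ^ 2 = (Fintype.card Q : ℝ)⁻¹ := by
    rw [inv_pow, Real.sq_sqrt hcard.le]
  refine ⟨Finset.univ, id, fun _ => (√(Fintype.card Q : ℝ))⁻¹, Function.injective_id.injOn,
    fun _ _ => by positivity, ?_, ?_, ?_⟩
  · rw [Finset.sum_const, hsq, nsmul_eq_mul, Finset.card_univ]
    exact mul_inv_cancel₀ hcard.ne'
  · intro x _
    have hle : MulAction.stabilizer P (id x) ≤ q.ker := by
      intro p hp
      rw [MulAction.mem_stabilizer_iff, hact] at hp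
      exact mul_eq_right.mp hp
    exact h.of_injective (Subgroup.inclusion hle) (Subgroup.inclusion_injective hle)
  · intro s _
    refine ⟨Finset.univ, fun x => q s * x, subset_rfl, (mul_right_injective (q s)).injOn,
      fun x _ => ⟨Finset.mem_univ _, rfl⟩, ?_⟩
    rw [Finset.sum_const, ← sq, hsq, nsmul_eq_mul, Finset.card_univ, mul_inv_cancel₀ hcard.ne',
      sub_self]
    exact hε.le

/-- Finite products. -/
theorem haagerup_pi {k : ℕ} {Q : Fin k → Type u} [∀ i, Group (Q i)] (h : ∀ i, Haagerup (Q i)) :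
    Haagerup (∀ i, Q i) := by
  classical
  choose H j1 j2 j3 f hf1 hf2 using h
  have key : ∀ x y : ∀ i, Q i, ‖(WithLp.toLp 2 (fun i => f i (x i)) : PiLp 2 H) -
      WithLp.toLp 2 (fun i => f i (y i))‖ ^ 2 = ∑ i, ‖f i (x i) - f i (y i)‖ ^ 2 := by
    intro x y
    rw [PiLp.norm_sq_eq_of_L2]
    rfl
  refine ⟨PiLp 2 H, inferInstance, inferInstance, inferInstance,
    fun x => WithLp.toLp 2 (fun i => f i (x i)), fun a b c => ?_, fun C => ?_⟩
  · refine (sq_eq_sq₀ (norm_nonneg _) (norm_nonneg _)).mp ?_
    rw [key, key]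
    refine Finset.sum_congr rfl fun i _ => ?_
    rw [Pi.mul_apply, Pi.mul_apply, hf1]
  · refine (Set.Finite.pi' fun i => hf2 i C).subset ?_
    intro x hx i
    have hx' : ‖(WithLp.toLp 2 (fun i => f i (x i)) : PiLp 2 H) -
        WithLp.toLp 2 (fun i => f i ((1 : ∀ i, Q i) i))‖ ≤ C := hx
    have hC : 0 ≤ C := (norm_nonneg _).trans hx'
    have h4 := pow_le_pow_left₀ (norm_nonneg _) hx' 2
    rw [key] at h4
    have h5 := Finset.single_le_sum (f := fun i => ‖f i (x i) - f i ((1 : ∀ i, Q i) i)‖ ^ 2)
      (fun i _ => sq_nonneg _) (Finset.mem_univ i)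
    have h6 : ‖f i (x i) - f i 1‖ ^ 2 ≤ C ^ 2 := h5.trans h4
    exact (pow_le_pow_iff_left₀ (norm_nonneg _) hC two_ne_zero).mp h6

/-- Extensive amenability passes to actions through a homomorphism. -/
theorem extensivelyAmenable_comp {G : Type u} {G' : Type w} {X : Type v} [Group G] [Group G']
    [MulAction G X] [MulAction G' X] (π : G' →* G) (hπ : ∀ (g : G') (x : X), g • x = π g • x)
    (h : ExtensivelyAmenable G X) : ExtensivelyAmenable G' X := by
  classical
  intro S E₀ ε hε
  obtain ⟨m, h0, h1, h2, h3⟩ := h (S.image π) E₀ ε hε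
  refine ⟨m, h0, h1, h2, fun s hs T => ?_⟩
  have h4 := h3 (π s) (Finset.mem_image_of_mem _ hs) T
  have h5 : (MulAction.toPerm s : Equiv.Perm X) = MulAction.toPerm (π s) := by
    ext x
    exact hπ s x
  rw [h5]
  exact h4

/-- Wreath products of finite groups over extensively amenable actions. -/
theorem haagerup_wreath_finite {L : Type u} {G : Type u} {X : Type u} [Group L] [Group G]
    [MulAction G X] [Finite L] [Countable G] [Countable X] (hX : ExtensivelyAmenable G X)
    (hG : Haagerup G) : Haagerup (Wreath L G X) := by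
  classical
  let π : Wreath L G X →* G :=
    { toFun := fun a => a.pt
      map_one' := rfl
      map_mul' := fun _ _ => rfl }
  refine haagerup_of_offSubgroup (wrGpd L G X) (extensivelyAmenable_comp π (fun _ _ => rfl) hX)
    fun E => ?_
  refine haagerup_of_hom hG (π.comp ((wrGpd L G X).offSubgroup E).subtype) ?_
  refine Set.Finite.of_finite_image (f := fun a : (wrGpd L G X).offSubgroup E =>
    fun x : E => (a : Wreath L G X).fn x) (Set.toFinite _) ?_
  intro a ha b hb hab
  have ha' : (a : Wreath L G X).pt = 1 := ha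
  have hb' : (b : Wreath L G X).pt = 1 := hb
  apply Subtype.ext
  refine Wreath.ext (funext fun x => ?_) (ha'.trans hb'.symm)
  by_cases hx : x ∈ E
  · exact congrFun hab ⟨x, hx⟩
  · have h1 := a.2.2 x hx
    have h2 := b.2.2 x hx
    have h1' : (a : Wreath L G X).fn ((a : Wreath L G X).pt • x) = 1 := h1
    have h2' : (b : Wreath L G X).fn ((b : Wreath L G X).pt • x) = 1 := h2
    rw [ha', one_smul] at h1'
    rw [hb', one_smul] at h2'
    rw [h1', h2']

end Pool.Agent.H829.CE
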