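import Pool.Agent.H829.CE.HgMain

/-!
# The Haagerup property from a sequence of positive definite kernels
-/

set_option autoImplicit false

namespace Pool.Agent.H829.CE

open Pool.Agent.H818.CS Finsupp Filter

universe u v w

theorem haagerup_of_seq {Γ : Type u} [Group Γ] [Countable Γ]
    (h : ∀ (F : Finset Γ) (ε : ℝ), 0 < ε → ∃ K : Γ → Γ → ℝ, Ker K ∧
      (∀ δ a b, K (δ * a) (δ * b) = K a b) ∧ (∀ a, K a a = 1) ∧ (∀ s ∈ F, 1 - K s 1 ≤ ε) ∧
      ∀ δ : ℝ, 0 < δ → {s | δ ≤ K s 1}.Finite) : Haagerup Γ := by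
  classical
  obtain ⟨e, he⟩ := exists_surjective_nat Γ
  let F : ℕ → Finset Γ := fun n => (Finset.range (n + 1)).image e
  choose K hK hinv hdiag hF hfin using fun n : ℕ => h (F n) ((1 / 2) ^ n) (by positivity)
  have hkol := fun n => (hK n).kolmogorov
  choose H i1 i2 i3 ξ hξ using hkol
  have hsymm : ∀ n a b, K n a b = K n b a := fun n a b => (hK n).symm a b
  let k : ℕ → Γ → Γ → ℝ := fun n a b => inner ℝ (ξ n a - ξ n 1) (ξ n b - ξ n 1)
  have hk : ∀ n, Ker (k n) := fun n => Ker.inner' fun a => ξ n a - ξ n 1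
  have hnorm : ∀ n a b, ‖ξ n a - ξ n b‖ ^ 2 = 2 * (1 - K n a b) := by
    intro n a b
    rw [norm_sub_sq_real, ← real_inner_self_eq_norm_sq, ← real_inner_self_eq_norm_sq, hξ, hξ, hξ,
      hdiag, hdiag]
    ring
  have hev : ∀ a, ∀ᶠ n in atTop, ‖ξ n a - ξ n 1‖ ^ 2 ≤ 2 * (1 / 2) ^ n := by
    intro a
    obtain ⟨m, rfl⟩ := he a
    filter_upwards [eventually_ge_atTop m] with n hn
    rw [hnorm]
    have h1 := hF n (e m) (Finset.mem_image_of_mem e (Finset.mem_range.mpr (by omega)))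
    linarith
  have hgeo : Summable fun n : ℕ => 2 * ((1:ℝ) / 2) ^ n :=
    (summable_geometric_of_lt_one (by norm_num) (by norm_num)).mul_left 2
  have hsum : ∀ a b, Summable fun n => k n a b := by
    intro a b
    refine Summable.of_norm_bounded_eventually_nat hgeo ?_
    filter_upwards [hev a, hev b] with n ha hb
    have h1 : ‖k n a b‖ ≤ ‖ξ n a - ξ n 1‖ * ‖ξ n b - ξ n 1‖ := norm_inner_le_norm _ _
    nlinarith [sq_nonneg (‖ξ n a - ξ n 1‖ - ‖ξ n b - ξ n 1‖)]
  let L : Γ → Γ → ℝ := fun a b => ∑' n, k n a b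
  have hL : Ker L := Ker.of_hasSum hk fun a b => (hsum a b).hasSum
  obtain ⟨H', j1, j2, j3, η, hη⟩ := hL.kolmogorov
  have hdist : ∀ a b, HasSum (fun n => 2 * (1 - K n a b)) (‖η a - η b‖ ^ 2) := by
    intro a b
    have h1 : ‖η a - η b‖ ^ 2 = L a a - 2 * L a b + L b b := by
      rw [norm_sub_sq_real, ← real_inner_self_eq_norm_sq, ← real_inner_self_eq_norm_sq, hη, hη, hη]
    rw [h1]
    have h2 : (fun n => 2 * (1 - K n a b)) = fun n => k n a a - 2 * k n a b + k n b b := by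
      funext n
      rw [← hnorm]
      simp only [k]
      have h3 : ξ n a - ξ n b = (ξ n a - ξ n 1) - (ξ n b - ξ n 1) := by abel
      rw [h3, norm_sub_sq_real, ← real_inner_self_eq_norm_sq, ← real_inner_self_eq_norm_sq]
    rw [h2]
    exact ((hsum a a).hasSum.sub ((hsum a b).hasSum.mul_left 2)).add (hsum b b).hasSum
  refine ⟨H', j1, j2, j3, η, fun δ a b => ?_, fun C => ?_⟩
  · refine (sq_eq_sq₀ (norm_nonneg _) (norm_nonneg _)).mp ?_
    refine (hdist (δ * a) (δ * b)).unique ?_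
    simp only [hinv]
    exact hdist a b
  · obtain ⟨N, hN⟩ := exists_nat_gt (C ^ 2)
    refine ((Finset.range N).finite_toSet.biUnion fun n _ => hfin n (1 / 2) (by norm_num)).subset ?_
    intro s hs
    have hs' : ‖η s - η 1‖ ≤ C := hs
    have h1 : ‖η s - η 1‖ ^ 2 ≤ C ^ 2 := pow_le_pow_left₀ (norm_nonneg _) hs' 2
    by_contra hcon
    have h2 : ∀ n ∈ Finset.range N, K n s 1 < 1 / 2 := by
      intro n hn
      by_contra h3
      exact hcon (Set.mem_biUnion (Finset.mem_coe.mpr hn) (not_lt.mp h3))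
    have h3 : (N : ℝ) ≤ ∑ n ∈ Finset.range N, 2 * (1 - K n s 1) := by
      have h4 : ∑ n ∈ Finset.range N, (1:ℝ) ≤ ∑ n ∈ Finset.range N, 2 * (1 - K n s 1) :=
        Finset.sum_le_sum fun n hn => by linarith [h2 n hn]
      simpa using h4
    have h4 : ∑ n ∈ Finset.range N, 2 * (1 - K n s 1) ≤ ‖η s - η 1‖ ^ 2 :=
      sum_le_hasSum _ (fun n _ => by rw [← hnorm]; positivity) (hdist s 1)
    linarith

end Pool.Agent.H829.CE
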