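import Pool.Agent.H829.CE.HgTree3

/-!
# Groups generated by finitary automorphisms and a group of directed automorphisms
-/

set_option autoImplicit false

namespace Pool.Agent.H829.CE

open Pool.Agent.H829.EG

universe u v w

section

variable {G : Type u} {α : ℕ → Type v} [Group G] [MulAction G ((n : ℕ) → α n)]
  [hT : TreeAction G α]

/-- The extension of a word by the letters of `o`. -/
def extW (o : (n : ℕ) → α n) (n : ℕ) (w : (i : Fin n) → α i.1) : (n : ℕ) → α n :=
  fun i => if h : i < n then w ⟨i, h⟩ else o i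

theorem active_mul (o : (n : ℕ) → α n) (g h : G) (n : ℕ) :
    (activeVertices (α := α) (g * h) n).encard ≤
      (activeVertices (α := α) g n).encard + (activeVertices (α := α) h n).encard := by
  have h1 : activeVertices (α := α) (g * h) n ⊆
      (fun w => pre α n (h⁻¹ • extW o n w)) '' activeVertices (α := α) g n ∪
        activeVertices (α := α) h n := by
    rintro v ⟨x, hx, i, hi, hne⟩
    have hv : pre α n x = v := funext hx
    by_cases h2 : Reg h n x
    · left
      have h3 : ¬ Reg g n (h • x) := fun h3 => hne ((h2.mul h3) x (fun _ _ => rfl) i hi)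
      refine ⟨_, notMem_active h3, ?_⟩
      rw [← hv]
      funext j
      have h4 := TreeAction.agree h⁻¹ n (extW o n (pre α n (h • x))) (h • x)
        (fun k hk => dif_pos hk) j j.2
      rw [inv_smul_smul] at h4
      exact h4
    · right
      rw [← hv]
      exact notMem_active h2
  exact (Set.encard_le_encard h1).trans ((Set.encard_union_le _ _).trans
    (add_le_add (Set.encard_image_le _ _) le_rfl))

theorem active_inv (o : (n : ℕ) → α n) (g : G) (n : ℕ) :
    (activeVertices (α := α) g⁻¹ n).encard ≤ (activeVertices (α := α) g n).encard := by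
  have h1 : activeVertices (α := α) g⁻¹ n ⊆
      (fun w => pre α n (g • extW o n w)) '' activeVertices (α := α) g n := by
    rintro v ⟨x, hx, i, hi, hne⟩
    have hv : pre α n x = v := funext hx
    have h3 : ¬ Reg g n (g⁻¹ • x) := by
      intro h3
      have h5 := h3.inv
      rw [smul_inv_smul] at h5
      exact hne (h5 x (fun _ _ => rfl) i hi)
    refine ⟨_, notMem_active h3, ?_⟩
    rw [← hv]
    funext j
    have h4 := TreeAction.agree g n (extW o n (pre α n (g⁻¹ • x))) (g⁻¹ • x)
      (fun k hk => dif_pos hk) j j.2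
    rw [smul_inv_smul] at h4
    exact h4
  exact (Set.encard_le_encard h1).trans (Set.encard_image_le _ _)

/-- Eventually bounded activity of an element. -/
def BdAct (α : ℕ → Type v) [MulAction G ((n : ℕ) → α n)] (g : G) : Prop :=
  ∃ C N : ℕ, ∀ n, N ≤ n → (activeVertices (α := α) g n).encard ≤ C

theorem BdAct.mul (o : (n : ℕ) → α n) {g h : G} (hg : BdAct α g) (hh : BdAct α h) :
    BdAct α (g * h) := by
  obtain ⟨C, N, hg⟩ := hg
  obtain ⟨D, M, hh⟩ := hh
  refine ⟨C + D, max N M, fun n hn => (active_mul o g h n).trans ?_⟩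
  rw [Nat.cast_add]
  exact add_le_add (hg n ((le_max_left _ _).trans hn)) (hh n ((le_max_right _ _).trans hn))

theorem BdAct.inv (o : (n : ℕ) → α n) {g : G} (hg : BdAct α g) : BdAct α g⁻¹ := by
  obtain ⟨C, N, hg⟩ := hg
  exact ⟨C, N, fun n hn => (active_inv o g n).trans (hg n hn)⟩

omit hT in
theorem BdAct.one : BdAct α (1 : G) := by
  refine ⟨0, 0, fun n _ => ?_⟩
  have : activeVertices (α := α) (1 : G) n = ∅ := by
    rw [Set.eq_empty_iff_forall_notMem]
    rintro v ⟨x, -, i, -, hne⟩
    exact hne (by rw [one_smul])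
  rw [this]
  simp

theorem boundedActivity_of_closure (o : (n : ℕ) → α n) (T : Set G) (hT : Subgroup.closure T = ⊤)
    (h : ∀ t ∈ T, BdAct α t) : BoundedActivity G α := by
  classical
  have h1 : ∀ g : G, BdAct α g := by
    intro g
    have hg : g ∈ Subgroup.closure T := hT ▸ Subgroup.mem_top g
    induction hg using Subgroup.closure_induction with
    | mem x hx => exact h x hx
    | one => exact BdAct.one
    | mul x y _ _ hx hy => exact hx.mul o hy
    | inv x _ hx => exact hx.inv o
  choose C N h2 using h1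
  intro S
  refine ⟨S.sup C, fun M => ⟨max M (S.sup N), le_max_left _ _, fun s hs => ?_⟩⟩
  refine (h2 s _ ((Finset.le_sup (f := N) hs).trans (le_max_right _ _))).trans ?_
  exact_mod_cast Finset.le_sup (f := C) hs

end

section

variable {G : Type u} {α : ℕ → Type v} {B : Type u} [Group G] [Group B]
  [MulAction G ((n : ℕ) → α n)] [hT : TreeAction G α]

/-- Replace the first `n` letters by those of `o`. -/
def repl (o : (n : ℕ) → α n) (n : ℕ) (y : (n : ℕ) → α n) : (n : ℕ) → α n :=
  fun i => if i < n then o i else y i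

/-- Cofinality with `o`. -/
def Cof (o x : (n : ℕ) → α n) : Prop := ∃ n, ∀ i, n ≤ i → x i = o i

/-- Near `x` the element `g` acts on the tails like `b` near `o`. -/
def GermLike (o : (n : ℕ) → α n) (β : B →* G) (g : G) (x : (n : ℕ) → α n) (b : B) (n : ℕ) : Prop :=
  (∀ i, n ≤ i → x i = o i) ∧ ∀ y : (n : ℕ) → α n, (∀ i < n, y i = x i) → ∀ i, n ≤ i →
    (g • y) i = (β b • repl o n y) i

variable {o : (n : ℕ) → α n} {β : B →* G}

omit hT in
theorem GermLike.mono {g : G} {x : (n : ℕ) → α n} {b : B} {n m : ℕ} (h : GermLike o β g x b n)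
    (hnm : n ≤ m) : GermLike o β g x b m := by
  refine ⟨fun i hi => h.1 i (hnm.trans hi), fun y hy i hi => ?_⟩
  have h1 : repl o m y = repl o n y := by
    funext j
    unfold repl
    by_cases hj : j < n
    · rw [if_pos hj, if_pos (hj.trans_le hnm)]
    · rw [if_neg hj]
      by_cases hjm : j < m
      · rw [if_pos hjm, hy j hjm, h.1 j (not_lt.mp hj)]
      · rw [if_neg hjm]
  rw [h1]
  exact h.2 y (fun j hj => hy j (hj.trans_le hnm)) i (hnm.trans hi)

variable (hfix : ∀ b : B, β b • o = o)

include hfix

theorem repl_fix (b : B) (n : ℕ) (y : (n : ℕ) → α n) (i : ℕ) (hi : i < n) :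
    (β b • repl o n y) i = o i := by
  have h1 := TreeAction.agree (β b) n (repl o n y) o (fun j hj => if_pos hj) i hi
  rw [h1, hfix]

theorem GermLike.mul {g h : G} {x : (n : ℕ) → α n} {b c : B} {n m : ℕ}
    (hg : GermLike o β g (h • x) b n) (hh : GermLike o β h x c m) :
    GermLike o β (g * h) x (b * c) (max n m) := by
  have hg := hg.mono (le_max_left n m)
  have hh := hh.mono (le_max_right n m)
  refine ⟨hh.1, fun y hy i hi => ?_⟩
  have h1 : repl o (max n m) (h • y) = β c • repl o (max n m) y := by
    funext j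
    by_cases hj : j < max n m
    · rw [repl_fix hfix c _ y j hj]
      exact if_pos hj
    · have h2 := hh.2 y hy j (not_lt.mp hj)
      rw [← h2]
      exact if_neg hj
  rw [mul_smul, hg.2 (h • y) (TreeAction.agree h _ y x hy) i hi, h1, map_mul, mul_smul]

theorem GermLike.inv {g : G} {x : (n : ℕ) → α n} {b : B} {n : ℕ}
    (hg : GermLike o β g x b n) : GermLike o β g⁻¹ (g • x) b⁻¹ n := by
  have h0 : repl o n x = o := by
    funext j
    unfold repl
    split_ifs with hj
    · rfl
    · exact hg.1 j (not_lt.mp hj)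
  refine ⟨fun i hi => ?_, fun y hy i hi => ?_⟩
  · rw [hg.2 x (fun _ _ => rfl) i hi, h0, hfix]
  · have h1 : ∀ j < n, (g⁻¹ • y) j = x j := by
      intro j hj
      have := TreeAction.agree g⁻¹ n y (g • x) hy j hj
      rwa [inv_smul_smul] at this
    have h2 : repl o n y = β b • repl o n (g⁻¹ • y) := by
      funext j
      by_cases hj : j < n
      · rw [repl_fix hfix b _ _ j hj]
        exact if_pos hj
      · have h3 := hg.2 (g⁻¹ • y) h1 j (not_lt.mp hj)
        rw [smul_inv_smul] at h3
        rw [← h3]
        exact if_neg hj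
    rw [h2, map_inv, inv_smul_smul]
    exact (if_neg (not_lt.mpr hi)).symm

variable (hinj : ∀ b : B, (∃ n, ∀ y : (n : ℕ) → α n, (∀ i < n, y i = o i) → β b • y = y) → b = 1)

include hinj

theorem GermLike.unique {g : G} {x : (n : ℕ) → α n} {b c : B} {n m : ℕ}
    (hb : GermLike o β g x b n) (hc : GermLike o β g x c m) : b = c := by
  have hb := hb.mono (le_max_left n m)
  have hc := hc.mono (le_max_right n m)
  set k := max n m
  have h1 : ∀ z : (n : ℕ) → α n, (∀ i < k, z i = o i) → β b • z = β c • z := by
    intro z hz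
    let y : (n : ℕ) → α n := fun i => if i < k then x i else z i
    have hy : repl o k y = z := by
      funext j
      by_cases hj : j < k
      · rw [hz j hj]
        exact if_pos hj
      · have h2 : y j = z j := if_neg hj
        rw [← h2]
        exact if_neg hj
    have hyx : ∀ i < k, y i = x i := fun i hi => if_pos hi
    funext i
    by_cases hi : i < k
    · rw [← hy, repl_fix hfix b k y i hi, repl_fix hfix c k y i hi]
    · have h3 := hb.2 y hyx i (not_lt.mp hi)
      have h4 := hc.2 y hyx i (not_lt.mp hi)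
      rw [hy] at h3 h4
      rw [← h3, ← h4]
  have h2 : c⁻¹ * b = 1 := by
    refine hinj _ ⟨k, fun y hy => ?_⟩
    rw [map_mul, map_inv, mul_smul, h1 y hy, inv_smul_smul]
  rw [inv_mul_eq_one] at h2
  exact h2.symm

omit hinj

variable (T : Set G) (hcl : Subgroup.closure (Set.range β ∪ T) = ⊤)
  (hreg : ∀ (b : B) (x : (n : ℕ) → α n), x ≠ o → ∃ n, Reg (β b) n x)
  (hfin : ∀ t ∈ T, ∃ N, ∀ x : (n : ℕ) → α n, Reg t N x)

include hcl hreg hfin

theorem germ_data (g : G) : (∀ x : (n : ℕ) → α n, Cof o (g • x) ↔ Cof o x) ∧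
    (∀ x : (n : ℕ) → α n, Cof o x → ∃ b n, GermLike o β g x b n) ∧
    (∀ x : (n : ℕ) → α n, ¬ Cof o x → ∃ n, Reg g n x) := by
  classical
  have hcof : ∀ (g : G) (x : (n : ℕ) → α n) (n : ℕ), Reg g n x → (Cof o (g • x) ↔ Cof o x) := by
    intro g x n h
    have h1 : ∀ i, n ≤ i → (g • x) i = x i := fun i hi => h x (fun _ _ => rfl) i hi
    constructor
    · rintro ⟨m, hm⟩
      exact ⟨max n m, fun i hi => by
        rw [← h1 i ((le_max_left _ _).trans hi), hm i ((le_max_right _ _).trans hi)]⟩
    · rintro ⟨m, hm⟩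
      exact ⟨max n m, fun i hi => by
        rw [h1 i ((le_max_left _ _).trans hi), hm i ((le_max_right _ _).trans hi)]⟩
  have hgl : ∀ (g : G) (x : (n : ℕ) → α n) (n : ℕ), Reg g n x → Cof o x →
      ∃ b m, GermLike o β g x b m := by
    rintro g x n h ⟨m, hm⟩
    refine ⟨1, max n m, fun i hi => hm i ((le_max_right _ _).trans hi), fun y hy i hi => ?_⟩
    rw [map_one, one_smul, (h.mono (le_max_left n m)) y hy i hi]
    exact (if_neg (not_lt.mpr hi)).symm
  have hg : g ∈ Subgroup.closure (Set.range β ∪ T) := hcl ▸ Subgroup.mem_top g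
  induction hg using Subgroup.closure_induction with
  | mem s hs =>
    rcases hs with ⟨b, rfl⟩ | hs
    · refine ⟨fun x => ?_, fun x hx => ?_, fun x hx => ?_⟩
      · by_cases hxo : x = o
        · rw [hxo, hfix]
        · obtain ⟨n, hn⟩ := hreg b x hxo
          exact hcof _ _ n hn
      · by_cases hxo : x = o
        · subst hxo
          refine ⟨b, 0, fun _ _ => rfl, fun y _ i _ => ?_⟩
          have : repl x 0 y = y := by
            funext j
            exact if_neg (Nat.not_lt_zero j)
          rw [this]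
        · obtain ⟨n, hn⟩ := hreg b x hxo
          exact hgl _ _ n hn hx
      · exact hreg b x fun h => hx (h ▸ ⟨0, fun _ _ => rfl⟩)
    · obtain ⟨N, hN⟩ := hfin s hs
      exact ⟨fun x => hcof s x N (hN x), fun x hx => hgl s x N (hN x) hx, fun x _ => ⟨N, hN x⟩⟩
  | one =>
    exact ⟨fun x => hcof 1 x 0 (reg_one 0 x), fun x hx => hgl 1 x 0 (reg_one 0 x) hx,
      fun x _ => ⟨0, reg_one 0 x⟩⟩
  | mul g h _ _ hg hh =>
    refine ⟨fun x => ?_, fun x hx => ?_, fun x hx => ?_⟩
    · rw [mul_smul, hg.1, hh.1]
    · obtain ⟨c, m, hc⟩ := hh.2.1 x hx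
      obtain ⟨b, n, hb⟩ := hg.2.1 (h • x) ((hh.1 x).mpr hx)
      exact ⟨b * c, _, GermLike.mul hfix hb hc⟩
    · obtain ⟨m, hm⟩ := hh.2.2 x hx
      obtain ⟨n, hn⟩ := hg.2.2 (h • x) fun h1 => hx ((hh.1 x).mp h1)
      exact ⟨max n m, (hm.mono (le_max_right _ _)).mul (hn.mono (le_max_left _ _))⟩
  | inv g _ hg =>
    have hi : ∀ x : (n : ℕ) → α n, Cof o (g⁻¹ • x) ↔ Cof o x := by
      intro x
      have := hg.1 (g⁻¹ • x)
      rw [smul_inv_smul] at this
      exact this.symm
    refine ⟨hi, fun x hx => ?_, fun x hx => ?_⟩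
    · obtain ⟨b, n, hb⟩ := hg.2.1 (g⁻¹ • x) ((hi x).mpr hx)
      have h1 := GermLike.inv hfix hb
      rw [smul_inv_smul] at h1
      exact ⟨b⁻¹, n, h1⟩
    · obtain ⟨n, hn⟩ := hg.2.2 (g⁻¹ • x) fun h1 => hx ((hi x).mp h1)
      have h1 := hn.inv
      rw [smul_inv_smul] at h1
      exact ⟨n, h1⟩

include hinj

/-- The groups of germs embed in `B`. -/
theorem germ_embeds (x : (n : ℕ) → α n) : ∃ f : GermGroup G x →* B, Function.Injective f := by
  classical
  have hd := germ_data hfix T hcl hreg hfin
  by_cases hx : Cof o x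
  · choose b n hb using fun g : G => (hd g).2.1 x hx
    let f : MulAction.stabilizer G x →* B :=
      { toFun := fun g => b g
        map_one' := by
          have h1 : GermLike o β (1 : G) x 1 (n (1 : G)) := by
            refine ⟨(hb 1).1, fun y _ i hi => ?_⟩
            rw [map_one, one_smul, one_smul]
            exact (if_neg (not_lt.mpr hi)).symm
          exact GermLike.unique hfix hinj (hb ((1 : MulAction.stabilizer G x) : G)) h1
        map_mul' := fun g h => by
          have h1 : GermLike o β (g : G) ((h : G) • x) (b g) (n g) := by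
            rw [h.2]
            exact hb g
          exact GermLike.unique hfix hinj (hb ((g * h : MulAction.stabilizer G x) : G))
            (GermLike.mul hfix h1 (hb h)) }
    have hker : ∀ g : MulAction.stabilizer G x, g ∈ germKernel G x ↔ f g = 1 := by
      intro g
      constructor
      · rintro ⟨k, hk⟩
        obtain ⟨m, hm⟩ := hx
        have h1 : GermLike o β (g : G) x 1 (max k m) := by
          refine ⟨fun i hi => hm i ((le_max_right _ _).trans hi), fun y hy i hi => ?_⟩
          rw [hk y (fun j hj => hy j (lt_max_of_lt_left hj)), map_one, one_smul]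
          exact (if_neg (not_lt.mpr hi)).symm
        exact GermLike.unique hfix hinj (hb g) h1
      · intro h1
        have h2 : GermLike o β (g : G) x 1 (n g) := h1 ▸ hb g
        refine ⟨n g, fun y hy => ?_⟩
        funext i
        by_cases hi : i < n g
        · rw [TreeAction.agree (g : G) _ y x hy i hi, g.2, hy i hi]
        · rw [h2.2 y hy i (not_lt.mp hi), map_one, one_smul]
          exact if_neg hi
    refine ⟨QuotientGroup.lift (germKernel G x) f fun g hg => (hker g).mp hg, ?_⟩
    rw [injective_iff_map_eq_one]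
    intro q
    induction q using QuotientGroup.induction_on with
    | H g =>
      intro h
      exact (QuotientGroup.eq_one_iff g).mpr ((hker g).mpr h)
  · refine ⟨1, ?_⟩
    rw [injective_iff_map_eq_one]
    intro q _
    induction q using QuotientGroup.induction_on with
    | H g =>
      obtain ⟨n, hn⟩ := (hd (g : G)).2.2 x hx
      refine (QuotientGroup.eq_one_iff g).mpr ⟨n, fun y hy => ?_⟩
      funext i
      by_cases hi : i < n
      · rw [TreeAction.agree (g : G) _ y x hy i hi, g.2, hy i hi]
      · exact hn y hy i (not_lt.mp hi)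

theorem spine_haagerup [Countable G] [FaithfulSMul G ((n : ℕ) → α n)] [∀ n, Finite (α n)]
    (hact : ∀ b : B, BdAct α (β b)) (hB : Haagerup B) (hco : Coherent B) : Haagerup G := by
  classical
  have hb : BoundedActivity G α := by
    refine boundedActivity_of_closure o _ hcl ?_
    rintro s (⟨b, rfl⟩ | hs)
    · exact hact b
    · obtain ⟨N, hN⟩ := hfin s hs
      refine ⟨0, N, fun n hn => ?_⟩
      have : activeVertices (α := α) s n = ∅ := by
        rw [Set.eq_empty_iff_forall_notMem]
        rintro v ⟨x, -, i, hi, hne⟩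
        exact hne (((hN x).mono hn) x (fun _ _ => rfl) i hi)
      rw [this]
      simp
  refine tree_haagerup_of_sing (fun g => sing_finite hb g) (tree_recurrent hb).extensivelyAmenable
    fun x => ?_
  obtain ⟨f, hf⟩ := germ_embeds hfix hinj T hcl hreg hfin x
  refine ⟨⊤, inferInstance, ?_, ?_, ?_⟩
  · intro n φ
    obtain ⟨R, hR⟩ := hco n ((f.comp (Subgroup.subtype ⊤)).comp φ)
    refine ⟨R, ?_⟩
    rw [← hR]
    ext w
    rw [MonoidHom.mem_ker, MonoidHom.mem_ker]
    constructor
    · intro h
      rw [MonoidHom.comp_apply, h, map_one]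
    · intro h
      have h1 : f ((φ w : (⊤ : Subgroup (GermGroup G x))) : GermGroup G x) = f 1 := by
        rw [map_one]
        exact h
      exact Subtype.ext (hf h1)
  · exact hB.of_injective (f.comp (Subgroup.subtype ⊤)) fun a c h => Subtype.ext (hf h)
  · intro S ε hε
    refine ⟨{1}, Finset.singleton_nonempty _, fun s _ => ?_⟩
    have hsub : ∀ q : GermGroup G x ⧸ (⊤ : Subgroup (GermGroup G x)), q = 1 := by
      intro q
      induction q using QuotientGroup.induction_on with
      | H g => exact (QuotientGroup.eq_one_iff g).mpr (Subgroup.mem_top g)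
    have h1 : {b | b ∈ ({1} : Finset (GermGroup G x ⧸ (⊤ : Subgroup (GermGroup G x)))) ∧
        s * b ∉ ({1} : Finset (GermGroup G x ⧸ (⊤ : Subgroup (GermGroup G x))))} = ∅ := by
      rw [Set.eq_empty_iff_forall_notMem]
      rintro q ⟨-, h⟩
      exact h (Finset.mem_singleton.mpr (hsub _))
    rw [h1, Set.ncard_empty]
    simp only [Nat.cast_zero]
    positivity

end

end Pool.Agent.H829.CE
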