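import Pool.Agent.H829.EG.TreeDefs

/-!
# Spinal groups
-/

set_option autoImplicit false

namespace Pool.Agent.H829.CE

open Pool.Agent.H829.EG

universe u v

variable {α : ℕ → Type v}

open scoped Classical in
/-- The directed automorphism with the decorations `σ n`: if the first `n` letters of `x` are those of
`o` and the letter number `n` is `p n`, then `σ n` is applied to the letter number `n + 1`. -/
noncomputable def spineMap (o p : (n : ℕ) → α n) (σ : (n : ℕ) → Equiv.Perm (α (n + 1)))
    (x : (n : ℕ) → α n) : (n : ℕ) → α n
  | 0 => x 0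
  | n + 1 => if (∀ i < n, x i = o i) ∧ x n = p n then σ n (x (n + 1)) else x (n + 1)

theorem spine_leaves {o p : (n : ℕ) → α n} (hp : ∀ n, p n ≠ o n)
    (σ : (n : ℕ) → Equiv.Perm (α (n + 1))) (x : (n : ℕ) → α n) (n : ℕ) :
    ((∀ i < n, spineMap o p σ x i = o i) ∧ spineMap o p σ x n = p n) ↔
      ((∀ i < n, x i = o i) ∧ x n = p n) := by
  classical
  constructor
  · rintro ⟨h1, h2⟩
    have h3 : ∀ i ≤ n, spineMap o p σ x i = x i := by
      intro i
      induction i with
      | zero => intro _; rfl
      | succ j ih =>
        intro hj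
        refine if_neg ?_
        rintro ⟨-, h4⟩
        have h5 := ih (by omega)
        rw [h1 j (by omega), h4] at h5
        exact hp j h5.symm
    exact ⟨fun i hi => (h3 i hi.le).symm.trans (h1 i hi), (h3 n le_rfl).symm.trans h2⟩
  · rintro ⟨h1, h2⟩
    have h3 : ∀ i ≤ n, spineMap o p σ x i = x i := by
      intro i hi
      cases i with
      | zero => rfl
      | succ j =>
        refine if_neg ?_
        rintro ⟨-, h4⟩
        rw [h1 j (by omega)] at h4
        exact hp j h4.symm
    exact ⟨fun i hi => (h3 i hi.le).trans (h1 i hi), (h3 n le_rfl).trans h2⟩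

theorem spineMap_comp {o p : (n : ℕ) → α n} (hp : ∀ n, p n ≠ o n)
    (σ τ : (n : ℕ) → Equiv.Perm (α (n + 1))) (x : (n : ℕ) → α n) :
    spineMap o p σ (spineMap o p τ x) = spineMap o p (fun n => σ n * τ n) x := by
  classical
  funext n
  cases n with
  | zero => rfl
  | succ n =>
    show (if (∀ i < n, spineMap o p τ x i = o i) ∧ spineMap o p τ x n = p n then
        σ n (spineMap o p τ x (n + 1)) else spineMap o p τ x (n + 1)) =
      if (∀ i < n, x i = o i) ∧ x n = p n then (σ n * τ n) (x (n + 1)) else x (n + 1)
    by_cases h : (∀ i < n, x i = o i) ∧ x n = p n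
    · rw [if_pos ((spine_leaves hp τ x n).mpr h), if_pos h]
      show σ n (if _ then _ else _) = _
      rw [if_pos h]
      rfl
    · rw [if_neg fun h2 => h ((spine_leaves hp τ x n).mp h2), if_neg h]
      exact if_neg h

theorem spineMap_one (o p : (n : ℕ) → α n) (x : (n : ℕ) → α n) :
    spineMap o p (fun _ => 1) x = x := by
  classical
  funext n
  cases n with
  | zero => rfl
  | succ n =>
    show (if _ then _ else _) = _
    split_ifs <;> rfl

/-- The spinal action of `B` along the ray `o` with the decorations `ω`: the element `b` acts by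
`ω n b` on the letter number `n + 1` behind the word `o 0, …, o (n - 1), p n`, for all `n`. -/
noncomputable def spinal {B : Type u} [Group B] (o p : (n : ℕ) → α n) (hp : ∀ n, p n ≠ o n)
    (ω : (n : ℕ) → B →* Equiv.Perm (α (n + 1))) : B →* Equiv.Perm ((n : ℕ) → α n) where
  toFun b :=
    { toFun := spineMap o p fun n => ω n b
      invFun := spineMap o p fun n => ω n b⁻¹
      left_inv := fun x => by
        rw [spineMap_comp hp]
        have : (fun n => ω n b⁻¹ * ω n b) = fun _ => 1 := by
          funext n
          rw [map_inv, inv_mul_cancel]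
        rw [this, spineMap_one]
      right_inv := fun x => by
        rw [spineMap_comp hp]
        have : (fun n => ω n b * ω n b⁻¹) = fun _ => 1 := by
          funext n
          rw [map_inv, mul_inv_cancel]
        rw [this, spineMap_one] }
  map_one' := by
    ext x : 1
    show spineMap o p (fun n => ω n 1) x = x
    have : (fun n => ω n 1) = fun _ => 1 := by
      funext n
      rw [map_one]
    rw [this, spineMap_one]
  map_mul' := fun b c => by
    ext x : 1
    show spineMap o p (fun n => ω n (b * c)) x = spineMap o p (fun n => ω n b) (spineMap o p (fun n => ω n c) x)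
    rw [spineMap_comp hp]
    congr 1
    funext n
    rw [map_mul]

/-- Finitary automorphisms of the tree: the first `n` letters of `t x` and those of `x` determine each
other, and `t` does not change the letters number `N`, `N + 1`, … for some `N`. -/
def Finitary (t : Equiv.Perm ((n : ℕ) → α n)) : Prop :=
  (∀ (n : ℕ) (x y : (n : ℕ) → α n), (∀ i < n, x i = y i) ↔ ∀ i < n, t x i = t y i) ∧
    ∃ N, ∀ (x : (n : ℕ) → α n) (i : ℕ), N ≤ i → t x i = x i

/-- The spinal group generated by the set `T` of finitary automorphisms and the spinal action of `B`. -/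
def spinalGroup {B : Type u} [Group B] (o p : (n : ℕ) → α n) (hp : ∀ n, p n ≠ o n)
    (ω : (n : ℕ) → B →* Equiv.Perm (α (n + 1))) (T : Set (Equiv.Perm ((n : ℕ) → α n))) :
    Subgroup (Equiv.Perm ((n : ℕ) → α n)) :=
  Subgroup.closure (Set.range (spinal o p hp ω) ∪ T)

end Pool.Agent.H829.CE
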