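import Pool.Agent.H829.CE.HgSpine
import Pool.Agent.H829.CE.SpineDefs

/-!
# Spinal groups over coherent groups with the Haagerup property
-/

set_option autoImplicit false

namespace Pool.Agent.H829.CE

open Pool.Agent.H829.EG

universe u v

section

variable {α : ℕ → Type u} {B : Type u} [Group B] {o p : (n : ℕ) → α n} (hp : ∀ n, p n ≠ o n)
  (ω : (n : ℕ) → B →* Equiv.Perm (α (n + 1)))

theorem spinal_apply_zero (b : B) (x : (n : ℕ) → α n) : spinal o p hp ω b x 0 = x 0 := rfl

theorem spinal_apply_neg (b : B) (x : (n : ℕ) → α n) (n : ℕ)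
    (h : ¬ ((∀ i < n, x i = o i) ∧ x n = p n)) : spinal o p hp ω b x (n + 1) = x (n + 1) :=
  if_neg h

theorem spinal_apply_pos (b : B) (x : (n : ℕ) → α n) (n : ℕ)
    (h : (∀ i < n, x i = o i) ∧ x n = p n) : spinal o p hp ω b x (n + 1) = ω n b (x (n + 1)) :=
  if_pos h

theorem spinal_agree (b : B) (n : ℕ) (x y : (n : ℕ) → α n) (h : ∀ i < n, x i = y i) :
    ∀ i < n, spinal o p hp ω b x i = spinal o p hp ω b y i := by
  intro i hi
  cases i with
  | zero => exact h 0 hi
  | succ j =>
    have h1 : ((∀ i < j, x i = o i) ∧ x j = p j) ↔ ((∀ i < j, y i = o i) ∧ y j = p j) := by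
      rw [h j (by omega)]
      refine and_congr_left fun _ => forall_congr' fun i => forall_congr' fun hij => ?_
      rw [h i (by omega)]
    by_cases h2 : (∀ i < j, x i = o i) ∧ x j = p j
    · rw [spinal_apply_pos hp ω b x j h2, spinal_apply_pos hp ω b y j (h1.mp h2), h _ hi]
    · rw [spinal_apply_neg hp ω b x j h2, spinal_apply_neg hp ω b y j fun h3 => h2 (h1.mpr h3),
        h _ hi]

theorem spinal_germ (hω : ∀ b : B, b ≠ 1 → ∀ n, ∃ m, n ≤ m ∧ ω m b ≠ 1) (b : B)
    (h : ∃ n, ∀ y : (n : ℕ) → α n, (∀ i < n, y i = o i) → spinal o p hp ω b y = y) : b = 1 := by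
  classical
  obtain ⟨n, hn⟩ := h
  by_contra hb
  obtain ⟨m, hm, hmb⟩ := hω b hb n
  obtain ⟨a, ha⟩ : ∃ a, ω m b a ≠ a := by
    by_contra hcon
    push Not at hcon
    exact hmb (Equiv.ext hcon)
  let y : (n : ℕ) → α n := Function.update (Function.update o m (p m)) (m + 1) a
  have hy : ∀ i < m, y i = o i := by
    intro i hi
    show Function.update (Function.update o m (p m)) (m + 1) a i = o i
    rw [Function.update_of_ne (by omega), Function.update_of_ne (by omega)]
  have hy1 : y m = p m := by
    show Function.update (Function.update o m (p m)) (m + 1) a m = p m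
    rw [Function.update_of_ne (by omega), Function.update_self]
  have hy2 : y (m + 1) = a := Function.update_self _ _ _
  have h1 := congrFun (hn y fun i hi => hy i (hi.trans_le hm)) (m + 1)
  rw [spinal_apply_pos hp ω b y m ⟨hy, hy1⟩, hy2] at h1
  exact ha h1

theorem spinal_injective (hω : ∀ b : B, b ≠ 1 → ∀ n, ∃ m, n ≤ m ∧ ω m b ≠ 1) :
    Function.Injective (spinal o p hp ω) := by
  rw [injective_iff_map_eq_one]
  intro b hb
  exact spinal_germ hp ω hω b ⟨0, fun y _ => by rw [hb]; rfl⟩

variable {T : Set (Equiv.Perm ((n : ℕ) → α n))} (hT : ∀ t ∈ T, Finitary t)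

include hT

theorem spinal_agree_iff (g : Equiv.Perm ((n : ℕ) → α n)) (hg : g ∈ spinalGroup o p hp ω T) :
    ∀ (n : ℕ) (x y : (n : ℕ) → α n), (∀ i < n, x i = y i) ↔ ∀ i < n, g x i = g y i := by
  induction hg using Subgroup.closure_induction with
  | mem s hs =>
    rcases hs with ⟨b, rfl⟩ | hs
    · intro n x y
      refine ⟨spinal_agree hp ω b n x y, fun h => ?_⟩
      have h1 := spinal_agree hp ω b⁻¹ n _ _ h
      rw [map_inv] at h1
      intro i hi
      have h2 := h1 i hi
      have h3 : ∀ z, (spinal o p hp ω b)⁻¹ (spinal o p hp ω b z) = z :=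
        fun z => Equiv.symm_apply_apply _ z
      rwa [h3, h3] at h2
    · exact (hT s hs).1
  | one => intro n x y; rfl
  | mul g h _ _ hg hh => intro n x y; exact (hh n x y).trans (hg n _ _)
  | inv g _ hg =>
    intro n x y
    have h1 := hg n (g⁻¹ x) (g⁻¹ y)
    have h3 : ∀ z, g (g⁻¹ z) = z := fun z => Equiv.apply_symm_apply g z
    rw [h3, h3] at h1
    exact h1.symm

theorem spinal_treeAction : TreeAction (spinalGroup o p hp ω T) α :=
  ⟨fun g n x y h => (spinal_agree_iff hp ω hT g.1 g.2 n x y).mp h⟩

/-- The homomorphism to the spinal group. -/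
noncomputable def toSp (T : Set (Equiv.Perm ((n : ℕ) → α n))) : B →* spinalGroup o p hp ω T :=
  (spinal o p hp ω).codRestrict _ fun b => Subgroup.subset_closure (Or.inl ⟨b, rfl⟩)

theorem spinal_haagerup [Countable B] (hTc : T.Countable) [∀ n, Finite (α n)]
    (hω : ∀ b : B, b ≠ 1 → ∀ n, ∃ m, n ≤ m ∧ ω m b ≠ 1) (hB : Haagerup B) (hco : Coherent B) :
    Haagerup (spinalGroup o p hp ω T) := by
  classical
  have := spinal_treeAction hp ω hT
  have : Countable (spinalGroup o p hp ω T) := by
    have h1 : (Set.range (spinal o p hp ω) ∪ T).Countable := (Set.countable_range _).union hTc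
    have : Countable ↥(Set.range (spinal o p hp ω) ∪ T) := h1.to_subtype
    have h2 : Countable (FreeGroup ↥(Set.range (spinal o p hp ω) ∪ T)) := by
      unfold FreeGroup
      infer_instance
    show Countable ↥(Subgroup.closure (Set.range (spinal o p hp ω) ∪ T))
    rw [FreeGroup.closure_eq_range]
    exact (MonoidHom.rangeRestrict_surjective _).countable
  have : FaithfulSMul (spinalGroup o p hp ω T) ((n : ℕ) → α n) :=
    ⟨fun {g h} hgh => Subtype.ext (Equiv.ext hgh)⟩
  have hreg : ∀ (b : B) (x : (n : ℕ) → α n) (k : ℕ), x k ≠ o k →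
      Reg (toSp hp ω T b) (k + 2) x := by
    intro b x k hk y hy i hi
    obtain ⟨j, rfl⟩ : ∃ j, i = j + 1 := ⟨i - 1, by omega⟩
    refine spinal_apply_neg hp ω b y j ?_
    rintro ⟨h1, -⟩
    have h2 := h1 k (by omega)
    rw [hy k (by omega)] at h2
    exact hk h2
  refine spine_haagerup (o := o) (β := toSp hp ω T) ?_ ?_
    {g | (g : Equiv.Perm ((n : ℕ) → α n)) ∈ T} ?_ ?_ ?_ ?_ hB hco
  · -- the ray is fixed
    intro b
    funext i
    cases i with
    | zero => rfl
    | succ j =>
      exact spinal_apply_neg hp ω b o j fun h => hp j h.2.symm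
  · -- the germs at the ray
    intro b hb
    exact spinal_germ hp ω hω b hb
  · -- generation
    rw [eq_top_iff]
    rintro ⟨g, hg⟩ -
    have h1 : ∀ g (hg : g ∈ Subgroup.closure (Set.range (spinal o p hp ω) ∪ T)),
        (⟨g, hg⟩ : spinalGroup o p hp ω T) ∈ Subgroup.closure
          (Set.range (toSp hp ω T) ∪ {g | (g : Equiv.Perm ((n : ℕ) → α n)) ∈ T}) := by
      intro g hg
      induction hg using Subgroup.closure_induction with
      | mem s hs =>
        refine Subgroup.subset_closure ?_
        rcases hs with ⟨b, rfl⟩ | hs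
        · exact Or.inl ⟨b, rfl⟩
        · exact Or.inr hs
      | one => exact Subgroup.one_mem _
      | mul g h hg hh ihg ihh => exact Subgroup.mul_mem _ ihg ihh
      | inv g hg ihg => exact Subgroup.inv_mem _ ihg
    exact h1 g hg
  · intro b x hx
    obtain ⟨k, hk⟩ := Function.ne_iff.mp hx
    exact ⟨k + 2, hreg b x k hk⟩
  · rintro t ht
    obtain ⟨N, hN⟩ := (hT _ ht).2
    exact ⟨N, fun x y _ i hi => hN y i hi⟩
  · -- the active vertices
    intro b
    refine ⟨2, 1, fun n hn => ?_⟩
    obtain ⟨m, rfl⟩ : ∃ m, n = m + 1 := ⟨n - 1, by omega⟩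
    have h1 : activeVertices (α := α) (toSp hp ω T b) (m + 1) ⊆
        {pre α (m + 1) o, pre α (m + 1) (Function.update o m (p m))} := by
      rintro v ⟨x, hx, i, hi, hne⟩
      have hv : pre α (m + 1) x = v := funext hx
      have h2 : ¬ Reg (toSp hp ω T b) (m + 1) x := fun h => hne (h x (fun _ _ => rfl) i hi)
      have h3 : ∀ j < m, x j = o j := by
        intro j hj
        by_contra hcon
        exact h2 ((hreg b x j hcon).mono (by omega))
      by_cases h4 : x m = o m
      · left
        rw [← hv]
        funext j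
        rcases lt_or_eq_of_le (Nat.lt_succ_iff.mp j.2) with h5 | h5
        · exact h3 _ h5
        · show x j.1 = o j.1
          rw [h5]
          exact h4
      · right
        have h6 : x m = p m := by
          by_contra h6
          refine h2 fun y hy i hi => ?_
          obtain ⟨j, rfl⟩ : ∃ j, i = j + 1 := ⟨i - 1, by omega⟩
          refine spinal_apply_neg hp ω b y j ?_
          rintro ⟨h7, h8⟩
          rcases lt_or_eq_of_le (show m ≤ j by omega) with h9 | h9
          · exact h4 ((hy m (by omega)).symm.trans (h7 m h9))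
          · subst h9
            exact h6 ((hy m (by omega)).symm.trans h8)
        rw [Set.mem_singleton_iff, ← hv]
        funext j
        rcases lt_or_eq_of_le (Nat.lt_succ_iff.mp j.2) with h5 | h5
        · show x j.1 = Function.update o m (p m) j.1
          rw [Function.update_of_ne (by omega)]
          exact h3 _ h5
        · show x j.1 = Function.update o m (p m) j.1
          rw [h5, Function.update_self]
          exact h6
    refine (Set.encard_le_encard h1).trans ((Set.encard_insert_le _ _).trans ?_)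
    rw [Set.encard_singleton]
    norm_num

end

end Pool.Agent.H829.CE
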