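import Pool.Agent.H829.CE.HgPerm
import Pool.Agent.H829.EG.TreeMain

/-!
# Groups of tree automorphisms of bounded activity: recurrence, compactness
-/

set_option autoImplicit false

namespace Pool.Agent.H829.CE

open Pool.Agent.H829.EG Finsupp

universe u v w

section

variable {G : Type u} {α : ℕ → Type v} [Group G] [MulAction G ((n : ℕ) → α n)]
  [hT : TreeAction G α] [hfin : ∀ n, Finite (α n)]

instance PV_finite (n : ℕ) : Finite (PV α n) := by
  refine Finite.of_injective (β := (i : Fin n) → α i.1)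
    (Quotient.lift (s := prefSetoid α n) (fun x => pre α n x) ?_) ?_
  · intro x y h
    funext i
    exact h i i.2
  · rintro ⟨x⟩ ⟨y⟩ h
    exact pv_eq.mpr fun i hi => congrFun (h : pre α n x = pre α n y) ⟨i, hi⟩

/-- The action on the boundary is recurrent. -/
theorem tree_recurrent (hb : BoundedActivity G α) : RecurrentAction G ((n : ℕ) → α n) := by
  classical
  intro S x₀ ε hε
  let S' : Finset G := S ∪ S.image fun s => s⁻¹
  have hS1 : ∀ s ∈ S, s ∈ S' := fun s hs => Finset.mem_union_left _ hs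
  have hS2 : ∀ s ∈ S, s⁻¹ ∈ S' := fun s hs =>
    Finset.mem_union_right _ (Finset.mem_image_of_mem _ hs)
  obtain ⟨T₀, C, φ, hE₀, hφ, hbad, hstep⟩ := exists_levels hb S' {x₀}
  obtain ⟨m, hm⟩ := exists_nat_gt ((2 * C : ℝ) / ε)
  have hm1 : (2 * C : ℝ) < m * ε := (div_lt_iff₀ hε).mp hm
  have hm0 : (0:ℝ) < m := by
    by_contra hcon
    have h1 : (m:ℝ) ≤ 0 := not_lt.mp hcon
    have h2 : (0:ℝ) ≤ C := Nat.cast_nonneg _
    nlinarith
  let a : ((n : ℕ) → α n) → ℝ := fun x => cnt T₀ φ m x / m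
  have hcnt : ∀ x, cnt T₀ φ m x ≤ m := by
    intro x
    refine (Finset.card_filter_le _ _).trans ?_
    rw [Finset.card_range]
  have hfib : ∀ v : PV α (φ m), {x | pv α (φ m) x = v ∧ a x ≠ 0}.Finite := by
    intro v
    obtain ⟨z, rfl⟩ := pv_surj _ v
    refine (T₀.finite_toSet.image fun y => glue (φ m) z y).subset ?_
    rintro x ⟨hx1, hx2⟩
    have h1 : cnt T₀ φ m x ≠ 0 := by
      intro h
      apply hx2
      simp only [a, h]
      simp
    obtain ⟨j, hj⟩ := Finset.card_ne_zero.mp h1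
    obtain ⟨hj1, hj2⟩ := Finset.mem_filter.mp hj
    obtain ⟨y, hy, hxy⟩ := Fs_mono T₀ (hφ (Finset.mem_range.mp hj1).le) hj2
    refine ⟨y, hy, ?_⟩
    funext i
    simp only [glue]
    split_ifs with hi
    · exact ((pv_eq.mp hx1) i hi).symm
    · exact (hxy i (not_lt.mp hi)).symm
  have hsupp : {x | a x ≠ 0}.Finite := by
    refine (Set.finite_iUnion hfib).subset ?_
    intro x hx
    exact Set.mem_iUnion.mpr ⟨pv α (φ m) x, rfl, hx⟩
  refine ⟨Finsupp.ofSupportFinite a hsupp, ?_, ?_⟩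
  · have h1 : cnt T₀ φ m x₀ = m := by
      rw [cnt, Finset.filter_true_of_mem, Finset.card_range]
      intro j _
      exact ⟨x₀, hE₀ (Finset.mem_singleton_self _), fun _ _ => rfl⟩
    show a x₀ = 1
    simp only [a, h1]
    exact div_self hm0.ne'
  · intro s hs T
    show ∑ x ∈ T, (a (s • x) - a x) ^ 2 ≤ ε
    have h1 : ∀ x, (a (s • x) - a x) ^ 2 ≤ (∑ j ∈ Finset.range m,
        ((if x ∈ Bad T₀ s (φ j) then (1:ℝ) else 0) +
        (if s • x ∈ Bad T₀ s⁻¹ (φ j) then (1:ℝ) else 0))) / (m:ℝ) ^ 2 := by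
      intro x
      have h2 := cnt_sq T₀ φ m s x (fun k hk => hstep k s (hS1 s hs) x hk) (fun k hk => by
        have := hstep k s⁻¹ (hS2 s hs) _ hk
        rwa [inv_smul_smul] at this)
      have h3 : (a (s • x) - a x) ^ 2 =
          ((cnt T₀ φ m (s • x) : ℝ) - cnt T₀ φ m x) ^ 2 / (m:ℝ) ^ 2 := by
        simp only [a]
        rw [← sub_div, div_pow]
      rw [h3]
      exact div_le_div_of_nonneg_right h2 (by positivity)
    refine (Finset.sum_le_sum fun x _ => h1 x).trans ?_
    rw [← Finset.sum_div, Finset.sum_comm]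
    have hcardle : ∀ (B : Set ((n : ℕ) → α n)) (R : Finset ((n : ℕ) → α n)), B.encard ≤ C →
        ((R.filter fun x => x ∈ B).card : ℝ) ≤ C := by
      intro B R hB
      have i1 : ((R.filter fun x => x ∈ B : Finset _) : Set ((n : ℕ) → α n)) ⊆ B := by
        intro x hx
        exact (Finset.mem_filter.mp hx).2
      have i2 := (Set.encard_le_encard i1).trans hB
      rw [Set.encard_coe_eq_coe_finsetCard, Nat.cast_le] at i2
      exact_mod_cast i2
    have h4 : ∀ j ∈ Finset.range m, ∑ x ∈ T, ((if x ∈ Bad T₀ s (φ j) then (1:ℝ) else 0) +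
        (if s • x ∈ Bad T₀ s⁻¹ (φ j) then (1:ℝ) else 0)) ≤ 2 * C := by
      intro j _
      rw [Finset.sum_add_distrib]
      have i1 : ∑ x ∈ T, (if x ∈ Bad T₀ s (φ j) then (1:ℝ) else 0) ≤ C := by
        rw [Finset.sum_boole]
        exact hcardle _ _ (hbad j s (hS1 s hs))
      have i2 : ∑ x ∈ T, (if s • x ∈ Bad T₀ s⁻¹ (φ j) then (1:ℝ) else 0) ≤ C := by
        have i3 : ∑ x ∈ T, (if s • x ∈ Bad T₀ s⁻¹ (φ j) then (1:ℝ) else 0) =
            ∑ y ∈ T.map (MulAction.toPerm s).toEmbedding,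
              (if y ∈ Bad T₀ s⁻¹ (φ j) then (1:ℝ) else 0) := by
          rw [Finset.sum_map]
          rfl
        rw [i3, Finset.sum_boole]
        exact hcardle _ _ (hbad j s⁻¹ (hS2 s hs))
      linarith
    have h5 := Finset.sum_le_sum h4
    rw [Finset.sum_const, Finset.card_range, nsmul_eq_mul] at h5
    rw [div_le_iff₀ (by positivity)]
    refine h5.trans ?_
    nlinarith

omit hT in
/-- Uniform regularity off finitely many cylinders. -/
theorem exists_reg (g : G) (E : Finset ((n : ℕ) → α n)) (K : ℕ)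
    (hg : ∀ y, y ∉ E → ∃ n, Reg g n y) :
    ∃ m, ∀ y : (n : ℕ) → α n, (∀ x ∈ E, ¬ ∀ i < K, y i = x i) → Reg g m y := by
  classical
  letI : ∀ n, TopologicalSpace (α n) := fun _ => ⊥
  haveI : ∀ n, DiscreteTopology (α n) := fun _ => ⟨rfl⟩
  have hcyl : ∀ (y : (n : ℕ) → α n) (n : ℕ), IsOpen {z : (n : ℕ) → α n | ∀ i < n, z i = y i} := by
    intro y n
    have h1 : {z : (n : ℕ) → α n | ∀ i < n, z i = y i} =
        ⋂ i ∈ Set.Iio n, (fun z : (n : ℕ) → α n => z i) ⁻¹' {y i} := by
      ext z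
      simp
    rw [h1]
    exact (Set.finite_Iio n).isOpen_biInter fun i _ =>
      (isOpen_discrete _).preimage (continuous_apply i)
  have hC : IsClosed {y : (n : ℕ) → α n | ∀ x ∈ E, ¬ ∀ i < K, y i = x i} := by
    have h1 : {y : (n : ℕ) → α n | ∀ x ∈ E, ¬ ∀ i < K, y i = x i} =
        ⋂ x ∈ E, {y : (n : ℕ) → α n | ∀ i < K, y i = x i}ᶜ := by
      ext y
      simp
    rw [h1]
    exact isClosed_biInter fun x _ => (hcyl x K).isClosed_compl
  obtain ⟨n, hn⟩ := hC.isCompact.elim_directed_cover (fun n => {y : (n : ℕ) → α n | Reg g n y})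
    (fun n => by
      rw [isOpen_iff_mem_nhds]
      intro y hy
      exact Filter.mem_of_superset ((hcyl y n).mem_nhds fun i _ => rfl)
        fun z hz => Reg.congr hy hz)
    (fun y hy => by
      refine Set.mem_iUnion.mpr (hg y fun hyE => hy y hyE fun i _ => rfl))
    (directed_of_isDirected_le fun n m hnm y hy => Reg.mono hy hnm)
  exact ⟨n, fun y hy => hn hy⟩

theorem Kn_finite [FaithfulSMul G ((n : ℕ) → α n)] (n : ℕ) : Finite (Kn G α n) := by
  refine Finite.of_injective (β := PV α n → PV α n) (fun g v => (g : G) • v) ?_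
  intro g h hgh
  apply Subtype.ext
  refine FaithfulSMul.eq_of_smul_eq_smul (α := (n : ℕ) → α n) fun x => ?_
  funext i
  rcases lt_or_ge i n with hi | hi
  · have h1 := congrFun hgh (pv α n x)
    have h2 : pv α n ((g : G) • x) = pv α n ((h : G) • x) := h1
    exact pv_eq.mp h2 i hi
  · rw [g.2 x x (fun _ _ => rfl) i hi, h.2 x x (fun _ _ => rfl) i hi]

end

end Pool.Agent.H829.CE
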