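import Pool.Agent.H829.CE.HgTree

/-!
# Groups of tree automorphisms of bounded activity with coherent germs
-/

set_option autoImplicit false

namespace Pool.Agent.H829.CE

open Pool.Agent.H829.EG Finsupp

universe u v w

/-- Coherent groups: every finitely generated subgroup is finitely presented, i.e. for every
homomorphism `f` from a free group of finite rank the kernel is the normal closure of a finite set. -/
def Coherent (Q : Type u) [Group Q] : Prop :=
  ∀ (n : ℕ) (f : FreeGroup (Fin n) →* Q), ∃ R : Finset (FreeGroup (Fin n)),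
    f.ker = Subgroup.normalClosure (R : Set (FreeGroup (Fin n)))

/-- Amenability, by the criterion of Følner: for every finite set `S` and every `ε > 0` there is a
nonempty finite set `B` such that `s b` is not in `B` for at most `ε |B|` elements `b` of `B`, for every
`s` in `S`. -/
def FolnerAmenable (A : Type u) [Group A] : Prop :=
  ∀ (S : Finset A) (ε : ℝ), 0 < ε → ∃ B : Finset A, B.Nonempty ∧
    ∀ s ∈ S, ({b | b ∈ B ∧ s * b ∉ B}.ncard : ℝ) ≤ ε * B.card

/-- Extensions with amenable quotients. -/
theorem haagerup_of_amenable_quotient {P : Type u} {A : Type v} [Group P] [Countable P] [Group A]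
    (hA : FolnerAmenable A) (q : P →* A) (h : Haagerup q.ker) : Haagerup P := by
  classical
  let act : MulAction P A := MulAction.compHom A q
  have hact : ∀ (p : P) (x : A), p • x = q p * x := fun p x => rfl
  refine haagerup_fibration (Z := A) (I := A) fun F ε hε => ?_
  obtain ⟨B, hB, hB'⟩ := hA (F.image q) ε hε
  have hcard : (0 : ℝ) < B.card := by exact_mod_cast hB.card_pos
  have hsq : (√(B.card : ℝ))⁻¹ ^ 2 = (B.card : ℝ)⁻¹ := by
    rw [inv_pow, Real.sq_sqrt hcard.le]
  refine ⟨B, id, fun _ => (√(B.card : ℝ))⁻¹, Function.injective_id.injOn,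
    fun _ _ => by positivity, ?_, ?_, ?_⟩
  · rw [Finset.sum_const, hsq, nsmul_eq_mul]
    exact mul_inv_cancel₀ hcard.ne'
  · intro x _
    have hle : MulAction.stabilizer P (id x) ≤ q.ker := by
      intro p hp
      rw [MulAction.mem_stabilizer_iff, hact] at hp
      exact mul_eq_right.mp hp
    exact h.of_injective (Subgroup.inclusion hle) (Subgroup.inclusion_injective hle)
  · intro s hs
    refine ⟨B.filter fun b => q s * b ∈ B, fun x => q s * x, Finset.filter_subset _ _,
      (mul_right_injective (q s)).injOn, fun x hx => ⟨(Finset.mem_filter.mp hx).2, rfl⟩, ?_⟩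
    have h1 := hB' (q s) (Finset.mem_image_of_mem _ hs)
    have h2 : {b | b ∈ B ∧ q s * b ∉ B} = ((B.filter fun b => ¬ q s * b ∈ B : Finset A) : Set A) := by
      ext b
      simp
    rw [h2, Set.ncard_coe_finset] at h1
    have h3 : ((B.filter fun b => q s * b ∈ B).card : ℝ) +
        ((B.filter fun b => ¬ q s * b ∈ B).card : ℝ) = B.card := by
      exact_mod_cast Finset.card_filter_add_card_filter_not (s := B) (fun b => q s * b ∈ B)
    rw [Finset.sum_const, ← sq, hsq, nsmul_eq_mul]
    have h4 : ((B.filter fun b => q s * b ∈ B).card : ℝ) * (B.card : ℝ)⁻¹ ≥ 1 - ε := by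
      rw [ge_iff_le, ← div_eq_mul_inv, le_div_iff₀ hcard]
      linarith
    linarith

/-- The common kernel of finitely many homomorphisms. -/
def comKer {P : Type u} [Group P] {I : Type w} {A : I → Type v} [∀ i, Group (A i)]
    (q : ∀ i, P →* A i) (J : Finset I) : Subgroup P where
  carrier := {g | ∀ i ∈ J, q i g = 1}
  one_mem' := fun i _ => map_one _
  mul_mem' := fun {a b} ha hb i hi => by rw [map_mul, ha i hi, hb i hi, one_mul]
  inv_mem' := fun {a} ha i hi => by rw [map_inv, ha i hi, inv_one]

theorem haagerup_of_amenable_homs {P : Type u} [Group P] [Countable P] {I : Type w} {A : I → Type v}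
    [∀ i, Group (A i)] (hA : ∀ i, FolnerAmenable (A i)) (q : ∀ i, P →* A i) (J : Finset I)
    (h : Haagerup (comKer q J)) : Haagerup P := by
  classical
  induction J using Finset.induction_on with
  | empty =>
    let f : P →* comKer q (∅ : Finset I) :=
      { toFun := fun p => ⟨p, fun i hi => absurd hi (Finset.notMem_empty i)⟩
        map_one' := rfl
        map_mul' := fun _ _ => rfl }
    refine h.of_injective f ?_
    intro a b hab
    exact congrArg (fun z : comKer q (∅ : Finset I) => (z : P)) hab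
  | insert j J hj ih =>
    refine ih ?_
    refine haagerup_of_amenable_quotient (hA j) ((q j).comp (comKer q J).subtype) ?_
    have hm : ∀ g : ((q j).comp (comKer q J).subtype).ker, (g.1.1 : P) ∈ comKer q (insert j J) := by
      intro g i hi
      rcases Finset.mem_insert.mp hi with rfl | hi
      · exact g.2
      · exact g.1.2 i hi
    let f : ((q j).comp (comKer q J).subtype).ker →* comKer q (insert j J) :=
      { toFun := fun g => ⟨g.1.1, hm g⟩
        map_one' := rfl
        map_mul' := fun _ _ => rfl }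
    refine h.of_injective f ?_
    intro a b hab
    have h1 : (a.1.1 : P) = b.1.1 := congrArg (fun z : comKer q (insert j J) => (z : P)) hab
    exact Subtype.ext (Subtype.ext h1)

section

variable {G : Type u} {α : ℕ → Type v} [Group G] [MulAction G ((n : ℕ) → α n)]
  [hT : TreeAction G α]

/-- The elements of `Q` that are trivial on the cylinder of level `k` of `x`. -/
def cylTriv (Q : Subgroup G) (x : (n : ℕ) → α n) (k : ℕ) : Subgroup Q where
  carrier := {g | ∀ y : (n : ℕ) → α n, (∀ i < k, y i = x i) → (g : G) • y = y}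
  one_mem' := fun y _ => by rw [Subgroup.coe_one, one_smul]
  mul_mem' := by
    rintro g h hg hh y hy
    rw [Subgroup.coe_mul, mul_smul, hh y hy, hg y hy]
  inv_mem' := by
    rintro g hg y hy
    rw [Subgroup.coe_inv, inv_smul_eq_iff, hg y hy]

theorem cylTriv_normal (Q : Subgroup G) (x : (n : ℕ) → α n) (k : ℕ)
    (hQ : ∀ g ∈ Q, g • x = x) : (cylTriv Q x k).Normal where
  conj_mem := by
    intro g hg h y hy
    have h1 : ∀ i < k, ((h : G)⁻¹ • y) i = x i := by
      intro i hi
      have h2 := TreeAction.agree (h : G)⁻¹ k y x hy i hi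
      rw [hQ _ (Q.inv_mem h.2)] at h2
      exact h2
    have h3 : (g : G) • ((h : G)⁻¹ • y) = (h : G)⁻¹ • y := hg _ h1
    rw [Subgroup.coe_mul, Subgroup.coe_mul, Subgroup.coe_inv, mul_smul, mul_smul, h3, smul_inv_smul]

/-- The germ of the elements of a group of elements fixing `x`. -/
def germHom (Q : Subgroup G) (x : (n : ℕ) → α n) (hQ : ∀ g ∈ Q, g • x = x) : Q →* GermGroup G x :=
  (QuotientGroup.mk' (germKernel G x)).comp (Subgroup.inclusion fun g hg => hQ g hg)

theorem germHom_eq_one {Q : Subgroup G} {x : (n : ℕ) → α n} {hQ : ∀ g ∈ Q, g • x = x} {g : Q} :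
    germHom Q x hQ g = 1 ↔ ∃ k, g ∈ cylTriv Q x k := by
  constructor
  · intro h
    exact (QuotientGroup.eq_one_iff _).mp h
  · intro h
    exact (QuotientGroup.eq_one_iff _).mpr h

/-- Finitely generated subgroups: trivial germs are trivial on a fixed cylinder. -/
theorem exists_cyl {Q : Subgroup G} {x : (n : ℕ) → α n} (hQ : ∀ g ∈ Q, g • x = x)
    (C : Subgroup (GermGroup G x)) (hC : ∀ g : Q, germHom Q x hQ g ∈ C)
    (hcoh : Coherent C) {n : ℕ} (p : FreeGroup (Fin n) →* Q) :
    ∃ k, ∀ w, germHom Q x hQ (p w) = 1 → p w ∈ cylTriv Q x k := by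
  classical
  obtain ⟨R, hR'⟩ := hcoh n (((germHom Q x hQ).codRestrict C hC).comp p)
  have hR : ((germHom Q x hQ).comp p).ker =
      Subgroup.normalClosure (R : Set (FreeGroup (Fin n))) := by
    rw [← hR']
    ext w
    rw [MonoidHom.mem_ker, MonoidHom.mem_ker]
    exact (Subtype.ext_iff (a1 := ((germHom Q x hQ).codRestrict C hC).comp p w) (a2 := 1)).symm
  have h1 : ∀ r : FreeGroup (Fin n), ∃ k, r ∈ R → p r ∈ cylTriv Q x k := by
    intro r
    by_cases hr : r ∈ R
    · have h2 : r ∈ ((germHom Q x hQ).comp p).ker := by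
        rw [hR]
        exact Subgroup.subset_normalClosure hr
      obtain ⟨k, hk⟩ := germHom_eq_one.mp (MonoidHom.mem_ker.mp h2)
      exact ⟨k, fun _ => hk⟩
    · exact ⟨0, fun h => absurd h hr⟩
  choose k hk using h1
  have hmono : ∀ {a b : ℕ}, a ≤ b → cylTriv Q x a ≤ cylTriv Q x b :=
    fun hab g hg y hy => hg y fun i hi => hy i (hi.trans_le hab)
  refine ⟨R.sup k, fun w hw => ?_⟩
  have hnorm := cylTriv_normal Q x (R.sup k) hQ
  have h2 : ((germHom Q x hQ).comp p).ker ≤ (cylTriv Q x (R.sup k)).comap p := by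
    rw [hR]
    refine Subgroup.normalClosure_le_normal (N := (cylTriv Q x (R.sup k)).comap p) ?_
    intro r hr
    exact hmono (Finset.le_sup (f := k) hr) (hk r hr)
  exact h2 hw

variable [hfin : ∀ n, Finite (α n)]

theorem fix_haagerup [Countable G] [FaithfulSMul G ((n : ℕ) → α n)]
    (C : ∀ x : (n : ℕ) → α n, Subgroup (GermGroup G x))
    (hgerm : ∀ x : (n : ℕ) → α n, Haagerup (C x))
    (hcoh : ∀ x : (n : ℕ) → α n, Coherent (C x))
    (E : Finset ((n : ℕ) → α n)) (Q : Subgroup G) (hQ1 : ∀ g ∈ Q, ∀ x ∈ E, g • x = x)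
    (hQ2 : ∀ g ∈ Q, ∀ x, x ∉ E → ∃ n, Reg g n x)
    (hQ3 : ∀ (x : (n : ℕ) → α n) (hx : ∀ g ∈ Q, g • x = x), x ∈ E →
      ∀ g : Q, germHom Q x hx g ∈ C x) : Haagerup Q := by
  classical
  refine haagerup_of_closure fun F => ?_
  set Λ := Subgroup.closure (F : Set Q) with hΛ
  let e := F.equivFin
  let p : FreeGroup (Fin F.card) →* Q := FreeGroup.lift fun i => ((e.symm i : F) : Q)
  have hp : ∀ g ∈ Λ, ∃ w, p w = g := by
    intro g hg
    have h1 : Λ ≤ p.range := by
      rw [hΛ, Subgroup.closure_le]
      intro s hs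
      refine ⟨FreeGroup.of (e ⟨s, hs⟩), ?_⟩
      simp only [p, FreeGroup.lift_apply_of, Equiv.symm_apply_apply]
    exact h1 hg
  -- the points of `E`
  let pt : Fin E.card → ((n : ℕ) → α n) := fun i => ((E.equivFin.symm i : E) : (n : ℕ) → α n)
  have hptE : ∀ i, pt i ∈ E := fun i => (E.equivFin.symm i).2
  have hpt : ∀ x ∈ E, ∃ i, pt i = x := fun x hx => ⟨E.equivFin ⟨x, hx⟩, by
    simp only [pt, Equiv.symm_apply_apply]⟩
  have hfix : ∀ i, ∀ g ∈ Q, g • pt i = pt i := fun i g hg => hQ1 g hg _ (hptE i)
  choose k hk using fun i => exists_cyl (hfix i) (C (pt i)) (hQ3 (pt i) (hfix i) (hptE i))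
    (hcoh (pt i)) p
  let K : ℕ := Finset.univ.sup k
  have hkK : ∀ i, k i ≤ K := fun i => Finset.le_sup (Finset.mem_univ i)
  choose m hm using fun g : Q => exists_reg (g : G) E K (hQ2 g g.2)
  let M : ℕ := max K (F.sup m)
  -- the points off the cylinders
  let Off : ((n : ℕ) → α n) → Prop := fun y => ∀ x ∈ E, ¬ ∀ i < K, y i = x i
  have hoff : ∀ g ∈ Q, ∀ y, Off y → Off (g • y) := by
    intro g hg y hy x hx hcon
    refine hy x hx fun i hi => ?_
    have h1 := TreeAction.agree g⁻¹ K (g • y) x hcon i hi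
    rwa [inv_smul_smul, hQ1 _ (Q.inv_mem hg) x hx] at h1
  have hreg : ∀ g ∈ Λ, ∀ y, Off y → Reg (g : G) M y := by
    intro g hg
    induction hg using Subgroup.closure_induction with
    | mem s hs =>
      intro y hy
      exact (hm s y hy).mono ((Finset.le_sup (f := m) hs).trans (le_max_right _ _))
    | one => exact fun y _ => reg_one M y
    | mul a b _ _ ha hb =>
      intro y hy
      exact (hb y hy).mul (ha _ (hoff _ b.2 y hy))
    | inv a _ ha =>
      intro y hy
      have h1 := (ha _ (hoff _ (Q.inv_mem a.2) y hy)).inv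
      rw [smul_inv_smul] at h1
      exact h1
  -- the homomorphism to the product of the groups of germs
  let q : Λ →* ((i : Fin E.card) → C (pt i)) :=
    (MonoidHom.pi fun i => (germHom Q (pt i) (hfix i)).codRestrict (C (pt i))
      (hQ3 (pt i) (hfix i) (hptE i))).comp Λ.subtype
  refine haagerup_of_hom (haagerup_pi fun i => hgerm (pt i)) q ?_
  have hKn : ∀ g : Λ, q g = 1 → ((g : Q) : G) ∈ Kn G α M := by
    intro g hg y
    by_cases hy : Off y
    · exact hreg g g.2 y hy
    · have hy' : ∃ x ∈ E, ∀ i < K, y i = x i := by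
        by_contra hcon
        exact hy fun x hx h => hcon ⟨x, hx, h⟩
      obtain ⟨x, hx, hyx⟩ := hy'
      obtain ⟨i, rfl⟩ := hpt x hx
      obtain ⟨w, hw⟩ := hp g g.2
      have h1 : germHom Q (pt i) (hfix i) (p w) = 1 := by
        rw [hw]
        exact congrArg Subtype.val (congrFun hg i)
      have h2 := hk i w h1
      rw [hw] at h2
      intro z hz j _
      have h3 : ((g : Q) : G) • z = z := by
        refine h2 z fun l hl => ?_
        have hlK := hl.trans_le (hkK i)
        rw [hz l (hlK.trans_le (le_max_left _ _)), hyx l hlK]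
      rw [h3]
  have hfinite := Kn_finite (G := G) (α := α) M
  refine Set.Finite.of_finite_image (f := fun g : Λ => ((g : Q) : G))
    ((Set.toFinite ((Kn G α M : Subgroup G) : Set G)).subset ?_) ?_
  · rintro _ ⟨g, hg, rfl⟩
    exact hKn g hg
  · intro a _ b _ hab
    exact Subtype.ext (Subtype.ext hab)

theorem tree_haagerup [Countable G] [FaithfulSMul G ((n : ℕ) → α n)] (hb : BoundedActivity G α)
    (hgerm : ∀ x : (n : ℕ) → α n, ∃ (C : Subgroup (GermGroup G x)) (_ : C.Normal),
      Coherent C ∧ Haagerup C ∧ FolnerAmenable (GermGroup G x ⧸ C)) : Haagerup G := by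
  classical
  choose C hCn hcoh hHa hFo using hgerm
  refine haagerup_of_offSubgroup (tailGpd G α hb) (tree_recurrent hb).extensivelyAmenable
    fun E => ?_
  set P := (tailGpd G α hb).offSubgroup E with hP
  have hPE : ∀ g : P, ∀ x, (g : G) • x ∈ E ↔ x ∈ E := fun g x => g.2.1 x
  let q : P →* Equiv.Perm E :=
    { toFun := fun g =>
        { toFun := fun x => ⟨(g : G) • x.1, (hPE g x.1).mpr x.2⟩
          invFun := fun x => ⟨(g : G)⁻¹ • x.1, by
            rw [← hPE g, smul_inv_smul]
            exact x.2⟩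
          left_inv := fun x => Subtype.ext (inv_smul_smul _ _)
          right_inv := fun x => Subtype.ext (smul_inv_smul _ _) }
      map_one' := by
        ext x : 2
        exact one_smul G x.1
      map_mul' := fun g h => by
        ext x : 2
        exact mul_smul (g : G) (h : G) x.1 }
  refine haagerup_of_finite_quotient q ?_
  set Q : Subgroup G := q.ker.map P.subtype with hQ
  have hQ1 : ∀ g ∈ Q, ∀ x ∈ E, g • x = x := by
    rintro g ⟨g', hg', rfl⟩ x hx
    have h2 : q g' = 1 := hg'
    exact congrArg (fun e : Equiv.Perm E => (e ⟨x, hx⟩ : (n : ℕ) → α n)) h2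
  have hQ2 : ∀ g ∈ Q, ∀ x, x ∉ E → ∃ n, Reg g n x := by
    rintro g ⟨g', hg', rfl⟩ x hx
    exact g'.2.2 x hx
  have h1 : Haagerup Q := by
    let r : ∀ x : E, Q →* (GermGroup G x.1 ⧸ C x.1) := fun x =>
      (QuotientGroup.mk' (C x.1)).comp (germHom Q x.1 fun g hg => hQ1 g hg x.1 x.2)
    refine haagerup_of_amenable_homs (fun x : E => hFo x.1) r Finset.univ ?_
    set K : Subgroup Q := comKer r Finset.univ with hK
    have hKm : ∀ g : Q, g ∈ K → ∀ x : E, r x g = 1 := fun g hg x => hg x (Finset.mem_univ x)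
    have h2 : Haagerup (K.map Q.subtype : Subgroup G) := by
      refine fix_haagerup C hHa hcoh E _ ?_ ?_ ?_
      · rintro g ⟨g', -, rfl⟩ x hx
        exact hQ1 g' g'.2 x hx
      · rintro g ⟨g', -, rfl⟩ x hx
        exact hQ2 g' g'.2 x hx
      · rintro x hx hxE ⟨g, g', hg', rfl⟩
        have h3 := hKm g' hg' ⟨x, hxE⟩
        exact (QuotientGroup.eq_one_iff _).mp h3
    refine h2.of_injective (K.equivMapOfInjective Q.subtype Q.subtype_injective).toMonoidHom ?_
    exact (K.equivMapOfInjective Q.subtype Q.subtype_injective).injective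
  refine h1.of_injective (q.ker.equivMapOfInjective P.subtype P.subtype_injective).toMonoidHom ?_
  exact (q.ker.equivMapOfInjective P.subtype P.subtype_injective).injective

end

end Pool.Agent.H829.CE
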