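import Pool.Agent.H829.CE.HgTree2

/-!
# Groups of tree automorphisms with finitely many singular points and extensively amenable boundary
-/

set_option autoImplicit false

namespace Pool.Agent.H829.CE

open Pool.Agent.H829.EG

universe u v w

section

variable {G : Type u} {α : ℕ → Type v} [Group G] [MulAction G ((n : ℕ) → α n)]
  [hT : TreeAction G α]

/-- The tail subgroupoid. -/
def tailG (hs : ∀ g : G, (Sing (α := α) g).Finite) : CofiniteSubgroupoid G ((n : ℕ) → α n) where
  Mem g x := ∃ n, Reg g n x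
  one x := ⟨0, reg_one 0 x⟩
  inv g x := fun ⟨n, h⟩ => ⟨n, h.inv⟩
  mul g h x := fun ⟨n, hn⟩ ⟨m, hm⟩ =>
    ⟨max n m, (hn.mono (le_max_left _ _)).mul (hm.mono (le_max_right _ _))⟩
  cofinite g := by
    refine (hs g).subset ?_
    intro x hx n hn
    exact hx ⟨n, hn⟩

variable [hfin : ∀ n, Finite (α n)]

theorem tree_haagerup_of_sing [Countable G] [FaithfulSMul G ((n : ℕ) → α n)]
    (hs : ∀ g : G, (Sing (α := α) g).Finite) (hX : ExtensivelyAmenable G ((n : ℕ) → α n))
    (hgerm : ∀ x : (n : ℕ) → α n, ∃ (C : Subgroup (GermGroup G x)) (_ : C.Normal),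
      Coherent C ∧ Haagerup C ∧ FolnerAmenable (GermGroup G x ⧸ C)) : Haagerup G := by
  classical
  choose C hCn hcoh hHa hFo using hgerm
  refine haagerup_of_offSubgroup (tailG hs) hX fun E => ?_
  set P := (tailG hs).offSubgroup E with hP
  have hPE : ∀ g : P, ∀ x, (g : G) • x ∈ E ↔ x ∈ E := fun g x => g.2.1 x
  let q : P →* Equiv.Perm E :=
    { toFun := fun g =>
        { toFun := fun x => ⟨(g : G) • x.1, (hPE g x.1).mpr x.2⟩
          invFun := fun x => ⟨(g : G)⁻¹ • x.1, by
            rw [← hPE g, smul_inv_smul]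
            exact x.2⟩
          left_inv := fun x => Subtype.ext (inv_smul_smul _ _)
          right_inv := fun x => Subtype.ext (smul_inv_smul _ _) }
      map_one' := by
        ext x : 2
        exact one_smul G x.1
      map_mul' := fun g h => by
        ext x : 2
        exact mul_smul (g : G) (h : G) x.1 }
  refine haagerup_of_finite_quotient q ?_
  set Q : Subgroup G := q.ker.map P.subtype with hQ
  have hQ1 : ∀ g ∈ Q, ∀ x ∈ E, g • x = x := by
    rintro g ⟨g', hg', rfl⟩ x hx
    have h2 : q g' = 1 := hg'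
    exact congrArg (fun e : Equiv.Perm E => (e ⟨x, hx⟩ : (n : ℕ) → α n)) h2
  have hQ2 : ∀ g ∈ Q, ∀ x, x ∉ E → ∃ n, Reg g n x := by
    rintro g ⟨g', hg', rfl⟩ x hx
    exact g'.2.2 x hx
  have h1 : Haagerup Q := by
    let r : ∀ x : E, Q →* (GermGroup G x.1 ⧸ C x.1) := fun x =>
      (QuotientGroup.mk' (C x.1)).comp (germHom Q x.1 fun g hg => hQ1 g hg x.1 x.2)
    refine haagerup_of_amenable_homs (fun x : E => hFo x.1) r Finset.univ ?_
    set K : Subgroup Q := comKer r Finset.univ with hK
    have hKm : ∀ g : Q, g ∈ K → ∀ x : E, r x g = 1 := fun g hg x => hg x (Finset.mem_univ x)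
    have h2 : Haagerup (K.map Q.subtype : Subgroup G) := by
      refine fix_haagerup C hHa hcoh E _ ?_ ?_ ?_
      · rintro g ⟨g', -, rfl⟩ x hx
        exact hQ1 g' g'.2 x hx
      · rintro g ⟨g', -, rfl⟩ x hx
        exact hQ2 g' g'.2 x hx
      · rintro x hx hxE ⟨g, g', hg', rfl⟩
        have h3 := hKm g' hg' ⟨x, hxE⟩
        exact (QuotientGroup.eq_one_iff _).mp h3
    refine h2.of_injective (K.equivMapOfInjective Q.subtype Q.subtype_injective).toMonoidHom ?_
    exact (K.equivMapOfInjective Q.subtype Q.subtype_injective).injective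
  refine h1.of_injective (q.ker.equivMapOfInjective P.subtype P.subtype_injective).toMonoidHom ?_
  exact (q.ker.equivMapOfInjective P.subtype P.subtype_injective).injective

end

end Pool.Agent.H829.CE
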