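import Pool.Agent.H829.CE.HgPerm

/-!
# The Haagerup property from almost invariant vectors
-/

set_option autoImplicit false

namespace Pool.Agent.H829.CE

open Finsupp

universe u v w

theorem haagerup_of_vectors {G : Type u} {Z : Type v} [Group G] [Countable G] [MulAction G Z]
    (h : ∀ (S : Finset G) (ε : ℝ), 0 < ε → ∃ ξ : Z →₀ ℝ, ∑ z ∈ ξ.support, ξ z ^ 2 = 1 ∧
      (∀ z ∈ ξ.support, Haagerup (MulAction.stabilizer G z)) ∧
      ∀ s ∈ S, ∀ T : Finset Z, ∑ z ∈ T, (ξ (s • z) - ξ z) ^ 2 ≤ ε) : Haagerup G := by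
  classical
  refine haagerup_fibration (Z := Z) (I := Z) fun F ε hε => ?_
  obtain ⟨ξ, h1, h2, h3⟩ := h F ε hε
  refine ⟨ξ.support, id, fun z => |ξ z|, Function.injective_id.injOn, fun _ _ => abs_nonneg _, ?_, h2,
    fun s hs => ⟨ξ.support.filter fun z => s • z ∈ ξ.support, fun z => s • z,
      Finset.filter_subset _ _, (MulAction.injective s).injOn,
      fun z hz => ⟨(Finset.mem_filter.mp hz).2, rfl⟩, ?_⟩⟩
  · rw [← h1]
    exact Finset.sum_congr rfl fun z _ => sq_abs _
  · let U : Finset Z := ξ.support ∪ ξ.support.image fun z => s⁻¹ • z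
    have hU1 : ∑ z ∈ U, ξ z ^ 2 = 1 := by
      rw [← h1]
      symm
      refine Finset.sum_subset Finset.subset_union_left fun z _ hz => ?_
      rw [Finsupp.notMem_support_iff.mp hz]
      norm_num
    have hU2 : ∑ z ∈ U, ξ (s • z) ^ 2 = 1 := by
      rw [← h1]
      have h4 : ∑ z ∈ ξ.support.image (fun z => s⁻¹ • z), ξ (s • z) ^ 2 =
          ∑ z ∈ ξ.support, ξ z ^ 2 := by
        rw [Finset.sum_image fun a _ b _ h => MulAction.injective s⁻¹ h]
        refine Finset.sum_congr rfl fun z _ => ?_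
        rw [smul_inv_smul]
      rw [← h4]
      symm
      refine Finset.sum_subset Finset.subset_union_right fun z _ hz => ?_
      by_contra hcon
      refine hz (Finset.mem_image.mpr ⟨s • z, Finsupp.mem_support_iff.mpr fun h5 => hcon ?_,
        inv_smul_smul _ _⟩)
      rw [h5]
      norm_num
    have hV : ∑ z ∈ ξ.support.filter (fun z => s • z ∈ ξ.support), |ξ z| * |ξ (s • z)| =
        ∑ z ∈ U, |ξ z| * |ξ (s • z)| := by
      refine Finset.sum_subset ((Finset.filter_subset _ _).trans Finset.subset_union_left)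
        fun z _ hz => ?_
      by_cases h4 : ξ z = 0
      · rw [h4, abs_zero, zero_mul]
      · have h5 : ξ (s • z) = 0 := by
          by_contra hcon
          exact hz (Finset.mem_filter.mpr ⟨Finsupp.mem_support_iff.mpr h4,
            Finsupp.mem_support_iff.mpr hcon⟩)
        rw [h5, abs_zero, mul_zero]
    beta_reduce
    rw [hV]
    have h4 := h3 s hs U
    have h5 : ∑ z ∈ U, (ξ z ^ 2 + ξ (s • z) ^ 2 - 2 * (|ξ z| * |ξ (s • z)|)) ≤
        ∑ z ∈ U, (ξ (s • z) - ξ z) ^ 2 := by
      refine Finset.sum_le_sum fun z _ => ?_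
      have h6 : ξ z * ξ (s • z) ≤ |ξ z| * |ξ (s • z)| := by
        rw [← abs_mul]
        exact le_abs_self _
      nlinarith
    rw [Finset.sum_sub_distrib, Finset.sum_add_distrib, hU1, hU2, ← Finset.mul_sum] at h5
    linarith

end Pool.Agent.H829.CE
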