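import Pool.Agent.H829.CE.Col

/-!
# Averages over signs
-/

set_option autoImplicit false

namespace Pool.Agent.H829.CE

universe u

variable {C : Type u}

theorem avg_congr {T : Finset C} {Φ Ψ : Finset C → ℝ} (h : ∀ c ∈ T.powerset, Φ c = Ψ c) :
    avg T Φ = avg T Ψ := by
  rw [avg, avg, Finset.sum_congr rfl h]

theorem avg_mono_le {T : Finset C} {Φ Ψ : Finset C → ℝ} (h : ∀ c, Φ c ≤ Ψ c) :
    avg T Φ ≤ avg T Ψ := by
  rw [avg, avg]
  exact mul_le_mul_of_nonneg_left (Finset.sum_le_sum fun c _ => h c) (by positivity)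

theorem avg_add (T : Finset C) (Φ Ψ : Finset C → ℝ) :
    avg T (fun c => Φ c + Ψ c) = avg T Φ + avg T Ψ := by
  rw [avg, avg, avg, Finset.sum_add_distrib, mul_add]

theorem avg_smul (T : Finset C) (r : ℝ) (Φ : Finset C → ℝ) :
    avg T (fun c => r * Φ c) = r * avg T Φ := by
  rw [avg, avg, ← Finset.mul_sum]
  ring

theorem avg_const (T : Finset C) (r : ℝ) : avg T (fun _ => r) = r := by
  refine le_antisymm (avg_le fun _ => le_rfl) ?_
  obtain ⟨c, hc⟩ := exists_le_avg (T := T) (Φ := fun _ => r)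
  exact hc

theorem avg_sum {ι : Type u} (T : Finset C) (S : Finset ι) (Φ : ι → Finset C → ℝ) :
    avg T (fun c => ∑ i ∈ S, Φ i c) = ∑ i ∈ S, avg T (Φ i) := by
  simp only [avg]
  rw [Finset.sum_comm, Finset.mul_sum]

open scoped Classical in
theorem avg_split {T : Finset C} {a : C} (ha : a ∉ T) (Φ : Finset C → ℝ) :
    avg (insert a T) Φ = avg T (fun c => (Φ c + Φ (insert a c)) / 2) := by
  rw [avg, avg, Finset.sum_powerset_insert ha, Finset.card_insert_of_notMem ha, pow_succ,
    ← Finset.sum_div, Finset.sum_add_distrib]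
  ring

open scoped Classical in
/-- The sum with the signs given by `c`. -/
noncomputable def sg (T : Finset C) (u : C → ℝ) (c : Finset C) : ℝ :=
  ∑ i ∈ T, if i ∈ c then -u i else u i

open scoped Classical in
theorem sg_insert {T : Finset C} {a : C} (ha : a ∉ T) (u : C → ℝ) {c : Finset C}
    (hc : c ∈ T.powerset) : sg (insert a T) u c = u a + sg T u c := by
  rw [sg, Finset.sum_insert ha, if_neg fun h => ha (Finset.mem_powerset.mp hc h), sg]

open scoped Classical in
theorem sg_insert' {T : Finset C} {a : C} (ha : a ∉ T) (u : C → ℝ) (c : Finset C) :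
    sg (insert a T) u (insert a c) = -u a + sg T u c := by
  rw [sg, Finset.sum_insert ha, if_pos (Finset.mem_insert_self _ _), sg]
  congr 1
  refine Finset.sum_congr rfl fun i hi => ?_
  have h1 : i ≠ a := fun h => ha (h ▸ hi)
  simp only [Finset.mem_insert, h1, false_or]

theorem avg_sq (T : Finset C) (u : C → ℝ) : avg T (fun c => sg T u c ^ 2) = ∑ i ∈ T, u i ^ 2 := by
  classical
  induction T using Finset.induction_on with
  | empty => simp [avg, sg]
  | insert a T ha ih =>
    rw [avg_split ha, Finset.sum_insert ha, ← ih]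
    have h1 : avg T (fun c => (sg (insert a T) u c ^ 2 + sg (insert a T) u (insert a c) ^ 2) / 2) =
        avg T (fun c => u a ^ 2 + sg T u c ^ 2) := by
      refine avg_congr fun c hc => ?_
      rw [sg_insert ha u hc, sg_insert' ha u c]
      ring
    rw [h1, avg_add, avg_const]

theorem avg_four (T : Finset C) (u : C → ℝ) :
    avg T (fun c => sg T u c ^ 4) ≤ 3 * (∑ i ∈ T, u i ^ 2) ^ 2 := by
  classical
  induction T using Finset.induction_on with
  | empty => simp [avg, sg]
  | insert a T ha ih =>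
    have h1 : avg T (fun c => (sg (insert a T) u c ^ 4 + sg (insert a T) u (insert a c) ^ 4) / 2) =
        avg T (fun c => (u a ^ 4 + (6 * u a ^ 2) * sg T u c ^ 2) + sg T u c ^ 4) := by
      refine avg_congr fun c hc => ?_
      rw [sg_insert ha u hc, sg_insert' ha u c]
      ring
    rw [avg_split ha, h1, avg_add, avg_add, avg_const, avg_smul, avg_sq, Finset.sum_insert ha]
    have h2 : 0 ≤ ∑ i ∈ T, u i ^ 2 := Finset.sum_nonneg fun _ _ => sq_nonneg _
    nlinarith [sq_nonneg (u a ^ 2)]

theorem avg_abs_le (T : Finset C) (u : C → ℝ) :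
    avg T (fun c => |sg T u c|) ≤ ∑ i ∈ T, u i ^ 2 + 1 := by
  rw [← avg_sq T u, ← avg_const T 1, ← avg_add]
  refine avg_mono_le fun c => ?_
  beta_reduce
  rw [← sq_abs]
  nlinarith [sq_nonneg (|sg T u c| - 1), abs_nonneg (sg T u c)]

/-- Khintchine's inequality. -/
theorem le_avg_abs (T : Finset C) (u : C → ℝ) {s : ℝ} (hs : 0 ≤ s) (h : s ^ 2 = ∑ i ∈ T, u i ^ 2) :
    5 * s ≤ 9 * avg T (fun c => |sg T u c|) := by
  have h0 : 0 ≤ avg T (fun c => |sg T u c|) := by
    rw [← avg_const T 0]
    exact avg_mono_le fun c => abs_nonneg _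
  rcases hs.eq_or_lt with h1 | h1
  · rw [← h1]
    linarith
  · have h2 : avg T (fun c => (27 * s ^ 2) * sg T u c ^ 2 + (-4) * sg T u c ^ 4) ≤
        avg T (fun c => (27 * s ^ 3) * |sg T u c|) := by
      refine avg_mono_le fun c => ?_
      beta_reduce
      set x := |sg T u c| with hx
      have hx0 : 0 ≤ x := abs_nonneg _
      have e1 : sg T u c ^ 2 = x ^ 2 := (sq_abs _).symm
      have e2 : sg T u c ^ 4 = x ^ 4 := by
        have : sg T u c ^ 4 = (sg T u c ^ 2) ^ 2 := by ring
        rw [this, e1]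
        ring
      rw [e1, e2]
      have h3 : 0 ≤ x * ((2 * x - 3 * s) ^ 2 * (x + 3 * s)) := by positivity
      nlinarith
    rw [avg_add, avg_smul, avg_smul, avg_smul, avg_sq, ← h] at h2
    have h3 := avg_four T u
    rw [← h] at h3
    have h4 : 15 * s ^ 4 ≤ 27 * s ^ 3 * avg T (fun c => |sg T u c|) := by nlinarith
    have h5 : 0 < s ^ 3 := by positivity
    have h6 : s ^ 3 * (15 * s) ≤ s ^ 3 * (27 * avg T (fun c => |sg T u c|)) := by nlinarith
    have h7 := le_of_mul_le_mul_left h6 h5
    linarith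

end Pool.Agent.H829.CE
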