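import Pool.Agent.H829.CE.Col
import Pool.Agent.H829.CE.Wr
import Pool.Agent.H829.CE.Fs

/-!
# Permutational wreath products without conditions on the action
-/

set_option autoImplicit false

namespace Pool.Agent.H829.CE

open Pool.Agent.H829.EG Pool.Agent.H818.CS Finsupp
open Pool.Agent.N506.EX (CoarselyEmbeds)

universe u v w z t

section lamps

variable {L : Type t} {G : Type v} {X : Type w} [Group L] [Group G] [MulAction G X]

/-- The lamps. -/
theorem lamps (hL : CoarselyEmbeds L) :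
    ∃ (H : Type (max t v w)) (_ : NormedAddCommGroup H) (_ : InnerProductSpace ℝ H)
      (_ : CompleteSpace H) (η : Wreath L G X → H), (∀ s, ∃ D : ℝ, ∀ a, ‖η (a * s) - η a‖ ≤ D) ∧
      ∀ R : ℝ, ∃ V : Set L, V.Finite ∧ ∀ a b, ‖η b - η a‖ ≤ R → ∀ x, (a.fn x)⁻¹ * b.fn x ∈ V := by
  classical
  obtain ⟨H₀, _, _, _, φ, hφ1, hφ2⟩ := hL
  let S : Wreath L G X → Finset X := fun a => a.fin.toFinset
  have hS : ∀ a x, x ∉ S a → a.fn x = 1 := by
    intro a x hx
    simp only [S, Set.Finite.mem_toFinset, Set.mem_ofPred_eq, not_not] at hx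
    exact hx
  let Q : Wreath L G X → Wreath L G X → X → ℝ := fun a b x =>
    inner ℝ (φ (a.fn x) - φ 1) (φ (b.fn x) - φ 1)
  let K : Wreath L G X → Wreath L G X → ℝ := fun a b => ∑ x ∈ S a ∪ S b, Q a b x
  have hKT : ∀ a b (T : Finset X), S a ⊆ T → S b ⊆ T → K a b = ∑ x ∈ T, Q a b x := by
    intro a b T h1 h2
    refine Finset.sum_subset (Finset.union_subset h1 h2) fun x _ hx => ?_
    rw [Finset.mem_union, not_or] at hx
    simp only [Q, hS a x hx.1, sub_self, inner_zero_left]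
  have hK : Ker K := by
    refine Ker.of_local fun A => ?_
    refine ⟨fun a b => ∑ x ∈ A.biUnion S, Q a b x, ?_, ?_⟩
    · exact Ker.sum _ fun x _ => Ker.inner' fun a : Wreath L G X => φ (a.fn x) - φ 1
    · intro a ha b hb
      exact hKT a b _ (Finset.subset_biUnion_of_mem S ha) (Finset.subset_biUnion_of_mem S hb)
  obtain ⟨H, i1, i2, i3, η, hη⟩ := hK.kolmogorov
  have hdist : ∀ a b (T : Finset X), S a ⊆ T → S b ⊆ T →
      ‖η b - η a‖ ^ 2 = ∑ x ∈ T, ‖φ (b.fn x) - φ (a.fn x)‖ ^ 2 := by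
    intro a b T h1 h2
    rw [norm_sub_sq_real, ← real_inner_self_eq_norm_sq, ← real_inner_self_eq_norm_sq, hη, hη, hη,
      hKT a a T h1 h1, hKT b b T h2 h2, hKT b a T h2 h1]
    have e : ∀ x, ‖φ (b.fn x) - φ (a.fn x)‖ ^ 2 = Q b b x - 2 * Q b a x + Q a a x := by
      intro x
      simp only [Q]
      have e1 : φ (b.fn x) - φ (a.fn x) = (φ (b.fn x) - φ 1) - (φ (a.fn x) - φ 1) := by abel
      rw [e1, norm_sub_sq_real, ← real_inner_self_eq_norm_sq, ← real_inner_self_eq_norm_sq]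
    simp only [e]
    rw [Finset.sum_add_distrib, Finset.sum_sub_distrib, ← Finset.mul_sum]
  refine ⟨H, i1, i2, i3, η, fun s => ?_, fun R => ?_⟩
  · choose D hD using hφ1
    obtain ⟨D', hD'⟩ := (((S s).image fun y => D (s.fn y)).finite_toSet).bddAbove
    have hD0 : ∀ y ∈ S s, D (s.fn y) ≤ max D' 0 := fun y hy =>
      (hD' (Finset.mem_coe.mpr (Finset.mem_image_of_mem _ hy))).trans (le_max_left _ _)
    refine ⟨Real.sqrt ((S s).card * (max D' 0) ^ 2), fun a => ?_⟩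
    apply Real.le_sqrt_of_sq_le
    set T := (S a ∪ S (a * s)) ∪ (S s).image (fun y => a.pt • y) with hT
    rw [hdist a (a * s) T (Finset.subset_union_left.trans Finset.subset_union_left)
      (Finset.subset_union_right.trans Finset.subset_union_left)]
    have h1 : ∑ x ∈ T, ‖φ ((a * s).fn x) - φ (a.fn x)‖ ^ 2 =
        ∑ x ∈ (S s).image (fun y => a.pt • y), ‖φ ((a * s).fn x) - φ (a.fn x)‖ ^ 2 := by
      symm
      refine Finset.sum_subset Finset.subset_union_right fun x _ hx => ?_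
      have h2 : s.fn (a.pt⁻¹ • x) = 1 := by
        refine hS s _ fun h3 => hx ?_
        exact Finset.mem_image.mpr ⟨_, h3, smul_inv_smul _ _⟩
      rw [Wreath.mul_fn, h2, mul_one, sub_self, norm_zero]
      norm_num
    rw [h1]
    have h2 : ∀ x ∈ (S s).image (fun y => a.pt • y), ‖φ ((a * s).fn x) - φ (a.fn x)‖ ^ 2 ≤
        (max D' 0) ^ 2 := by
      intro x hx
      obtain ⟨y, hy, rfl⟩ := Finset.mem_image.mp hx
      rw [Wreath.mul_fn, inv_smul_smul]
      exact pow_le_pow_left₀ (norm_nonneg _) ((hD _ _).trans (hD0 y hy)) 2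
    refine (Finset.sum_le_card_nsmul _ _ _ h2).trans ?_
    rw [nsmul_eq_mul]
    exact mul_le_mul_of_nonneg_right (by exact_mod_cast Finset.card_image_le) (by positivity)
  · refine ⟨{l | ∃ l', ‖φ (l' * l) - φ l'‖ ≤ R}, hφ2 R, fun a b hab x => ⟨a.fn x, ?_⟩⟩
    rw [mul_inv_cancel_left]
    refine le_trans ?_ hab
    set T := insert x (S a ∪ S b) with hT
    have h1 := hdist a b T (Finset.subset_union_left.trans (Finset.subset_insert _ _))
      (Finset.subset_union_right.trans (Finset.subset_insert _ _))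
    have h2 : ‖φ (b.fn x) - φ (a.fn x)‖ ^ 2 ≤ ‖η b - η a‖ ^ 2 := by
      rw [h1]
      exact Finset.single_le_sum (f := fun x => ‖φ (b.fn x) - φ (a.fn x)‖ ^ 2)
        (fun _ _ => sq_nonneg _) (Finset.mem_insert_self _ _)
    exact abs_le_of_sq_le_sq' h2 (norm_nonneg _) |>.2

end lamps

/-- **Change of the lamps.** -/
theorem wreath_of_wreath {L : Type t} {L₀ : Type z} {G : Type v} {X : Type w} [Group L]
    [Group L₀] [Nontrivial L₀] [Group G] [MulAction G X] (h₀ : CoarselyEmbeds (Wreath L₀ G X))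
    (hL : CoarselyEmbeds L) : CoarselyEmbeds (Wreath L G X) := by
  classical
  obtain ⟨l₀, hl₀⟩ := exists_ne (1 : L₀)
  let π : Wreath L G X →* G :=
    { toFun := fun a => a.pt
      map_one' := rfl
      map_mul' := fun _ _ => rfl }
  have hπ : ∀ a, π a = a.pt := fun _ => rfl
  obtain ⟨H, _, _, _, ξ, hξ1, hξ2⟩ := colouring π (fun (a : Wreath L G X) x => a.fn x)
    (fun a => a.fin.toFinset) (by
      intro a s x hx
      rw [Set.Finite.mem_toFinset, Set.mem_ofPred_eq, not_not] at hx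
      rw [Wreath.mul_fn]
      have h1 : s.fn (a.pt⁻¹ • x) = 1 := hx
      rw [h1, mul_one]) l₀ hl₀ h₀
  obtain ⟨H', _, _, _, η, hη1, hη2⟩ := lamps (G := G) (X := X) hL
  refine ⟨WithLp 2 (H × H'), inferInstance, inferInstance, inferInstance,
    fun a => WithLp.toLp 2 (ξ a, η a), fun s => ?_, fun R => ?_⟩
  · obtain ⟨D, hD⟩ := hξ1 s
    obtain ⟨D', hD'⟩ := hη1 s
    refine ⟨Real.sqrt (D ^ 2 + D' ^ 2), fun a => ?_⟩
    apply Real.le_sqrt_of_sq_le
    rw [WithLp.prod_norm_sq_eq_of_L2]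
    exact add_le_add (pow_le_pow_left₀ (norm_nonneg _) (hD a) 2)
      (pow_le_pow_left₀ (norm_nonneg _) (hD' a) 2)
  · obtain ⟨F, E, hFE⟩ := hξ2 R
    obtain ⟨V, hV, hVV⟩ := hη2 R
    refine (wr_finite F.finite_toSet E hV).subset ?_
    rintro s ⟨a, ha⟩
    have hR : 0 ≤ R := (norm_nonneg _).trans ha
    have h1 : ‖ξ (a * s) - ξ a‖ ^ 2 + ‖η (a * s) - η a‖ ^ 2 ≤ R ^ 2 := by
      have h2 := pow_le_pow_left₀ (norm_nonneg _) ha 2
      rw [WithLp.prod_norm_sq_eq_of_L2] at h2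
      exact h2
    have h2 : ‖ξ (a * s) - ξ a‖ ≤ R :=
      abs_le_of_sq_le_sq' (by nlinarith [sq_nonneg ‖η (a * s) - η a‖]) hR |>.2
    have h3 : ‖η (a * s) - η a‖ ≤ R :=
      abs_le_of_sq_le_sq' (by nlinarith [sq_nonneg ‖ξ (a * s) - ξ a‖]) hR |>.2
    obtain ⟨h4, h5⟩ := hFE a (a * s) h2
    refine ⟨?_, fun y hy => ?_, fun y _ => ?_⟩
    · rw [map_mul, inv_mul_cancel_left] at h4
      exact h4
    · by_contra hcon
      refine hy ?_
      have h6 := h5 (a.pt • y) (by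
        rw [Wreath.mul_fn, inv_smul_smul]
        intro h7
        exact hcon (mul_eq_left.mp h7.symm))
      rwa [hπ, inv_smul_smul] at h6
    · have h6 := hVV a (a * s) h3 (a.pt • y)
      rw [Wreath.mul_fn, inv_smul_smul, inv_mul_cancel_left] at h6
      exact h6

/-- **Groups with a cofinite subgroupoid.** -/
theorem gpd_of_wreath {Γ : Type u} {L₀ : Type z} {G : Type v} {X : Type w} [Group Γ]
    [Group L₀] [Nontrivial L₀] [Group G] [MulAction G X] [MulAction Γ X] (π : Γ →* G)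
    (hπ : ∀ (γ : Γ) (x : X), γ • x = π γ • x) (H : CofiniteSubgroupoid Γ X)
    (hN : ∀ E : Finset X, {n : Γ | π n = 1 ∧ ∀ x, x ∉ E → H.Mem n x}.Finite)
    (h₀ : CoarselyEmbeds (Wreath L₀ G X)) : CoarselyEmbeds Γ := by
  classical
  obtain ⟨l₀, hl₀⟩ := exists_ne (1 : L₀)
  let rl : X → Γ → Γ → Prop := fun x a b => H.Mem (a⁻¹ * b) (b⁻¹ • x)
  have hrefl : ∀ x a, rl x a a := fun x a => by
    simp only [rl, inv_mul_cancel]
    exact H.one _
  have hsymm : ∀ x a b, rl x a b → rl x b a := by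
    intro x a b h
    have h1 := H.inv _ _ h
    have h2 : (a⁻¹ * b)⁻¹ = b⁻¹ * a := by group
    have h3 : (a⁻¹ * b) • (b⁻¹ • x) = a⁻¹ • x := by rw [smul_smul, mul_inv_cancel_right]
    rwa [h2, h3] at h1
  have htrans : ∀ x a b c, rl x a b → rl x b c → rl x a c := by
    intro x a b c h h'
    have h3 : (b⁻¹ * c) • (c⁻¹ • x) = b⁻¹ • x := by rw [smul_smul, mul_inv_cancel_right]
    have h4 := H.mul (a⁻¹ * b) (b⁻¹ * c) (c⁻¹ • x) h' (by rw [h3]; exact h)
    have h5 : a⁻¹ * b * (b⁻¹ * c) = a⁻¹ * c := by group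
    rwa [h5] at h4
  let Λ : Γ → X → Set Γ := fun a x => {b | rl x a b}
  have hΛ : ∀ a b x, Λ a x = Λ b x ↔ rl x a b := by
    intro a b x
    constructor
    · intro h
      have h1 : b ∈ Λ b x := hrefl x b
      rw [← h] at h1
      exact h1
    · intro h
      ext c
      exact ⟨fun h' => htrans x b a c (hsymm x a b h) h', fun h' => htrans x a b c h h'⟩
  have hBf : ∀ s : Γ, {y : X | ¬ H.Mem s (s⁻¹ • y)}.Finite := fun s =>
    (H.cofinite s).preimage (MulAction.injective s⁻¹).injOn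
  obtain ⟨HH, i1, i2, i3, ξ, hξ1, hξ2⟩ := colouring π Λ (fun s => (hBf s).toFinset) (by
    intro a s x hx
    rw [Set.Finite.mem_toFinset, Set.mem_ofPred_eq, not_not] at hx
    refine ((hΛ _ _ _).mpr ?_).symm
    show H.Mem (a⁻¹ * (a * s)) ((a * s)⁻¹ • x)
    rw [inv_mul_cancel_left, mul_inv_rev, mul_smul, hπ a⁻¹, map_inv]
    exact hx) l₀ hl₀ h₀
  refine ⟨HH, i1, i2, i3, ξ, hξ1, fun R => ?_⟩
  obtain ⟨F, E, hFE⟩ := hξ2 R
  have hZ : ∀ f : G, {s : Γ | π s = f ∧ ∀ y, y ∉ E → H.Mem s (s⁻¹ • y)}.Finite := by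
    intro f
    by_cases hne : ∃ s₀ : Γ, π s₀ = f ∧ ∀ y, y ∉ E → H.Mem s₀ (s₀⁻¹ • y)
    · obtain ⟨s₀, h1, h2⟩ := hne
      let E' : Finset X := E.image fun y => s₀⁻¹ • y
      refine ((hN E').image fun n => s₀ * n).subset ?_
      rintro s ⟨h3, h4⟩
      refine ⟨s₀⁻¹ * s, ⟨?_, fun x hx => ?_⟩, mul_inv_cancel_left _ _⟩
      · rw [map_mul, map_inv, h1, h3, inv_mul_cancel]
      · have h5 : s • x = s₀ • x := by rw [hπ, hπ, h1, h3]
        have h6 : s₀ • x ∉ E := fun h7 => hx (Finset.mem_image.mpr ⟨_, h7, inv_smul_smul _ _⟩)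
        have h7 := h4 (s • x) (by rw [h5]; exact h6)
        rw [inv_smul_smul] at h7
        have h8 := h2 _ h6
        rw [inv_smul_smul] at h8
        have h9 := H.inv _ _ h8
        rw [← h5] at h9
        exact H.mul _ _ _ h7 h9
    · refine Set.finite_empty.subset ?_
      rintro s ⟨h3, h4⟩
      exact hne ⟨s, h3, h4⟩
  refine (F.finite_toSet.biUnion fun f _ => hZ f).subset ?_
  rintro s ⟨a, ha⟩
  obtain ⟨h4, h5⟩ := hFE a (a * s) ha
  rw [map_mul, inv_mul_cancel_left] at h4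
  refine Set.mem_biUnion h4 ⟨rfl, fun y hy => ?_⟩
  have h6 : Λ a (a • y) = Λ (a * s) (a • y) := by
    by_contra hcon
    have h7 := h5 _ hcon
    rw [hπ, inv_smul_smul] at h7
    exact hy h7
  have h7 := (hΛ _ _ _).mp h6
  have h8 : H.Mem (a⁻¹ * (a * s)) ((a * s)⁻¹ • (a • y)) := h7
  rwa [inv_mul_cancel_left, mul_inv_rev, mul_smul, inv_smul_smul] at h8

/-- Finitary permutations. -/
theorem fs_of_wreath {L₀ : Type z} {G X : Type u} [Group L₀] [Nontrivial L₀] [Group G]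
    [MulAction G X] (h₀ : CoarselyEmbeds (Wreath L₀ G X)) : CoarselyEmbeds (FinitaryExt G X) := by
  classical
  refine gpd_of_wreath ((MonoidHom.snd (Equiv.Perm X) G).comp (FinitaryExt G X).subtype)
    (fun _ _ => rfl) (fsGpd G X) (fun E => ?_) h₀
  refine Set.Finite.of_injOn (f := fun a : FinitaryExt G X =>
    fun x : E => (a : Equiv.Perm X × G).1 x) (t := {f : E → X | ∀ x, f x ∈ E}) ?_ ?_ ?_
  · rintro a ⟨h1, h2⟩ x
    have h1' : (a : Equiv.Perm X × G).2 = 1 := h1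
    by_contra hcon
    have h3 : (a : Equiv.Perm X × G).1 ((a : Equiv.Perm X × G).1 x) =
      (a : Equiv.Perm X × G).2 • (a : Equiv.Perm X × G).1 x := h2 _ hcon
    rw [h1', one_smul] at h3
    have h4 := (a : Equiv.Perm X × G).1.injective h3
    beta_reduce at hcon
    rw [h4] at hcon
    exact hcon x.2
  · rintro a ⟨h1, h2⟩ b ⟨h1', h2'⟩ hab
    have e1 : (a : Equiv.Perm X × G).2 = 1 := h1
    have e2 : (b : Equiv.Perm X × G).2 = 1 := h1'
    apply Subtype.ext
    refine Prod.ext (Equiv.ext fun x => ?_) (e1.trans e2.symm)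
    by_cases hx : x ∈ E
    · exact congrFun hab ⟨x, hx⟩
    · have h3 : (a : Equiv.Perm X × G).1 x = (a : Equiv.Perm X × G).2 • x := h2 x hx
      have h4 : (b : Equiv.Perm X × G).1 x = (b : Equiv.Perm X × G).2 • x := h2' x hx
      rw [h3, h4, e1, e2]
  · exact (Set.Finite.pi' fun _ : E => E.finite_toSet)

end Pool.Agent.H829.CE
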